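import Pool.Agent.R130.CF.Defs

set_option autoImplicit false

open Filter Topology

namespace R130.CF

noncomputable section

namespace ChebAux

variable {P : Type} [DecidableEq P]

lemma nrm_zero (ν : P → ℕ) : nrm ν 0 = 1 := by
  simp [nrm]

lemma nrm_pos (ν : P → ℕ) (h2 : ∀ p, 2 ≤ ν p) (θ : P →₀ ℕ) : 1 ≤ nrm ν θ := by
  unfold nrm Finsupp.prod
  apply Nat.one_le_iff_ne_zero.mpr
  apply Finset.prod_ne_zero_iff.mpr
  intro p _
  have := h2 p
  positivity

lemma nrm_single (ν : P → ℕ) (p : P) : nrm ν (Finsupp.single p 1) = ν p := by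
  unfold nrm
  rw [Finsupp.prod_single_index] <;> simp

lemma cnt_mono {ν : P → ℕ} {ρ : ℝ} (hs : Sys ν ρ) {x y : ℝ} (hxy : x ≤ y) : cnt ν x ≤ cnt ν y := by
  unfold cnt
  have : (Th ν x).ncard ≤ (Th ν y).ncard := by
    apply Set.ncard_le_ncard _ (hs.fin y)
    intro θ hθ
    exact le_trans hθ hxy
  exact_mod_cast this

lemma cnt_zero {ν : P → ℕ} {ρ : ℝ} (hs : Sys ν ρ) {x : ℝ} (hx : x < 1) : cnt ν x = 0 := by
  unfold cnt
  have : Th ν x = ∅ := by
    apply Set.eq_empty_of_forall_notMem
    intro θ hθ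
    have h1 : (nrm ν θ : ℝ) ≤ x := hθ
    have h2 : (1:ℝ) ≤ nrm ν θ := by exact_mod_cast nrm_pos ν hs.two_le θ
    linarith
  rw [this]; simp

lemma cnt_one {ν : P → ℕ} {ρ : ℝ} (hs : Sys ν ρ) {x : ℝ} (hx : 1 ≤ x) : 1 ≤ cnt ν x := by
  unfold cnt
  have h : (0 : P →₀ ℕ) ∈ Th ν x := by
    show (nrm ν 0 : ℝ) ≤ x
    rw [nrm_zero]; simpa using hx
  have : 0 < (Th ν x).ncard := by
    rw [Set.ncard_pos (hs.fin x)]
    exact ⟨0, h⟩
  exact_mod_cast this

lemma card_le {ν : P → ℕ} {ρ : ℝ} (hs : Sys ν ρ) (u : Finset P) (x : ℝ)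
    (hu : ∀ p ∈ u, (ν p : ℝ) ≤ x) : (u.card : ℝ) ≤ cnt ν x := by
  unfold cnt
  have hinj : Function.Injective (fun p : P => (Finsupp.single p 1 : P →₀ ℕ)) := by
    intro p q hpq
    exact (Finsupp.single_left_injective (one_ne_zero)) hpq
  have h1 : (u.image (fun p : P => (Finsupp.single p 1 : P →₀ ℕ))).card = u.card :=
    Finset.card_image_of_injective _ hinj
  have h2 : u.card ≤ (Th ν x).ncard := by
    rw [← h1, ← Set.ncard_coe_finset]
    apply Set.ncard_le_ncard _ (hs.fin x)
    intro θ hθ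
    simp only [Finset.coe_image, Set.mem_image, Finset.mem_coe] at hθ
    obtain ⟨p, hp, rfl⟩ := hθ
    show (nrm ν _ : ℝ) ≤ x
    rw [nrm_single]
    exact hu p hp
  exact_mod_cast h2

end ChebAux

open ChebAux

theorem cheb : StmCheb := by
  intro P _ ν ρ hs
  have hlim := hs.lim
  have hρ := hs.pos
  have h1 : ∀ᶠ x : ℝ in atTop, ρ / 2 < cnt ν x / x := hlim.eventually_const_lt (by linarith)
  have h2 : ∀ᶠ x : ℝ in atTop, cnt ν x / x < 2 * ρ := hlim.eventually_lt_const (by linarith)
  obtain ⟨X0, hX0⟩ := eventually_atTop.mp (h1.and h2)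
  set X := max X0 1 with hX
  have hX1 : 1 ≤ X := le_max_right _ _
  have hXX : X0 ≤ X := le_max_left _ _
  have hcX : 1 ≤ cnt ν X := cnt_one hs hX1
  refine ⟨min (ρ / 2) (1 / X), max (2 * ρ) (cnt ν X), ?_, ?_, ?_, ?_⟩
  · exact lt_min (by linarith) (by positivity)
  · exact lt_max_of_lt_left (by linarith)
  · intro x hx
    rcases le_or_gt X x with hle | hlt
    · have h3 := (hX0 x (le_trans hXX hle)).1
      rw [lt_div_iff₀ (by linarith)] at h3
      have : min (ρ / 2) (1 / X) * x ≤ ρ / 2 * x :=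
        mul_le_mul_of_nonneg_right (min_le_left _ _) (by linarith)
      linarith
    · have h3 := cnt_one hs hx
      have : min (ρ / 2) (1 / X) * x ≤ 1 / X * x :=
        mul_le_mul_of_nonneg_right (min_le_right _ _) (by linarith)
      have h4 : 1 / X * x ≤ 1 := by
        rw [one_div_mul_eq_div, div_le_one (by linarith)]
        exact hlt.le
      linarith
  · intro x hx
    rcases lt_or_ge x 1 with hlt1 | hge1
    · rw [cnt_zero hs hlt1]
      apply mul_nonneg _ hx
      exact le_trans (by linarith) (le_max_left (2 * ρ) _)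
    · rcases le_or_gt X x with hle | hlt
      · have h3 := (hX0 x (le_trans hXX hle)).2
        rw [div_lt_iff₀ (by linarith)] at h3
        have : 2 * ρ * x ≤ max (2 * ρ) (cnt ν X) * x :=
          mul_le_mul_of_nonneg_right (le_max_left _ _) (by linarith)
        linarith
      · have h3 := cnt_mono hs hlt.le
        have : cnt ν X * x ≤ max (2 * ρ) (cnt ν X) * x :=
          mul_le_mul_of_nonneg_right (le_max_right _ _) (by linarith)
        nlinarith

theorem summ : StmSumm := by
  intro P _ ν ρ hs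
  obtain ⟨c₁, c₂, -, hc2, -, hub⟩ := cheb P ν ρ hs
  set r : ℝ := 1 / Real.sqrt 2 with hr
  have hs2 : 1 < Real.sqrt 2 := by
    rw [Real.lt_sqrt (by norm_num)]; norm_num
  have hr0 : 0 ≤ r := by positivity
  have hr1 : r < 1 := by
    rw [hr, div_lt_one (by linarith)]; exact hs2
  have hgeo : Summable (fun j : ℕ => r ^ j) := summable_geometric_of_lt_one hr0 hr1
  apply summable_of_sum_le (c := 2 * c₂ * ∑' j : ℕ, r ^ j)
  · intro p; positivity
  · intro u
    set J := u.sup (fun p => Nat.log 2 (ν p)) + 1 with hJ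
    rw [← Finset.sum_fiberwise_of_maps_to (s := u) (t := Finset.range J)
      (g := fun p => Nat.log 2 (ν p))]
    · have hj : ∀ j ∈ Finset.range J,
          ∑ p ∈ u with Nat.log 2 (ν p) = j, 1 / ((ν p : ℝ) * Real.sqrt (ν p)) ≤
          2 * c₂ * r ^ j := by
        intro j _
        have hp : ∀ p ∈ u.filter (fun p => Nat.log 2 (ν p) = j),
            1 / ((ν p : ℝ) * Real.sqrt (ν p)) ≤ 1 / (2:ℝ) ^ j * r ^ j := by
          intro p hp
          rw [Finset.mem_filter] at hp
          have hν : ν p ≠ 0 := by have := hs.two_le p; omega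
          have h1 : 2 ^ j ≤ ν p := by
            rw [← hp.2]; exact Nat.pow_log_le_self 2 hν
          have h1' : (2:ℝ) ^ j ≤ ν p := by exact_mod_cast h1
          have h2 : Real.sqrt ((2:ℝ) ^ j) ≤ Real.sqrt (ν p) := Real.sqrt_le_sqrt h1'
          have h3 : Real.sqrt ((2:ℝ) ^ j) = (Real.sqrt 2) ^ j := by
            rw [← Real.sqrt_sq (pow_nonneg (Real.sqrt_nonneg 2) j)]
            congr 1
            rw [← pow_mul, mul_comm, pow_mul, Real.sq_sqrt (by norm_num)]
          rw [h3] at h2
          rw [hr, one_div_pow, ← one_div_mul_one_div_rev, mul_comm (1 / Real.sqrt (ν p))]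
          apply mul_le_mul
          · exact one_div_le_one_div_of_le (by positivity) h1'
          · exact one_div_le_one_div_of_le (by positivity) h2
          · positivity
          · positivity
        refine le_trans (Finset.sum_le_card_nsmul _ _ _ hp) ?_
        rw [nsmul_eq_mul]
        have hcard : ((u.filter (fun p => Nat.log 2 (ν p) = j)).card : ℝ) ≤ c₂ * 2 ^ (j + 1) := by
          refine le_trans (card_le hs _ ((2:ℝ) ^ (j + 1)) ?_) (hub _ (by positivity))
          intro p hp
          rw [Finset.mem_filter] at hp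
          have h1 : ν p < 2 ^ (j + 1) := by
            rw [← hp.2]; exact Nat.lt_pow_succ_log_self (by norm_num) _
          have h1' : (ν p : ℝ) < 2 ^ (j + 1) := by exact_mod_cast h1
          exact h1'.le
        calc ((u.filter (fun p => Nat.log 2 (ν p) = j)).card : ℝ) * (1 / (2:ℝ) ^ j * r ^ j)
            ≤ (c₂ * 2 ^ (j + 1)) * (1 / (2:ℝ) ^ j * r ^ j) :=
              mul_le_mul_of_nonneg_right hcard (by positivity)
          _ = 2 * c₂ * r ^ j := by
              rw [pow_succ]; field_simp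
      refine le_trans (Finset.sum_le_sum hj) ?_
      rw [← Finset.mul_sum]
      apply mul_le_mul_of_nonneg_left _ (by positivity)
      exact hgeo.sum_le_tsum _ (fun i _ => by positivity)
    · intro p hp
      rw [Finset.mem_range, hJ]
      have : Nat.log 2 (ν p) ≤ u.sup (fun p => Nat.log 2 (ν p)) :=
        Finset.le_sup (f := fun p => Nat.log 2 (ν p)) hp
      omega

end

end R130.CF
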