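import Pool.Agent.R130.CF.Defs

/-!
Piece CF-COMB of the project MP_f07b9f_nt (helper130), by helper568.
-/

open Filter Topology

namespace R130.CF

noncomputable section

variable {P : Type} [DecidableEq P]

lemma wt_insert_left (p : P → ℝ) (W D : Finset P) (q : P) (hq : q ∉ W) (hD : D ⊆ W) :
    wt p (insert q W) D = (1 - p q) * wt p W D := by
  have hqD : q ∉ D := fun h => hq (hD h)
  have h1 : insert q W \ D = insert q (W \ D) := Finset.insert_sdiff_of_notMem W hqD
  have h2 : q ∉ W \ D := fun h => hq (Finset.mem_sdiff.mp h).1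
  unfold wt
  rw [h1, Finset.prod_insert h2]
  ring

lemma wt_insert_both (p : P → ℝ) (W D : Finset P) (q : P) (hq : q ∉ W) (hD : D ⊆ W) :
    wt p (insert q W) (insert q D) = p q * wt p W D := by
  have hqD : q ∉ D := fun h => hq (hD h)
  have h1 : insert q W \ insert q D = W \ D := by
    ext x
    simp only [Finset.mem_sdiff, Finset.mem_insert, not_or]
    constructor
    · rintro ⟨h | h, h3, h4⟩
      · exact absurd h h3
      · exact ⟨h, h4⟩
    · rintro ⟨h, h4⟩
      exact ⟨Or.inr h, fun e => hq (e ▸ h), h4⟩
  unfold wt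
  rw [h1, Finset.prod_insert hqD]
  ring

lemma sum_split (p _f : P → ℝ) (g : Finset P → ℝ) (W : Finset P) (q : P) (hq : q ∉ W) :
    ∑ D ∈ (insert q W).powerset, wt p (insert q W) D * g D =
      (1 - p q) * ∑ D ∈ W.powerset, wt p W D * g D +
        p q * ∑ D ∈ W.powerset, wt p W D * g (insert q D) := by
  rw [Finset.sum_powerset_insert hq, Finset.mul_sum, Finset.mul_sum]
  congr 1
  · refine Finset.sum_congr rfl fun D hD => ?_
    rw [wt_insert_left p W D q hq (Finset.mem_powerset.mp hD)]
    ring
  · refine Finset.sum_congr rfl fun D hD => ?_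
    rw [wt_insert_both p W D q hq (Finset.mem_powerset.mp hD)]
    ring

theorem comb : StmComb := by
  intro P _ W
  induction W using Finset.induction_on with
  | empty =>
    intro p _ _ a b C h
    have := h ∅ ∅ (by simp) (by simp) (by simp)
    simpa [wt] using this
  | insert q W hq ih =>
    intro p h0 h1 a b C h
    have h0' : ∀ r ∈ W, 0 ≤ p r := fun r hr => h0 r (Finset.mem_insert_of_mem hr)
    have h1' : ∀ r ∈ W, p r ≤ 1 / 2 := fun r hr => h1 r (Finset.mem_insert_of_mem hr)
    have t0 := h0 q (Finset.mem_insert_self q W)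
    have t1 := h1 q (Finset.mem_insert_self q W)
    have e1 := ih p h0' h1' a b C (fun D D' hD hD' hd =>
      h D D' (hD.trans (Finset.subset_insert _ _)) (hD'.trans (Finset.subset_insert _ _)) hd)
    have e2 := ih p h0' h1' (fun D => a (insert q D)) b C (fun D D' hD hD' hd =>
      h (insert q D) D' (Finset.insert_subset_insert q hD) (hD'.trans (Finset.subset_insert _ _))
        (Finset.disjoint_insert_left.mpr ⟨fun hh => hq (hD' hh), hd⟩))
    have e3 := ih p h0' h1' a (fun D => b (insert q D)) C (fun D D' hD hD' hd =>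
      h D (insert q D') (hD.trans (Finset.subset_insert _ _)) (Finset.insert_subset_insert q hD')
        (Finset.disjoint_insert_right.mpr ⟨fun hh => hq (hD hh), hd⟩))
    rw [sum_split p p a W q hq, sum_split p p b W q hq]
    have k1 := mul_le_mul_of_nonneg_left e1 (by linarith : (0 : ℝ) ≤ 1 - 2 * p q)
    have k2 := mul_le_mul_of_nonneg_left e2 t0
    have k3 := mul_le_mul_of_nonneg_left e3 t0
    linarith

theorem combGap : StmCombGap := by
  intro P _ W
  induction W using Finset.induction_on with
  | empty =>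
    intro p _ _ a b C Q _ h'
    have := h' ∅ ∅ (by simp) (by simp) (by simp) (by simp) (by simp)
    simpa [wt] using this
  | insert q W hq ih =>
    intro p h0 h1 a b C Q h h'
    have h0' : ∀ r ∈ W, 0 ≤ p r := fun r hr => h0 r (Finset.mem_insert_of_mem hr)
    have h1' : ∀ r ∈ W, p r ≤ 1 / 2 := fun r hr => h1 r (Finset.mem_insert_of_mem hr)
    have t0 := h0 q (Finset.mem_insert_self q W)
    have t1 := h1 q (Finset.mem_insert_self q W)
    have c1 : ∀ D D', D ⊆ W → D' ⊆ W → Disjoint D D' → a D + b D' ≤ C := fun D D' hD hD' hd =>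
      h D D' (hD.trans (Finset.subset_insert _ _)) (hD'.trans (Finset.subset_insert _ _)) hd
    have c2 : ∀ D D', D ⊆ W → D' ⊆ W → Disjoint D D' → a (insert q D) + b D' ≤ C :=
      fun D D' hD hD' hd =>
      h (insert q D) D' (Finset.insert_subset_insert q hD) (hD'.trans (Finset.subset_insert _ _))
        (Finset.disjoint_insert_left.mpr ⟨fun hh => hq (hD' hh), hd⟩)
    have c3 : ∀ D D', D ⊆ W → D' ⊆ W → Disjoint D D' → a D + b (insert q D') ≤ C :=
      fun D D' hD hD' hd =>
      h D (insert q D') (hD.trans (Finset.subset_insert _ _)) (Finset.insert_subset_insert q hD')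
        (Finset.disjoint_insert_right.mpr ⟨fun hh => hq (hD hh), hd⟩)
    have e1 := ih p h0' h1' a b C Q c1 (fun D D' hD hD' hd hQ hQ' =>
      h' D D' (hD.trans (Finset.subset_insert _ _)) (hD'.trans (Finset.subset_insert _ _)) hd hQ hQ')
    rw [sum_split p p a W q hq, sum_split p p b W q hq]
    have k1 := mul_le_mul_of_nonneg_left e1 (by linarith : (0 : ℝ) ≤ 1 - 2 * p q)
    by_cases hqQ : q ∈ Q
    · have e2 := comb P W p h0' h1' (fun D => a (insert q D)) b C c2
      have e3 := comb P W p h0' h1' a (fun D => b (insert q D)) C c3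
      have k2 := mul_le_mul_of_nonneg_left e2 t0
      have k3 := mul_le_mul_of_nonneg_left e3 t0
      rw [Finset.insert_inter_of_mem hqQ, Finset.prod_insert
        (fun hh => hq (Finset.mem_inter.mp hh).1)]
      linarith
    · have e2 := ih p h0' h1' (fun D => a (insert q D)) b C Q c2 (fun D D' hD hD' hd hQ hQ' =>
        h' (insert q D) D' (Finset.insert_subset_insert q hD)
          (hD'.trans (Finset.subset_insert _ _))
          (Finset.disjoint_insert_left.mpr ⟨fun hh => hq (hD' hh), hd⟩)
          (Finset.disjoint_insert_left.mpr ⟨hqQ, hQ⟩) hQ')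
      have e3 := ih p h0' h1' a (fun D => b (insert q D)) C Q c3 (fun D D' hD hD' hd hQ hQ' =>
        h' D (insert q D') (hD.trans (Finset.subset_insert _ _))
          (Finset.insert_subset_insert q hD')
          (Finset.disjoint_insert_right.mpr ⟨fun hh => hq (hD hh), hd⟩) hQ
          (Finset.disjoint_insert_left.mpr ⟨hqQ, hQ'⟩))
      have k2 := mul_le_mul_of_nonneg_left e2 t0
      have k3 := mul_le_mul_of_nonneg_left e3 t0
      rw [Finset.insert_inter_of_notMem hqQ]
      linarith

end

end R130.CF
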