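import Pool.Agent.R130.CF.Defs

/-!
# CF-COUP: coupling of two disjoint types (MP_f07b9f_nt)
-/

set_option autoImplicit false

open Filter Topology

namespace R130.CF

section Coup

variable {P : Type} [DecidableEq P]

omit [DecidableEq P] in
theorem coup_nrm_single (ν : P → ℕ) (p : P) : nrm ν (Finsupp.single p 1) = ν p := by
  unfold nrm
  rw [Finsupp.prod_single_index (by simp), pow_one]

theorem coup_small_finite {ν : P → ℕ} {ρ : ℝ} (hs : Sys ν ρ) (y : ℕ) : {p | ν p ≤ y}.Finite := by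
  have h := hs.fin (y : ℝ)
  refine Set.Finite.of_finite_image (f := fun p => Finsupp.single p 1) (h.subset ?_) ?_
  · rintro _ ⟨p, hp, rfl⟩
    show (nrm ν (Finsupp.single p 1) : ℝ) ≤ y
    rw [coup_nrm_single]
    exact_mod_cast hp
  · intro p _ q _ h
    exact Finsupp.single_left_injective one_ne_zero h

theorem coup_wt_T {ν : P → ℕ} {T S : Finset P} (hT : ∀ p, p ∈ T ↔ ν p = 2) (hS : S ⊆ T) :
    wt (fun p => 1 / (ν p : ℝ)) T S = 1 / 2 ^ T.card := by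
  unfold wt
  have h1 : ∏ q ∈ S, (1 / (ν q : ℝ)) = ∏ _q ∈ S, (1 / 2 : ℝ) :=
    Finset.prod_congr rfl fun q hq => by rw [(hT q).1 (hS hq)]; norm_num
  have h2 : ∏ q ∈ T \ S, (1 - 1 / (ν q : ℝ)) = ∏ _q ∈ T \ S, (1 / 2 : ℝ) :=
    Finset.prod_congr rfl fun q hq => by
      rw [(hT q).1 (Finset.mem_sdiff.1 hq).1]; norm_num
  rw [h1, h2, Finset.prod_const, Finset.prod_const, ← pow_add, add_comm,
    Finset.card_sdiff_add_card_eq_card hS, one_div_pow]

theorem coup_wt_union (p : P → ℝ) {T W S D : Finset P} (hTW : Disjoint T W) (hS : S ⊆ T)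
    (hD : D ⊆ W) : wt p (T ∪ W) (S ∪ D) = wt p T S * wt p W D := by
  unfold wt
  have h1 : Disjoint S D := Finset.disjoint_of_subset_left hS (Finset.disjoint_of_subset_right hD hTW)
  have h2 : (T ∪ W) \ (S ∪ D) = (T \ S) ∪ (W \ D) := by
    ext q
    simp only [Finset.mem_sdiff, Finset.mem_union, not_or]
    constructor
    · rintro ⟨h | h, h3, h4⟩
      · exact Or.inl ⟨h, h3⟩
      · exact Or.inr ⟨h, h4⟩
    · rintro (⟨h, h3⟩ | ⟨h, h3⟩)
      · exact ⟨Or.inl h, h3, fun h4 => Finset.disjoint_left.1 hTW h (hD h4)⟩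
      · exact ⟨Or.inr h, fun h4 => Finset.disjoint_left.1 hTW (hS h4) h, h3⟩
  have h3 : Disjoint (T \ S) (W \ D) := Finset.disjoint_of_subset_left Finset.sdiff_subset
    (Finset.disjoint_of_subset_right Finset.sdiff_subset hTW)
  rw [h2, Finset.prod_union h1, Finset.prod_union h3]
  ring

theorem coup_type {T W S D : Finset P} (hTW : Disjoint T W) (hS : S ⊆ T) (hD : D ⊆ W)
    (X : Finset P) : X ∩ (T ∪ W) = S ∪ D ↔ X ∩ T = S ∧ X ∩ W = D := by
  constructor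
  · intro h
    constructor
    · ext q
      have hq := Finset.ext_iff.1 h q
      simp only [Finset.mem_inter, Finset.mem_union] at hq ⊢
      constructor
      · rintro ⟨h1, h2⟩
        rcases hq.1 ⟨h1, Or.inl h2⟩ with h3 | h3
        · exact h3
        · exact absurd (hD h3) (Finset.disjoint_left.1 hTW h2)
      · intro h1
        exact ⟨(hq.2 (Or.inl h1)).1, hS h1⟩
    · ext q
      have hq := Finset.ext_iff.1 h q
      simp only [Finset.mem_inter, Finset.mem_union] at hq ⊢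
      constructor
      · rintro ⟨h1, h2⟩
        rcases hq.1 ⟨h1, Or.inr h2⟩ with h3 | h3
        · exact absurd h2 (Finset.disjoint_left.1 hTW (hS h3))
        · exact h3
      · intro h1
        exact ⟨(hq.2 (Or.inr h1)).1, hD h1⟩
  · rintro ⟨rfl, rfl⟩
    rw [Finset.inter_union_distrib_left]

/-- the members of `A` of type `S ∪ D` -/
def coupA (A : Set (P →₀ ℕ)) (T W S D : Finset P) : Set (P →₀ ℕ) :=
  {θ ∈ A | θ.support ∩ (T ∪ W) = S ∪ D}

theorem coup_cls {T W : Finset P} (hTW : Disjoint T W) {A : Set (P →₀ ℕ)} (hA : A.Finite)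
    {S : Finset P} (hS : S ⊆ T) :
    (({θ ∈ A | θ.support ∩ T = S}).ncard : ℝ) =
      ∑ D ∈ W.powerset, ((coupA A T W S D).ncard : ℝ) := by
  have h1 : {θ ∈ A | θ.support ∩ T = S} =
      ((hA.toFinset.filter fun θ => θ.support ∩ T = S : Finset (P →₀ ℕ)) : Set (P →₀ ℕ)) := by
    ext θ; simp
  have h2 : ∀ D ∈ W.powerset, (coupA A T W S D) =
      (((hA.toFinset.filter fun θ => θ.support ∩ T = S).filter
        fun θ => θ.support ∩ W = D : Finset (P →₀ ℕ)) : Set (P →₀ ℕ)) := by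
    intro D hD
    ext θ
    have := coup_type hTW hS (Finset.mem_powerset.1 hD) θ.support
    simp only [coupA, Set.mem_ofPred_eq, this, Finset.coe_filter, Finset.mem_filter,
      Set.Finite.mem_toFinset, and_assoc]
  rw [h1, Set.ncard_coe_finset, Finset.card_eq_sum_card_fiberwise
    (f := fun θ : P →₀ ℕ => θ.support ∩ W) (t := W.powerset)
    (fun θ _ => Finset.mem_coe.2 (Finset.mem_powerset.2 Finset.inter_subset_right))]
  push_cast
  refine Finset.sum_congr rfl fun D hD => ?_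
  rw [h2 D hD, Set.ncard_coe_finset]

theorem coupA_sub {ν : P → ℕ} {N : ℝ} {A : Set (P →₀ ℕ)} (hA : A ⊆ Th ν N) (T W S D : Finset P) :
    coupA A T W S D ⊆ Fc ν (T ∪ W) (S ∪ D) N := fun _ hθ => ⟨hA hθ.1, hθ.2⟩

theorem coup_bound {ν : P → ℕ} {ρ : ℝ} (hs : Sys ν ρ) {T W : Finset P} (hTW : Disjoint T W)
    {N η β : ℝ} (hN : 0 ≤ N) (hη : 0 ≤ η) {A : Set (P →₀ ℕ)} (hA : A ⊆ Th ν N)
    {S : Finset P} (hS : S ⊆ T)
    (hfc : ∀ D ∈ W.powerset, fc ν (T ∪ W) (S ∪ D) N ≤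
      (β * wt (fun p => 1 / (ν p : ℝ)) W D + η) * N) :
    (({θ ∈ A | θ.support ∩ T = S}).ncard : ℝ) ≤
      β * N * (∑ D ∈ W.powerset, wt (fun p => 1 / (ν p : ℝ)) W D *
        (((coupA A T W S D).ncard : ℝ) / fc ν (T ∪ W) (S ∪ D) N)) + 2 ^ W.card * η * N := by
  rw [coup_cls hTW ((hs.fin N).subset hA) hS (W := W), Finset.mul_sum]
  have h1 : (2 : ℝ) ^ W.card * η * N = ∑ _D ∈ W.powerset, η * N := by
    rw [Finset.sum_const, Finset.card_powerset, nsmul_eq_mul]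
    push_cast
    ring
  rw [h1, ← Finset.sum_add_distrib]
  refine Finset.sum_le_sum fun D hD => ?_
  have hfin : (Fc ν (T ∪ W) (S ∪ D) N).Finite := (hs.fin N).subset fun θ hθ => hθ.1
  have hle : ((coupA A T W S D).ncard : ℝ) ≤ fc ν (T ∪ W) (S ∪ D) N := by
    unfold fc
    exact_mod_cast Set.ncard_le_ncard (coupA_sub hA T W S D) hfin
  have hfcD := hfc D hD
  have h0 : (0 : ℝ) ≤ ((coupA A T W S D).ncard : ℝ) := Nat.cast_nonneg _
  rcases eq_or_lt_of_le (h0.trans hle) with h2 | h2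
  · rw [← h2, div_zero, mul_zero, mul_zero, zero_add]
    have : 0 ≤ η * N := mul_nonneg hη hN
    rw [← h2] at hle
    linarith
  · have h3 : ((coupA A T W S D).ncard : ℝ) =
        ((coupA A T W S D).ncard : ℝ) / fc ν (T ∪ W) (S ∪ D) N * fc ν (T ∪ W) (S ∪ D) N := by
      rw [div_mul_cancel₀ _ h2.ne']
    have h4 : ((coupA A T W S D).ncard : ℝ) / fc ν (T ∪ W) (S ∪ D) N ≤ 1 :=
      (div_le_one h2).2 hle
    have h5 : 0 ≤ ((coupA A T W S D).ncard : ℝ) / fc ν (T ∪ W) (S ∪ D) N := div_nonneg h0 h2.le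
    generalize ((coupA A T W S D).ncard : ℝ) / fc ν (T ∪ W) (S ∪ D) N = a at h3 h4 h5 ⊢
    rw [h3]
    have h6 : a * fc ν (T ∪ W) (S ∪ D) N ≤
        a * ((β * wt (fun p => 1 / (ν p : ℝ)) W D + η) * N) :=
      mul_le_mul_of_nonneg_left hfcD h5
    have h7 : a * (η * N) ≤ 1 * (η * N) :=
      mul_le_mul_of_nonneg_right h4 (mul_nonneg hη hN)
    nlinarith

/-- the set `W` -/
theorem coup_W {ν : P → ℕ} {ρ : ℝ} (hs : Sys ν ρ) {T : Finset P} (hT : ∀ p, p ∈ T ↔ ν p = 2)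
    (y : ℕ) : ∃ W : Finset P, Disjoint T W ∧ (∀ p, ν p ≤ y → p ∈ T ∪ W) ∧
      (∀ q ∈ W, 3 ≤ ν q) ∧ (∀ q ∈ W, (0 : ℝ) ≤ 1 / (ν q : ℝ)) ∧
      ∀ q ∈ W, 1 / (ν q : ℝ) ≤ 1 / 2 := by
  have h3 : ∀ q ∈ (coup_small_finite hs y).toFinset \ T, 3 ≤ ν q := by
    intro q hq
    have h1 := hs.two_le q
    have h2 : ν q ≠ 2 := fun h => (Finset.mem_sdiff.1 hq).2 ((hT q).2 h)
    omega
  refine ⟨(coup_small_finite hs y).toFinset \ T, Finset.disjoint_sdiff, ?_, h3, ?_, ?_⟩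
  · intro p hp
    rw [Finset.mem_union, Finset.mem_sdiff, Set.Finite.mem_toFinset]
    by_cases h : p ∈ T
    · exact Or.inl h
    · exact Or.inr ⟨hp, h⟩
  · intro q _
    positivity
  · intro q hq
    have h4 : (2 : ℝ) ≤ ν q := by exact_mod_cast hs.two_le q
    exact one_div_le_one_div_of_le two_pos h4

theorem coup_ev1 (hd : StmDens) {ν : P → ℕ} {ρ : ℝ} (hs : Sys ν ρ) {T W : Finset P}
    (hT : ∀ p, p ∈ T ↔ ν p = 2) (hTW : Disjoint T W) {η : ℝ} (hη : 0 < η) :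
    ∀ᶠ N : ℝ in atTop, ∀ S ∈ T.powerset, ∀ D ∈ W.powerset, fc ν (T ∪ W) (S ∪ D) N ≤
      (ρ / 2 ^ T.card * wt (fun p => 1 / (ν p : ℝ)) W D + η) * N := by
  rw [Filter.eventually_all_finset]
  intro S hS
  rw [Filter.eventually_all_finset]
  intro D hD
  have hS' := Finset.mem_powerset.1 hS
  have hD' := Finset.mem_powerset.1 hD
  have h1 := hd P ν ρ hs (T ∪ W) (S ∪ D) (Finset.union_subset_union hS' hD')
  rw [coup_wt_union _ hTW hS' hD', coup_wt_T hT hS'] at h1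
  have h2 : ρ * (1 / 2 ^ T.card * wt (fun p => 1 / (ν p : ℝ)) W D) <
      ρ / 2 ^ T.card * wt (fun p => 1 / (ν p : ℝ)) W D + η := by
    have : ρ * (1 / 2 ^ T.card * wt (fun p => 1 / (ν p : ℝ)) W D) =
      ρ / 2 ^ T.card * wt (fun p => 1 / (ν p : ℝ)) W D := by ring
    rw [this]; linarith
  filter_upwards [h1.eventually_lt_const h2, eventually_gt_atTop (0 : ℝ)] with N hN hN0
  exact ((div_lt_iff₀ hN0).1 hN).le

theorem coup_ev2 (hp : StmPair) {ν : P → ℕ} {ρ : ℝ} (hs : Sys ν ρ) {δ : ℝ} (hδ : 0 < δ) :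
    ∃ y : ℕ, ∀ V : Finset P, (∀ p, ν p ≤ y → p ∈ V) → ∀ᶠ N : ℝ in atTop, ∀ E ∈ V.powerset,
      ∀ E' ∈ V.powerset, Disjoint E E' → ∀ A A' : Set (P →₀ ℕ), A ⊆ Fc ν V E N →
        A' ⊆ Fc ν V E' N → (∀ θ ∈ A, ∀ θ' ∈ A', ¬ Disjoint θ.support θ'.support) →
        (A.ncard : ℝ) / fc ν V E N + (A'.ncard : ℝ) / fc ν V E' N ≤ 1 + δ := by
  obtain ⟨y, hy⟩ := hp P ν ρ hs δ hδ
  refine ⟨y, fun V hV => ?_⟩
  rw [Filter.eventually_all_finset]
  intro E hE
  rw [Filter.eventually_all_finset]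
  intro E' hE'
  by_cases h : Disjoint E E'
  · obtain ⟨N₁, hN₁⟩ := hy V hV E E' (Finset.mem_powerset.1 hE) (Finset.mem_powerset.1 hE') h
    exact eventually_atTop.2 ⟨N₁, fun N hN _ A A' hA hA' hI => hN₁ N hN A A' hA hA' hI⟩
  · exact Eventually.of_forall fun N h' => absurd h' h

theorem coup_ev3 (hp : StmPairGap) {ν : P → ℕ} {ρ : ℝ} (hs : Sys ν ρ) {δ : ℝ} (hδ : 0 < δ)
    (H : ℝ) : ∃ y : ℕ, ∀ V : Finset P, (∀ p, ν p ≤ y → p ∈ V) → ∀ᶠ N : ℝ in atTop,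
      ∀ E ∈ V.powerset, ∀ (A : Set (P →₀ ℕ)) (Q : Finset P), A ⊆ Fc ν V E N → hw ν Q ≤ H →
        Disjoint E Q → (∀ θ ∈ A, ¬ Disjoint θ.support Q) →
        (A.ncard : ℝ) / fc ν V E N ≤ δ := by
  obtain ⟨y, hy⟩ := hp P ν ρ hs δ hδ H
  refine ⟨y, fun V hV => ?_⟩
  rw [Filter.eventually_all_finset]
  intro E hE
  obtain ⟨N₁, hN₁⟩ := hy V hV E (Finset.mem_powerset.1 hE)
  exact eventually_atTop.2 ⟨N₁, fun N hN A Q => hN₁ N hN A Q⟩

theorem coup_disj {T W S D S' D' : Finset P} (hTW : Disjoint T W) (hS : S ⊆ T) (hS' : S' ⊆ T)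
    (hSS' : Disjoint S S') (hD : D ⊆ W) (hD' : D' ⊆ W) (hDD' : Disjoint D D') :
    Disjoint (S ∪ D) (S' ∪ D') := by
  rw [Finset.disjoint_union_left, Finset.disjoint_union_right, Finset.disjoint_union_right]
  exact ⟨⟨hSS', Finset.disjoint_of_subset_left hS (Finset.disjoint_of_subset_right hD' hTW)⟩,
    (Finset.disjoint_of_subset_left hS' (Finset.disjoint_of_subset_right hD hTW)).symm, hDD'⟩

end Coup

theorem coup (hd : StmDens) (hcb : StmComb) (hp : StmPair) : StmCoup := by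
  intro P _ ν ρ hs T hT ε hε
  have hβ : 0 < ρ / 2 ^ T.card := div_pos hs.pos (by positivity)
  obtain ⟨y, hy⟩ := coup_ev2 hp hs (δ := ε / (2 * (ρ / 2 ^ T.card))) (by positivity)
  obtain ⟨W, hTW, hV, h3, hp0, hp1⟩ := coup_W hs hT y
  have hη : 0 < ε / (4 * 2 ^ W.card) := by positivity
  obtain ⟨N₂, hN₂⟩ := eventually_atTop.1 ((coup_ev1 hd hs hT hTW hη).and
    ((hy (T ∪ W) hV).and (eventually_ge_atTop (0 : ℝ))))
  refine ⟨N₂, fun N hN A hA hAI S S' hS hS' hSS' => ?_⟩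
  obtain ⟨e1, e2, hN0⟩ := hN₂ N hN
  have b1 := coup_bound hs hTW hN0 hη.le hA hS (e1 S (Finset.mem_powerset.2 hS))
  have b2 := coup_bound hs hTW hN0 hη.le hA hS' (e1 S' (Finset.mem_powerset.2 hS'))
  have hcomb := hcb P W (fun p => 1 / (ν p : ℝ)) hp0 hp1
    (fun D => ((coupA A T W S D).ncard : ℝ) / fc ν (T ∪ W) (S ∪ D) N)
    (fun D => ((coupA A T W S' D).ncard : ℝ) / fc ν (T ∪ W) (S' ∪ D) N)
    (1 + ε / (2 * (ρ / 2 ^ T.card))) (fun D D' hD hD' hDD' =>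
      e2 (S ∪ D) (Finset.mem_powerset.2 (Finset.union_subset_union hS hD))
        (S' ∪ D') (Finset.mem_powerset.2 (Finset.union_subset_union hS' hD'))
        (coup_disj hTW hS hS' hSS' hD hD' hDD') _ _ (coupA_sub hA T W S D)
        (coupA_sub hA T W S' D') (fun θ hθ θ' hθ' => hAI θ hθ.1 θ' hθ'.1))
  have hρ := hs.pos.ne'
  have h5 : ρ / 2 ^ T.card * N * (1 + ε / (2 * (ρ / 2 ^ T.card))) =
      ρ / 2 ^ T.card * N + ε / 2 * N := by
    field_simp
  have h6 : 2 ^ W.card * (ε / (4 * 2 ^ W.card)) * N = ε / 4 * N := by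
    field_simp
  have h7 := mul_le_mul_of_nonneg_left hcomb (mul_nonneg hβ.le hN0)
  rw [h5, mul_add] at h7
  rw [h6] at b1 b2
  calc _ ≤ _ := add_le_add b1 b2
    _ ≤ (ρ / 2 ^ T.card + ε) * N := by linarith

theorem coup_exp {n : ℕ} (hn : 3 ≤ n) :
    Real.exp (-(6 * (1 / Real.sqrt n))) ≤ 1 - 2 * (1 / (n : ℝ)) := by
  have h1 : (3 : ℝ) ≤ n := by exact_mod_cast hn
  have h2 : (0 : ℝ) < n := by linarith
  have ht : 2 * (1 / (n : ℝ)) ≤ 2 / 3 := by
    rw [mul_one_div]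
    exact div_le_div_of_nonneg_left (by norm_num) (by norm_num) h1
  have ht0 : 0 < 2 * (1 / (n : ℝ)) := by positivity
  have h3 : Real.sqrt n ≤ n := by
    rw [Real.sqrt_le_left h2.le]
    nlinarith
  have h4 : 1 / (n : ℝ) ≤ 1 / Real.sqrt n :=
    one_div_le_one_div_of_le (Real.sqrt_pos.2 h2) h3
  have h5 : Real.exp (-(6 * (1 / Real.sqrt n))) ≤ Real.exp (-(3 * (2 * (1 / (n : ℝ))))) := by
    apply Real.exp_le_exp.2
    linarith
  refine h5.trans ?_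
  set t := 2 * (1 / (n : ℝ)) with htdef
  have h6 : 1 / (1 - t) ≤ Real.exp (3 * t) := by
    refine le_trans ?_ (Real.add_one_le_exp (3 * t))
    rw [div_le_iff₀ (by linarith)]
    nlinarith
  rw [Real.exp_neg, inv_le_comm₀ (Real.exp_pos _) (by linarith), ← one_div]
  exact h6

theorem coup_prod {P : Type} [DecidableEq P] {ν : P → ℕ} {W Q : Finset P} {H : ℝ}
    (h3 : ∀ q ∈ W, 3 ≤ ν q) (hQ : hw ν Q ≤ H) :
    Real.exp (-(6 * H)) ≤ ∏ q ∈ W ∩ Q, (1 - 2 * (1 / (ν q : ℝ))) := by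
  have h1 : ∏ q ∈ W ∩ Q, Real.exp (-(6 * (1 / Real.sqrt (ν q)))) ≤
      ∏ q ∈ W ∩ Q, (1 - 2 * (1 / (ν q : ℝ))) :=
    Finset.prod_le_prod (fun q _ => (Real.exp_pos _).le)
      fun q hq => coup_exp (h3 q (Finset.mem_inter.1 hq).1)
  refine le_trans ?_ h1
  rw [← Real.exp_sum]
  apply Real.exp_le_exp.2
  rw [Finset.sum_neg_distrib, ← Finset.mul_sum]
  have h2 : ∑ q ∈ W ∩ Q, 1 / Real.sqrt (ν q) ≤ ∑ q ∈ Q, 1 / Real.sqrt (ν q) :=
    Finset.sum_le_sum_of_subset_of_nonneg Finset.inter_subset_right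
      fun q _ _ => by positivity
  unfold hw at hQ
  linarith

theorem coupGap (hd : StmDens) (hcg : StmCombGap) (hp : StmPair) (hpg : StmPairGap) :
    StmCoupGap := by
  intro P _ ν ρ hs T hT ε hε H
  have hβ : 0 < ρ / 2 ^ T.card := div_pos hs.pos (by positivity)
  set δ := ε / (4 * (ρ / 2 ^ T.card)) with hδdef
  have hδ : 0 < δ := by positivity
  obtain ⟨y1, hy1⟩ := coup_ev2 hp hs hδ
  obtain ⟨y2, hy2⟩ := coup_ev3 hpg hs hδ H
  obtain ⟨W, hTW, hV, h3, hp0, hp1⟩ := coup_W hs hT (max y1 y2)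
  have hη : 0 < ε / (4 * 2 ^ W.card) := by positivity
  obtain ⟨N₂, hN₂⟩ := eventually_atTop.1 ((coup_ev1 hd hs hT hTW hη).and
    ((hy1 (T ∪ W) (fun p hp => hV p (hp.trans (le_max_left _ _)))).and
      ((hy2 (T ∪ W) (fun p hp => hV p (hp.trans (le_max_right _ _)))).and
        (eventually_ge_atTop (0 : ℝ)))))
  refine ⟨N₂, fun N hN A hA hAI S S' hS hS' hSS' Q hQT hQH hAQ => ?_⟩
  obtain ⟨e1, e2, e3, hN0⟩ := hN₂ N hN
  have b1 := coup_bound hs hTW hN0 hη.le hA hS (e1 S (Finset.mem_powerset.2 hS))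
  have b2 := coup_bound hs hTW hN0 hη.le hA hS' (e1 S' (Finset.mem_powerset.2 hS'))
  have hcomb := hcg P W (fun p => 1 / (ν p : ℝ)) hp0 hp1
    (fun D => ((coupA A T W S D).ncard : ℝ) / fc ν (T ∪ W) (S ∪ D) N)
    (fun D => ((coupA A T W S' D).ncard : ℝ) / fc ν (T ∪ W) (S' ∪ D) N)
    (1 + 2 * δ) Q (fun D D' hD hD' hDD' =>
      (e2 (S ∪ D) (Finset.mem_powerset.2 (Finset.union_subset_union hS hD))
        (S' ∪ D') (Finset.mem_powerset.2 (Finset.union_subset_union hS' hD'))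
        (coup_disj hTW hS hS' hSS' hD hD' hDD') _ _ (coupA_sub hA T W S D)
        (coupA_sub hA T W S' D') (fun θ hθ θ' hθ' => hAI θ hθ.1 θ' hθ'.1)).trans
          (by linarith)) (fun D D' hD hD' _ hDQ hD'Q => by
      have g1 := e3 (S ∪ D) (Finset.mem_powerset.2 (Finset.union_subset_union hS hD))
        (coupA A T W S D) Q (coupA_sub hA T W S D) hQH (by
          rw [Finset.disjoint_union_left]
          exact ⟨(Finset.disjoint_of_subset_right hS hQT).symm, hDQ⟩)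
        (fun θ hθ => hAQ θ hθ.1 (Or.inl ((coup_type hTW hS hD θ.support).1 hθ.2).1))
      have g2 := e3 (S' ∪ D') (Finset.mem_powerset.2 (Finset.union_subset_union hS' hD'))
        (coupA A T W S' D') Q (coupA_sub hA T W S' D') hQH (by
          rw [Finset.disjoint_union_left]
          exact ⟨(Finset.disjoint_of_subset_right hS' hQT).symm, hD'Q⟩)
        (fun θ hθ => hAQ θ hθ.1 (Or.inr ((coup_type hTW hS' hD' θ.support).1 hθ.2).1))
      show ((coupA A T W S D).ncard : ℝ) / fc ν (T ∪ W) (S ∪ D) N +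
        ((coupA A T W S' D').ncard : ℝ) / fc ν (T ∪ W) (S' ∪ D') N ≤ 1 + 2 * δ - 1
      linarith)
  have hprod := coup_prod (W := W) h3 hQH
  have hcomb' := hcomb.trans (sub_le_sub_left hprod (1 + 2 * δ))
  have h5 : ρ / 2 ^ T.card * N * (1 + 2 * δ - Real.exp (-(6 * H))) =
      ρ / 2 ^ T.card * (1 - Real.exp (-(6 * H))) * N + ε / 2 * N := by
    rw [hδdef]
    have hρ := hs.pos.ne'
    field_simp
    ring
  have h6 : 2 ^ W.card * (ε / (4 * 2 ^ W.card)) * N = ε / 4 * N := by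
    field_simp
  have h7 := mul_le_mul_of_nonneg_left hcomb' (mul_nonneg hβ.le hN0)
  rw [h5, mul_add] at h7
  rw [h6] at b1 b2
  calc _ ≤ _ := add_le_add b1 b2
    _ ≤ (ρ / 2 ^ T.card * (1 - Real.exp (-(6 * H))) + ε) * N := by linarith

end R130.CF
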