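import Pool.Agent.R130.CF.Defs

/-!
# MP_f07b9f, piece CF-DENS (helper165)
-/

open Filter Topology

namespace R130.CF

namespace Dens

variable {P : Type} [DecidableEq P]

lemma nrm_add (ν : P → ℕ) (a b : P →₀ ℕ) : nrm ν (a + b) = nrm ν a * nrm ν b := by
  unfold nrm
  exact Finsupp.prod_add_index' (fun _ => pow_zero _) (fun _ _ _ => pow_add _ _ _)

lemma nrm_single (ν : P → ℕ) (q : P) : nrm ν (Finsupp.single q 1) = ν q := by
  unfold nrm
  rw [Finsupp.prod_single_index (h := fun p a => ν p ^ a) (pow_zero _), pow_one]

lemma le_div_iff_nrm {ν : P → ℕ} (hν : ∀ p, 2 ≤ ν p) (θ : P →₀ ℕ) (q : P) (x : ℝ) :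
    θ ∈ Th ν (x / ν q) ↔ θ + Finsupp.single q 1 ∈ Th ν x := by
  have hq : (0 : ℝ) < ν q := by
    have := hν q
    exact_mod_cast (by omega : 0 < ν q)
  show (nrm ν θ : ℝ) ≤ x / ν q ↔ (nrm ν (θ + Finsupp.single q 1) : ℝ) ≤ x
  rw [nrm_add, nrm_single, le_div_iff₀ hq]
  push_cast
  rfl

lemma supp_iff {V E : Finset P} {q : P} (hE : E ⊆ V) (hq : q ∉ V) (θ : P →₀ ℕ) :
    (θ + Finsupp.single q 1).support ∩ insert q V = insert q E ↔ θ.support ∩ V = E := by
  have h0 : ∀ p, p ≠ q → (θ + Finsupp.single q 1 : P →₀ ℕ) p = θ p := by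
    intro p hp
    rw [Finsupp.add_apply, Finsupp.single_apply, if_neg (Ne.symm hp), add_zero]
  have h1 : (θ + Finsupp.single q 1 : P →₀ ℕ) q ≠ 0 := by
    rw [Finsupp.add_apply, Finsupp.single_apply, if_pos rfl]
    omega
  constructor
  · intro h
    ext p
    have hp := Finset.ext_iff.1 h p
    simp only [Finset.mem_inter, Finset.mem_insert, Finsupp.mem_support_iff] at hp ⊢
    constructor
    · rintro ⟨a, b⟩
      have hpq : p ≠ q := fun e => hq (e ▸ b)
      rcases hp.1 ⟨by rw [h0 p hpq]; exact a, Or.inr b⟩ with c | c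
      · exact absurd c hpq
      · exact c
    · intro a
      have b : p ∈ V := hE a
      have hpq : p ≠ q := fun e => hq (e ▸ b)
      have c := (hp.2 (Or.inr a)).1
      rw [h0 p hpq] at c
      exact ⟨c, b⟩
  · intro h
    ext p
    have hp := Finset.ext_iff.1 h p
    simp only [Finset.mem_inter, Finset.mem_insert, Finsupp.mem_support_iff] at hp ⊢
    by_cases hpq : p = q
    · subst hpq
      simp only [true_or, and_true, iff_true]
      exact h1
    · rw [h0 p hpq]
      constructor
      · rintro ⟨a, b | b⟩
        · exact absurd b hpq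
        · exact Or.inr (hp.1 ⟨a, b⟩)
      · rintro (a | a)
        · exact absurd a hpq
        · exact ⟨(hp.2 a).1, Or.inr (hp.2 a).2⟩

end Dens

open Dens

theorem shift : StmShift := by
  intro P _ ν ρ hS V E q x hE hq
  unfold fc
  have hinj : Function.Injective (fun θ : P →₀ ℕ => θ + Finsupp.single q 1) :=
    add_left_injective _
  have himg : (fun θ : P →₀ ℕ => θ + Finsupp.single q 1) '' Fc ν V E (x / ν q)
      = Fc ν (insert q V) (insert q E) x := by
    ext θ'
    constructor
    · rintro ⟨θ, ⟨h1, h2⟩, rfl⟩
      exact ⟨(le_div_iff_nrm hS.two_le θ q x).1 h1, (supp_iff hE hq θ).2 h2⟩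
    · rintro ⟨h1, h2⟩
      have hqs : q ∈ θ'.support := by
        have : q ∈ θ'.support ∩ insert q V := by
          rw [h2]
          exact Finset.mem_insert_self q E
        exact (Finset.mem_inter.1 this).1
      have hle : Finsupp.single q 1 ≤ θ' := by
        rw [Finsupp.single_le_iff]
        have := Finsupp.mem_support_iff.1 hqs
        omega
      have he : (θ' - Finsupp.single q 1) + Finsupp.single q 1 = θ' := tsub_add_cancel_of_le hle
      refine ⟨θ' - Finsupp.single q 1, ⟨?_, ?_⟩, he⟩
      · rw [le_div_iff_nrm hS.two_le, he]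
        exact h1
      · rw [← supp_iff hE hq, he]
        exact h2
  rw [← himg, Set.ncard_image_of_injective _ hinj]

theorem dens : StmDens := by
  intro P _ ν ρ hS V
  have hν : ∀ p, (0 : ℝ) < ν p := fun p => by
    have := hS.two_le p
    exact_mod_cast (by omega : 0 < ν p)
  -- scaled limits
  have scal : ∀ (V E : Finset P) (q : P) (L : ℝ),
      Tendsto (fun x : ℝ => fc ν V E x / x) atTop (𝓝 L) →
      Tendsto (fun x : ℝ => fc ν V E (x / ν q) / x) atTop (𝓝 (L * (1 / (ν q : ℝ)))) := by
    intro V E q L h
    have h1 : Tendsto (fun x : ℝ => x / (ν q : ℝ)) atTop atTop :=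
      tendsto_id.atTop_div_const (hν q)
    have h2 := (h.comp h1).mul_const (1 / (ν q : ℝ))
    refine h2.congr fun x => ?_
    have h3 : (ν q : ℝ) * (1 / (ν q : ℝ)) = 1 := mul_one_div_cancel (hν q).ne'
    show fc ν V E (x / ν q) / (x / ν q) * (1 / (ν q : ℝ)) = _
    rw [div_div_eq_mul_div]
    calc fc ν V E (x / ν q) * (ν q : ℝ) / x * (1 / (ν q : ℝ))
        = fc ν V E (x / ν q) / x * ((ν q : ℝ) * (1 / (ν q : ℝ))) := by ring
      _ = fc ν V E (x / ν q) / x := by rw [h3, mul_one]
  induction V using Finset.induction_on with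
  | empty =>
    intro E hE
    have hE0 : E = ∅ := Finset.subset_empty.1 hE
    subst hE0
    have h1 : ∀ x : ℝ, fc ν ∅ ∅ x = cnt ν x := by
      intro x
      unfold fc cnt Fc
      simp
    simp only [h1, wt, Finset.prod_empty, Finset.sdiff_empty, mul_one]
    exact hS.lim
  | insert q V hq ih =>
    intro E hE
    by_cases hqE : q ∈ E
    · -- `E = insert q E'`
      have hE' : E.erase q ⊆ V := by
        intro p hp
        rw [Finset.mem_erase] at hp
        rcases Finset.mem_insert.1 (hE hp.2) with h | h
        · exact absurd h hp.1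
        · exact h
      have he : insert q (E.erase q) = E := Finset.insert_erase hqE
      have hw : wt (fun p => 1 / (ν p : ℝ)) (insert q V) E
          = wt (fun p => 1 / (ν p : ℝ)) V (E.erase q) * (1 / (ν q : ℝ)) := by
        unfold wt
        have e1 : insert q V \ E = V \ E.erase q := by
          ext p
          simp only [Finset.mem_sdiff, Finset.mem_insert, Finset.mem_erase]
          constructor
          · rintro ⟨a | a, b⟩
            · exact absurd (a ▸ hqE) b
            · exact ⟨a, fun c => b c.2⟩
          · rintro ⟨a, b⟩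
            have hpq : p ≠ q := fun e => hq (e ▸ a)
            exact ⟨Or.inr a, fun c => b ⟨hpq, c⟩⟩
        rw [e1, ← Finset.mul_prod_erase E _ hqE]
        ring
      have h1 : ∀ x : ℝ, fc ν (insert q V) E x = fc ν V (E.erase q) (x / ν q) := by
        intro x
        have := shift P ν ρ hS V (E.erase q) q x hE' hq
        rw [he] at this
        exact this
      simp only [h1, hw]
      have h2 := scal V (E.erase q) q _ (ih (E.erase q) hE')
      rw [mul_assoc] at h2
      exact h2
    · have hE' : E ⊆ V := by
        intro p hp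
        rcases Finset.mem_insert.1 (hE hp) with h | h
        · exact absurd (h ▸ hp) hqE
        · exact h
      have hw : wt (fun p => 1 / (ν p : ℝ)) (insert q V) E
          = wt (fun p => 1 / (ν p : ℝ)) V E * (1 - 1 / (ν q : ℝ)) := by
        unfold wt
        have e1 : insert q V \ E = insert q (V \ E) := Finset.insert_sdiff_of_notMem V hqE
        have e2 : q ∉ V \ E := fun h => hq (Finset.mem_sdiff.1 h).1
        rw [e1, Finset.prod_insert e2]
        ring
      have h1 : ∀ x : ℝ, fc ν (insert q V) E x = fc ν V E x - fc ν V E (x / ν q) := by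
        intro x
        rw [← shift P ν ρ hS V E q x hE' hq]
        have hu : Fc ν V E x = Fc ν (insert q V) E x ∪ Fc ν (insert q V) (insert q E) x := by
          ext θ
          constructor
          · rintro ⟨a, b⟩
            by_cases hqs : q ∈ θ.support
            · right
              refine ⟨a, ?_⟩
              rw [Finset.inter_insert_of_mem hqs, b]
            · left
              refine ⟨a, ?_⟩
              rw [Finset.inter_insert_of_notMem hqs, b]
          · rintro (⟨a, b⟩ | ⟨a, b⟩)
            · refine ⟨a, ?_⟩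
              by_cases hqs : q ∈ θ.support
              · rw [Finset.inter_insert_of_mem hqs] at b
                exact absurd (b ▸ Finset.mem_insert_self q _) hqE
              · rw [Finset.inter_insert_of_notMem hqs] at b
                exact b
            · refine ⟨a, ?_⟩
              have hqs : q ∈ θ.support := by
                have : q ∈ θ.support ∩ insert q V := by
                  rw [b]
                  exact Finset.mem_insert_self q E
                exact (Finset.mem_inter.1 this).1
              rw [Finset.inter_insert_of_mem hqs] at b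
              have e1 : q ∉ θ.support ∩ V := fun h => hq (Finset.mem_inter.1 h).2
              have := congrArg (fun s => Finset.erase s q) b
              simp only [Finset.erase_insert e1, Finset.erase_insert hqE] at this
              exact this
        have hd : Disjoint (Fc ν (insert q V) E x) (Fc ν (insert q V) (insert q E) x) := by
          rw [Set.disjoint_left]
          rintro θ ⟨_, b⟩ ⟨_, d⟩
          rw [b] at d
          exact hqE (d ▸ Finset.mem_insert_self q E)
        have hf1 : (Fc ν (insert q V) E x).Finite := (hS.fin x).subset fun θ h => h.1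
        have hf2 : (Fc ν (insert q V) (insert q E) x).Finite := (hS.fin x).subset fun θ h => h.1
        have h3 : fc ν V E x = fc ν (insert q V) E x + fc ν (insert q V) (insert q E) x := by
          unfold fc
          rw [hu, Set.ncard_union_eq hd hf1 hf2]
          push_cast
          rfl
        linarith
      simp only [h1, hw]
      have h2 := (ih E hE').sub (scal V E q _ (ih E hE'))
      have h4 : ρ * (wt (fun p => 1 / (ν p : ℝ)) V E * (1 - 1 / (ν q : ℝ)))
          = ρ * wt (fun p => 1 / (ν p : ℝ)) V E
            - ρ * wt (fun p => 1 / (ν p : ℝ)) V E * (1 / (ν q : ℝ)) := by ring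
      rw [h4]
      refine h2.congr fun x => ?_
      rw [sub_div]

theorem dvd : StmDvd := by
  intro P _ ν ρ hS E x
  have hν : ∀ p, (0 : ℝ) < ν p := fun p => by
    have := hS.two_le p
    exact_mod_cast (by omega : 0 < ν p)
  let sE : P →₀ ℕ := ∑ p ∈ E, Finsupp.single p 1
  have hs : ∀ p, sE p = if p ∈ E then 1 else 0 := by
    intro p
    simp only [sE, Finsupp.finsetSum_apply, Finsupp.single_apply]
    rw [Finset.sum_ite_eq' E p (fun _ => 1)]
  have hn : nrm ν sE = ∏ p ∈ E, ν p := by
    simp only [sE]
    clear hs sE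
    induction E using Finset.induction_on with
    | empty => simp [nrm]
    | insert q E hq ih =>
      rw [Finset.sum_insert hq, Finset.prod_insert hq, nrm_add, nrm_single, ih]
  have hpos : (0 : ℝ) < ((∏ p ∈ E, ν p : ℕ) : ℝ) := by
    push_cast
    exact Finset.prod_pos fun p _ => hν p
  have hmem : ∀ θ : P →₀ ℕ, θ ∈ Th ν (x / ((∏ p ∈ E, ν p : ℕ) : ℝ)) ↔ θ + sE ∈ Th ν x := by
    intro θ
    show (nrm ν θ : ℝ) ≤ x / ((∏ p ∈ E, ν p : ℕ) : ℝ) ↔ (nrm ν (θ + sE) : ℝ) ≤ x
    rw [nrm_add, hn, le_div_iff₀ hpos, Nat.cast_mul]
  have hinj : Function.Injective (fun θ : P →₀ ℕ => θ + sE) := add_left_injective _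
  have himg : (fun θ : P →₀ ℕ => θ + sE) '' Th ν (x / ((∏ p ∈ E, ν p : ℕ) : ℝ))
      = {θ ∈ Th ν x | E ⊆ θ.support} := by
    ext θ'
    constructor
    · rintro ⟨θ, h1, rfl⟩
      refine ⟨(hmem θ).1 h1, ?_⟩
      intro p hp
      rw [Finsupp.mem_support_iff, Finsupp.add_apply, hs, if_pos hp]
      omega
    · rintro ⟨h1, h2⟩
      have hle : sE ≤ θ' := by
        intro p
        rw [hs]
        split_ifs with h
        · have := Finsupp.mem_support_iff.1 (h2 h)
          omega
        · exact Nat.zero_le _
      have he : (θ' - sE) + sE = θ' := tsub_add_cancel_of_le hle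
      refine ⟨θ' - sE, ?_, he⟩
      rw [hmem, he]
      exact h1
  unfold cnt
  rw [← himg, Set.ncard_image_of_injective _ hinj]

end R130.CF
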