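import Pool.Agent.R130.CF.Defs

/-! CF-MOM: exponential moment bound. -/

open Filter Topology

namespace R130.CF

theorem mom (hc : StmCheb) (hs : StmSumm) (hd : StmDvd) : StmMom := by
  intro P _ ν ρ h T l hl
  classical
  obtain ⟨c₁, c₂, hc1, hc2, hlow, hup⟩ := hc P ν ρ h
  have hsum := hs P ν ρ h
  set Z : ℝ := ∑' p : P, 1 / ((ν p : ℝ) * Real.sqrt (ν p)) with hZ
  refine ⟨c₂ * Real.exp (l * Real.exp l * Z), by positivity, ?_⟩
  intro x H hx
  have hν2 : ∀ p, (2 : ℝ) ≤ ν p := fun p => by exact_mod_cast h.two_le p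
  have hν0 : ∀ p, (0 : ℝ) < ν p := fun p => by linarith [hν2 p]
  have hs1 : ∀ p, 1 ≤ Real.sqrt (ν p : ℝ) := by
    intro p
    rw [Real.one_le_sqrt]
    linarith [hν2 p]
  set g : P → ℝ := fun q => if q ∈ T then 0 else Real.exp (l / Real.sqrt (ν q)) - 1 with hg
  have hg0 : ∀ q, 0 ≤ g q := by
    intro q
    simp only [hg]
    split_ifs
    · exact le_refl _
    · have : 0 ≤ l / Real.sqrt (ν q) := by positivity
      linarith [Real.add_one_le_exp (l / Real.sqrt (ν q))]
  have hgle : ∀ q, g q ≤ l * Real.exp l / Real.sqrt (ν q) := by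
    intro q
    simp only [hg]
    split_ifs
    · positivity
    · set t : ℝ := l / Real.sqrt (ν q) with ht
      have ht0 : 0 ≤ t := by positivity
      have htl : t ≤ l := div_le_self hl (hs1 q)
      have h1 := Real.add_one_le_exp (-t)
      have h2 : Real.exp t * Real.exp (-t) = 1 := by rw [← Real.exp_add]; simp
      have h3 : Real.exp t - 1 ≤ t * Real.exp t := by
        nlinarith [Real.exp_pos t]
      have h4 : Real.exp t ≤ Real.exp l := Real.exp_le_exp.2 htl
      calc Real.exp t - 1 ≤ t * Real.exp t := h3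
        _ ≤ t * Real.exp l := mul_le_mul_of_nonneg_left h4 ht0
        _ = l * Real.exp l / Real.sqrt (ν q) := by rw [ht]; ring
  have hexp : ∀ θ : P →₀ ℕ, Real.exp (l * hw ν (θ.support \ T)) =
      ∑ E ∈ θ.support.powerset, ∏ q ∈ E, g q := by
    intro θ
    rw [← Finset.prod_one_add]
    have e1 : ∏ q ∈ θ.support, (1 + g q) = ∏ q ∈ θ.support \ T, (1 + g q) := by
      symm
      apply Finset.prod_subset Finset.sdiff_subset
      intro q hq hqn
      have hqT : q ∈ T := by
        by_contra hcon
        exact hqn (Finset.mem_sdiff.2 ⟨hq, hcon⟩)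
      simp [hg, hqT]
    rw [e1]
    unfold hw
    rw [Finset.mul_sum, Real.exp_sum]
    apply Finset.prod_congr rfl
    intro q hq
    have hqT : q ∉ T := (Finset.mem_sdiff.1 hq).2
    simp only [hg, hqT, if_false]
    rw [show l * (1 / Real.sqrt (ν q : ℝ)) = l / Real.sqrt (ν q : ℝ) by ring]
    ring
  have hfin := h.fin x
  set A : Finset (P →₀ ℕ) := hfin.toFinset with hA
  set U : Finset P := A.biUnion (fun θ => θ.support) with hU
  have hmain : ∑ θ ∈ A, Real.exp (l * hw ν (θ.support \ T)) ≤
      c₂ * Real.exp (l * Real.exp l * Z) * x := by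
    have e1 : ∑ θ ∈ A, Real.exp (l * hw ν (θ.support \ T)) =
        ∑ E ∈ U.powerset, ∑ θ ∈ A, if E ⊆ θ.support then ∏ q ∈ E, g q else 0 := by
      rw [Finset.sum_comm]
      apply Finset.sum_congr rfl
      intro θ hθ
      rw [hexp θ, ← Finset.sum_filter]
      apply Finset.sum_congr _ (fun _ _ => rfl)
      ext E
      rw [Finset.mem_powerset, Finset.mem_filter, Finset.mem_powerset]
      constructor
      · intro hE
        exact ⟨fun p hp => Finset.mem_biUnion.2 ⟨θ, hθ, hE hp⟩, hE⟩
      · exact fun hE => hE.2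
    have e2 : ∀ E ∈ U.powerset, (∑ θ ∈ A, if E ⊆ θ.support then ∏ q ∈ E, g q else 0) ≤
        c₂ * x * ∏ q ∈ E, (g q / ν q) := by
      intro E _
      rw [← Finset.sum_filter, Finset.sum_const, nsmul_eq_mul]
      have hcard : ((A.filter (fun θ => E ⊆ θ.support)).card : ℝ) =
          cnt ν (x / ((∏ p ∈ E, ν p : ℕ) : ℝ)) := by
        rw [← hd P ν ρ h E x]
        have hfin2 : ({θ ∈ Th ν x | E ⊆ θ.support}).Finite := hfin.subset (fun θ hθ => hθ.1)
        rw [Set.ncard_eq_toFinset_card _ hfin2]
        congr 2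
        ext θ
        rw [Finset.mem_filter, hA, Set.Finite.mem_toFinset, Set.Finite.mem_toFinset]
        rfl
      rw [hcard]
      have hprod0 : (0 : ℝ) < ((∏ p ∈ E, ν p : ℕ) : ℝ) := by
        push_cast
        exact Finset.prod_pos (fun p _ => hν0 p)
      have h3 := hup (x / ((∏ p ∈ E, ν p : ℕ) : ℝ)) (by positivity)
      have hgE : 0 ≤ ∏ q ∈ E, g q := Finset.prod_nonneg (fun q _ => hg0 q)
      calc cnt ν (x / ((∏ p ∈ E, ν p : ℕ) : ℝ)) * ∏ q ∈ E, g q
          ≤ (c₂ * (x / ((∏ p ∈ E, ν p : ℕ) : ℝ))) * ∏ q ∈ E, g q :=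
            mul_le_mul_of_nonneg_right h3 hgE
        _ = c₂ * x * ∏ q ∈ E, (g q / ν q) := by
            rw [Finset.prod_div_distrib]
            push_cast
            ring
    rw [e1]
    calc ∑ E ∈ U.powerset, ∑ θ ∈ A, (if E ⊆ θ.support then ∏ q ∈ E, g q else 0)
        ≤ ∑ E ∈ U.powerset, c₂ * x * ∏ q ∈ E, (g q / ν q) := Finset.sum_le_sum e2
      _ = c₂ * x * ∏ q ∈ U, (1 + g q / ν q) := by
          rw [← Finset.mul_sum, Finset.prod_one_add]
      _ ≤ c₂ * x * Real.exp (∑ q ∈ U, g q / ν q) := by
          apply mul_le_mul_of_nonneg_left _ (by positivity)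
          rw [Real.exp_sum]
          apply Finset.prod_le_prod
          · intro q _
            have := hg0 q
            have := hν0 q
            positivity
          · intro q _
            linarith [Real.add_one_le_exp (g q / ν q)]
      _ ≤ c₂ * x * Real.exp (l * Real.exp l * Z) := by
          apply mul_le_mul_of_nonneg_left _ (by positivity)
          apply Real.exp_le_exp.2
          calc ∑ q ∈ U, g q / ν q
              ≤ ∑ q ∈ U, l * Real.exp l * (1 / ((ν q : ℝ) * Real.sqrt (ν q))) := by
                apply Finset.sum_le_sum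
                intro q _
                have h5 := hgle q
                have h6 := hν0 q
                have h7 := hs1 q
                calc g q / ν q ≤ (l * Real.exp l / Real.sqrt (ν q)) / ν q :=
                      div_le_div_of_nonneg_right h5 h6.le
                  _ = l * Real.exp l * (1 / ((ν q : ℝ) * Real.sqrt (ν q))) := by
                      field_simp
            _ = l * Real.exp l * ∑ q ∈ U, (1 / ((ν q : ℝ) * Real.sqrt (ν q))) := by
                rw [Finset.mul_sum]
            _ ≤ l * Real.exp l * Z := by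
                apply mul_le_mul_of_nonneg_left _ (by positivity)
                exact hsum.sum_le_tsum _ (fun q _ => by positivity)
      _ = c₂ * Real.exp (l * Real.exp l * Z) * x := by ring
  -- Markov
  have hfin3 : ({θ ∈ Th ν x | H ≤ hw ν (θ.support \ T)}).Finite := hfin.subset (fun θ hθ => hθ.1)
  rw [Set.ncard_eq_toFinset_card _ hfin3]
  have hM : (hfin3.toFinset.card : ℝ) * Real.exp (l * H) ≤
      ∑ θ ∈ A, Real.exp (l * hw ν (θ.support \ T)) := by
    calc (hfin3.toFinset.card : ℝ) * Real.exp (l * H)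
        = ∑ θ ∈ hfin3.toFinset, Real.exp (l * H) := by
          rw [Finset.sum_const, nsmul_eq_mul]
      _ ≤ ∑ θ ∈ hfin3.toFinset, Real.exp (l * hw ν (θ.support \ T)) := by
          apply Finset.sum_le_sum
          intro θ hθ
          rw [Set.Finite.mem_toFinset] at hθ
          exact Real.exp_le_exp.2 (mul_le_mul_of_nonneg_left hθ.2 hl)
      _ ≤ ∑ θ ∈ A, Real.exp (l * hw ν (θ.support \ T)) := by
          apply Finset.sum_le_sum_of_subset_of_nonneg
          · intro θ hθ
            rw [Set.Finite.mem_toFinset] at hθ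
            rw [hA, Set.Finite.mem_toFinset]
            exact hθ.1
          · intro θ _ _
            exact (Real.exp_pos _).le
  have hE := Real.exp_pos (l * H)
  have h8 := le_trans hM hmain
  rw [Real.exp_neg, mul_assoc, mul_comm (Real.exp (l * H))⁻¹ x, ← mul_assoc, ← div_eq_mul_inv,
    le_div_iff₀ hE]
  exact h8

end R130.CF
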