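import Pool.Agent.R130.CF.NFDefs

/-!
# MP_f07b9f : ideals of a number field (CF-NF)
-/

open Filter Topology NumberField IsDedekindDomain nonZeroDivisors

namespace R130.CF

noncomputable section

open UniqueFactorizationMonoid

/-- the ideal with given multiplicities -/
def eK (K : Type) [Field K] [NumberField K] (θ : HeightOneSpectrum (𝓞 K) →₀ ℕ) : Ideal (𝓞 K) :=
  ((Finsupp.toMultiset θ).map (fun v : HeightOneSpectrum (𝓞 K) => v.asIdeal)).prod

lemma asIdeal_inj (K : Type) [Field K] [NumberField K] :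
    Function.Injective (fun v : HeightOneSpectrum (𝓞 K) => v.asIdeal) := by
  intro v w h
  exact HeightOneSpectrum.ext h

lemma nf_eK (K : Type) [Field K] [NumberField K] (θ : HeightOneSpectrum (𝓞 K) →₀ ℕ) :
    normalizedFactors (eK K θ) =
      (Finsupp.toMultiset θ).map (fun v : HeightOneSpectrum (𝓞 K) => v.asIdeal) := by
  unfold eK
  apply normalizedFactors_prod_of_prime
  intro p hp
  obtain ⟨v, -, rfl⟩ := Multiset.mem_map.mp hp
  exact Ideal.prime_of_isPrime v.ne_bot v.isPrime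

lemma eK_inj (K : Type) [Field K] [NumberField K] : Function.Injective (eK K) := by
  intro θ θ' h
  have h1 := nf_eK K θ
  rw [h, nf_eK K θ'] at h1
  have h2 := Multiset.map_injective (asIdeal_inj K) h1
  have h3 : Finsupp.toMultiset θ = Finsupp.toMultiset θ' := h2.symm
  classical
  ext v
  rw [← Finsupp.count_toMultiset θ v, ← Finsupp.count_toMultiset θ' v, h3]

lemma eK_ne_bot (K : Type) [Field K] [NumberField K] (θ : HeightOneSpectrum (𝓞 K) →₀ ℕ) :
    eK K θ ≠ ⊥ := by
  unfold eK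
  rw [← Ideal.zero_eq_bot]
  intro h
  rw [Multiset.prod_eq_zero_iff] at h
  obtain ⟨v, -, hv⟩ := Multiset.mem_map.mp h
  exact v.ne_bot hv

lemma eK_surj (K : Type) [Field K] [NumberField K] (I : Ideal (𝓞 K)) (hI : I ≠ ⊥) :
    ∃ θ, eK K θ = I := by
  classical
  have hmem : ∀ p ∈ normalizedFactors I, ∃ v : HeightOneSpectrum (𝓞 K), v.asIdeal = p := by
    intro p hp
    have hpp : Prime p := prime_of_normalized_factor p hp
    exact ⟨⟨p, Ideal.isPrime_of_prime hpp, hpp.ne_zero⟩, rfl⟩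
  obtain ⟨m, hm⟩ : ∃ m : Multiset (HeightOneSpectrum (𝓞 K)),
      m.map (fun v : HeightOneSpectrum (𝓞 K) => v.asIdeal) = normalizedFactors I := by
    have : ∀ s : Multiset (Ideal (𝓞 K)), (∀ p ∈ s, ∃ v : HeightOneSpectrum (𝓞 K), v.asIdeal = p) →
        ∃ m : Multiset (HeightOneSpectrum (𝓞 K)),
          m.map (fun v : HeightOneSpectrum (𝓞 K) => v.asIdeal) = s := by
      intro s
      induction s using Multiset.induction_on with
      | empty => intro _; exact ⟨0, rfl⟩
      | cons a s ih =>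
        intro h
        obtain ⟨m, hm⟩ := ih (fun p hp => h p (Multiset.mem_cons_of_mem hp))
        obtain ⟨v, hv⟩ := h a (Multiset.mem_cons_self a s)
        exact ⟨v ::ₘ m, by simp [hm, hv]⟩
    exact this _ hmem
  refine ⟨Multiset.toFinsupp m, ?_⟩
  unfold eK
  rw [Multiset.toFinsupp_toMultiset, hm]
  exact associated_iff_eq.mp (prod_normalizedFactors (by rwa [Ideal.zero_eq_bot]))

lemma norm_eK (K : Type) [Field K] [NumberField K] (θ : HeightOneSpectrum (𝓞 K) →₀ ℕ) :
    Ideal.absNorm (eK K θ) = nrm (nuK K) θ := by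
  classical
  unfold eK nrm
  rw [map_multiset_prod, Multiset.map_map, Finsupp.toMultiset_map, Finsupp.prod_toMultiset,
    Finsupp.prod_mapDomain_index (by simp) (by intro b m n; rw [pow_add])]
  rfl

lemma dvd_eK (K : Type) [Field K] [NumberField K] (θ : HeightOneSpectrum (𝓞 K) →₀ ℕ)
    (v : HeightOneSpectrum (𝓞 K)) : v.asIdeal ∣ eK K θ ↔ v ∈ θ.support := by
  classical
  have hv : Prime v.asIdeal := Ideal.prime_of_isPrime v.ne_bot v.isPrime
  constructor
  · intro h
    unfold eK at h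
    obtain ⟨p, hp, hpd⟩ := hv.exists_mem_multiset_dvd h
    obtain ⟨w, hw, rfl⟩ := Multiset.mem_map.mp hp
    rw [Finsupp.mem_toMultiset] at hw
    have hle : w.asIdeal ≤ v.asIdeal := Ideal.dvd_iff_le.mp hpd
    have heq : w.asIdeal = v.asIdeal := by
      rcases eq_or_lt_of_le hle with h1 | h1
      · exact h1
      · exact absurd (w.isMaximal.eq_of_le v.isPrime.ne_top hle) h1.ne
    rwa [HeightOneSpectrum.ext heq] at hw
  · intro h
    unfold eK
    apply Multiset.dvd_prod
    rw [Multiset.mem_map]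
    exact ⟨v, by rwa [Finsupp.mem_toMultiset], rfl⟩

theorem fac : StmFac := by
  intro K _ _
  refine ⟨eK K, eK_inj K, ?_, norm_eK K, dvd_eK K⟩
  intro I
  constructor
  · intro h
    exact eK_surj K I h
  · rintro ⟨θ, rfl⟩
    exact eK_ne_bot K θ

lemma fin_Th (K : Type) [Field K] [NumberField K] (x : ℝ) : (Th (nuK K) x).Finite := by
  have hfin : ({I : Ideal (𝓞 K) | Ideal.absNorm I ≤ ⌊x⌋₊}).Finite :=
    Ideal.finite_setOfPred_absNorm_le _
  refine (Set.Finite.preimage ((eK_inj K).injOn) hfin).subset ?_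
  intro θ hθ
  show Ideal.absNorm (eK K θ) ≤ ⌊x⌋₊
  rw [norm_eK]
  exact Nat.le_floor hθ

/-- the equivalence between multiplicity functions and nonzero ideals of bounded norm -/
def equivTh (K : Type) [Field K] [NumberField K] (x : ℝ) :
    Th (nuK K) x ≃ {I : (Ideal (𝓞 K))⁰ // (Ideal.absNorm (I : Ideal (𝓞 K)) : ℝ) ≤ x} := by
  refine Equiv.ofBijective (fun θ => ⟨⟨eK K θ.1, mem_nonZeroDivisors_of_ne_zero (eK_ne_bot K θ.1)⟩, ?_⟩)
    ⟨?_, ?_⟩
  · show ((Ideal.absNorm (eK K θ.1) : ℕ) : ℝ) ≤ x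
    rw [norm_eK]
    exact θ.2
  · intro θ θ' h
    apply Subtype.ext
    apply eK_inj K
    exact congrArg (fun z => ((z.1 : (Ideal (𝓞 K))⁰) : Ideal (𝓞 K))) h
  · rintro ⟨⟨I, hI⟩, hI2⟩
    obtain ⟨θ, hθ⟩ := eK_surj K I (nonZeroDivisors.ne_zero hI)
    refine ⟨⟨θ, ?_⟩, ?_⟩
    · show ((nrm (nuK K) θ : ℕ) : ℝ) ≤ x
      rw [← norm_eK, hθ]
      exact hI2
    · apply Subtype.ext
      apply Subtype.ext
      exact hθ

theorem sysK : StmSysK := by
  intro K _ _
  have h := NumberField.Ideal.tendsto_norm_le_div_atTop₀ K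
  refine ⟨_, ⟨?_, fin_Th K, ?_, h.congr ?_⟩⟩
  · intro v
    have h0 : nuK K v ≠ 0 := by
      unfold nuK
      rw [Ne, Ideal.absNorm_eq_zero_iff]
      exact v.ne_bot
    have h1 : nuK K v ≠ 1 := by
      unfold nuK
      rw [Ne, Ideal.absNorm_eq_one_iff]
      exact v.isPrime.ne_top
    omega
  · have h1 := NumberField.Units.regulator_pos K
    have h2 : 0 < NumberField.classNumber K := Fintype.card_pos
    have h3 : 0 < NumberField.Units.torsionOrder K := NumberField.Units.torsionOrder_pos K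
    have h4 : (0 : ℝ) < |(NumberField.discr K : ℝ)| := by
      rw [abs_pos]
      exact_mod_cast NumberField.discr_ne_zero K
    have h5 : (0 : ℝ) < NumberField.classNumber K := by exact_mod_cast h2
    have h6 : (0 : ℝ) < NumberField.Units.torsionOrder K := by exact_mod_cast h3
    have h7 : (0 : ℝ) < Real.pi := Real.pi_pos
    positivity
  · intro x
    have h8 := Nat.card_congr (equivTh K x)
    show ((Nat.card _ : ℕ) : ℝ) / x = cnt (nuK K) x / x
    rw [← h8]
    rfl

end

end R130.CF
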