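import Pool.Agent.R130.CF.Defs

/-!
# MP_f07b9f : CF-PAIR
-/

open Filter Topology

namespace R130.CF

noncomputable section

variable {P : Type} [DecidableEq P]

lemma pr_fc_le_cnt {ν : P → ℕ} {ρ : ℝ} (hS : Sys ν ρ) (V E : Finset P) (x : ℝ) :
    fc ν V E x ≤ cnt ν x := by
  unfold fc cnt
  have h1 : Fc ν V E x ⊆ Th ν x := fun θ h => h.1
  exact_mod_cast Set.ncard_le_ncard h1 (hS.fin x)

lemma pr_fc_nonneg (ν : P → ℕ) (V E : Finset P) (x : ℝ) : 0 ≤ fc ν V E x := by
  unfold fc; positivity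

lemma pr_finFc {ν : P → ℕ} {ρ : ℝ} (hS : Sys ν ρ) (V E : Finset P) (x : ℝ) :
    (Fc ν V E x).Finite :=
  (hS.fin x).subset (fun θ h => h.1)

lemma pr_wt_pos {ν : P → ℕ} (h2 : ∀ p, 2 ≤ ν p) (V E : Finset P) :
    0 < wt (fun p => 1 / (ν p : ℝ)) V E := by
  unfold wt
  apply mul_pos
  · apply Finset.prod_pos
    intro q _
    have h : (2 : ℝ) ≤ ν q := by exact_mod_cast h2 q
    positivity
  · apply Finset.prod_pos
    intro q _
    have h : (2 : ℝ) ≤ ν q := by exact_mod_cast h2 q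
    have : 1 / (ν q : ℝ) ≤ 1 / 2 := one_div_le_one_div_of_le (by norm_num) h
    linarith

lemma pr_two_sided {ν : P → ℕ} {ρ : ℝ} (hS : Sys ν ρ) (hd : StmDens) (V E : Finset P)
    (hE : E ⊆ V) :
    ∃ m Z : ℝ, 0 < m ∧ 1 ≤ Z ∧
      ∀ x, Z ≤ x → m / 2 * x ≤ fc ν V E x ∧ fc ν V E x ≤ 2 * m * x := by
  obtain ⟨m, hmdef⟩ : ∃ m, m = ρ * wt (fun p => 1 / (ν p : ℝ)) V E := ⟨_, rfl⟩
  have hm : 0 < m := by rw [hmdef]; exact mul_pos hS.pos (pr_wt_pos hS.two_le V E)
  have ht := hd P ν ρ hS V E hE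
  rw [← hmdef] at ht
  have h1 := ht.eventually (Ioo_mem_nhds (show m / 2 < m by linarith) (show m < 2 * m by linarith))
  obtain ⟨Z0, hZ0⟩ := eventually_atTop.mp h1
  refine ⟨m, max Z0 1, hm, le_max_right _ _, fun x hx => ?_⟩
  have hx0 : 0 < x := lt_of_lt_of_le one_pos (le_trans (le_max_right _ _) hx)
  have h2 := hZ0 x (le_trans (le_max_left _ _) hx)
  constructor
  · have := (lt_div_iff₀ hx0).mp h2.1
    linarith
  · have := (div_lt_iff₀ hx0).mp h2.2
    linarith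

lemma pr_Fc_insert (ν : P → ℕ) (V E : Finset P) (q : P) (N : ℝ) {θ : P →₀ ℕ}
    (hθ : θ ∈ Fc ν V E N) (hq : q ∈ θ.support) : θ ∈ Fc ν (insert q V) (insert q E) N := by
  refine ⟨hθ.1, ?_⟩
  rw [Finset.inter_insert_of_mem hq, hθ.2]

lemma pr_union_bound {α ι : Type} [DecidableEq ι] (U : Finset ι) (B : ι → Set α)
    (hB : ∀ q ∈ U, (B q).Finite) (X : Set α)
    (hX : ∀ x ∈ X, ∃ q ∈ U, x ∈ B q) : (X.ncard : ℝ) ≤ ∑ q ∈ U, ((B q).ncard : ℝ) := by
  have key : ∀ U : Finset ι, (∀ q ∈ U, (B q).Finite) →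
      (⋃ q ∈ U, B q).Finite ∧ (⋃ q ∈ U, B q).ncard ≤ ∑ q ∈ U, (B q).ncard := by
    intro U
    induction U using Finset.induction_on with
    | empty => intro _; simp
    | insert a s ha ih =>
      intro h
      obtain ⟨h1, h2⟩ := ih (fun q hq => h q (Finset.mem_insert_of_mem hq))
      rw [Finset.set_biUnion_insert, Finset.sum_insert ha]
      refine ⟨(h a (Finset.mem_insert_self a s)).union h1, ?_⟩
      exact le_trans (Set.ncard_union_le _ _) (by omega)
  obtain ⟨h1, h2⟩ := key U hB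
  have h3 : X.ncard ≤ (⋃ q ∈ U, B q).ncard := by
    apply Set.ncard_le_ncard _ h1
    intro x hx
    obtain ⟨q, hq, hxq⟩ := hX x hx
    exact Set.mem_biUnion (by exact_mod_cast hq) hxq
  exact_mod_cast le_trans h3 h2

/-- the bounds for `fc V E (N / ν q)` -/
lemma pr_bd_small {ν : P → ℕ} {ρ : ℝ} (hS : Sys ν ρ) {V E : Finset P} {m Z : ℝ} (hm : 0 < m)
    (hZ : 1 ≤ Z)
    (h : ∀ x, Z ≤ x → m / 2 * x ≤ fc ν V E x ∧ fc ν V E x ≤ 2 * m * x) {N : ℝ} (hN : Z ≤ N)
    (q : P) (hq : (ν q : ℝ) * Z ≤ N) : fc ν V E (N / ν q) ≤ 4 * fc ν V E N / ν q := by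
  have h2 : (2 : ℝ) ≤ ν q := by exact_mod_cast hS.two_le q
  have hν : (0 : ℝ) < ν q := by linarith
  have h3 : Z ≤ N / ν q := by
    rw [le_div_iff₀ hν]; linarith
  have h4 := (h _ h3).2
  have h5 := (h _ hN).1
  rw [le_div_iff₀ hν]
  have h6 : fc ν V E (N / ν q) * ν q ≤ 2 * m * (N / ν q) * ν q :=
    mul_le_mul_of_nonneg_right h4 hν.le
  have h7 : 2 * m * (N / ν q) * ν q = 2 * m * N := by field_simp
  linarith

lemma pr_bd_all {ν : P → ℕ} {ρ : ℝ} (hS : Sys ν ρ) {c₂ : ℝ}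
    (hc₂ : ∀ x : ℝ, 0 ≤ x → cnt ν x ≤ c₂ * x) (V E : Finset P) {N : ℝ} (hN : 0 ≤ N) (q : P) :
    fc ν V E (N / ν q) ≤ c₂ * N / ν q := by
  have h2 : (2 : ℝ) ≤ ν q := by exact_mod_cast hS.two_le q
  have hν : (0 : ℝ) < ν q := by linarith
  have := hc₂ (N / ν q) (by positivity)
  have h3 := pr_fc_le_cnt hS V E (N / ν q)
  calc fc ν V E (N / ν q) ≤ c₂ * (N / ν q) := le_trans h3 this
    _ = c₂ * N / ν q := by ring

/-- tails of the summable series -/
lemma pr_tail {ν : P → ℕ} {f : P → ℝ} (hf : Summable f) (hf0 : ∀ p, 0 ≤ f p) {ε : ℝ}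
    (hε : 0 < ε) : ∃ y : ℕ, ∀ s : Finset P, (∀ p ∈ s, y < ν p) → ∑ p ∈ s, f p ≤ ε := by
  obtain ⟨F, hF⟩ := summable_iff_vanishing_norm.mp hf ε hε
  refine ⟨F.sup ν, fun s hs => ?_⟩
  have hdis : Disjoint s F := by
    rw [Finset.disjoint_left]
    intro p hp hpF
    have h1 := hs p hp
    have h2 : ν p ≤ F.sup ν := Finset.le_sup hpF
    omega
  have h3 := hF s hdis
  have h4 : ‖∑ p ∈ s, f p‖ = ∑ p ∈ s, f p := by
    rw [Real.norm_eq_abs, abs_of_nonneg (Finset.sum_nonneg (fun p _ => hf0 p))]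
  linarith

theorem pair (hc : StmCheb) (hs : StmSumm) (hsh : StmShift) (hd : StmDens) : StmPair := by
  intro P _ ν ρ hS δ hδ
  obtain ⟨c₁, c₂, hc₁, hc₂, -, hub⟩ := hc P ν ρ hS
  have hsum := hs P ν ρ hS
  have hνpos : ∀ p, (2 : ℝ) ≤ ν p := fun p => by exact_mod_cast hS.two_le p
  have hf0 : ∀ p, 0 ≤ 1 / ((ν p : ℝ) * Real.sqrt (ν p)) := fun p => by positivity
  have hsq : ∀ p, 1 / ((ν p : ℝ) * ν p) ≤ 1 / ((ν p : ℝ) * Real.sqrt (ν p)) := by
    intro p
    have h2 := hνpos p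
    have h3 : Real.sqrt (ν p) ≤ ν p := by
      rw [Real.sqrt_le_left (by linarith)]
      nlinarith
    have h4 : 0 < Real.sqrt (ν p) := Real.sqrt_pos.mpr (by linarith)
    apply one_div_le_one_div_of_le (by positivity)
    exact mul_le_mul_of_nonneg_left h3 (by linarith)
  obtain ⟨y, hy⟩ := pr_tail (ν := ν) hsum hf0 (show 0 < δ ^ 2 / 32 by positivity)
  refine ⟨y, fun V hV E E' hE hE' hEE' => ?_⟩
  obtain ⟨m, Z, hm, hZ, hmZ⟩ := pr_two_sided hS hd V E hE
  obtain ⟨m', Z', hm', hZ', hmZ'⟩ := pr_two_sided hS hd V E' hE'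
  obtain ⟨y₁, hy₁⟩ := pr_tail (ν := ν) hsum hf0 (show 0 < δ ^ 2 * (m * m') / (8 * c₂ ^ 2) by positivity)
  obtain ⟨Z₂, hZ₂⟩ : ∃ Z₂, Z₂ = max Z Z' := ⟨_, rfl⟩
  have hZ₂1 : 1 ≤ Z₂ := by rw [hZ₂]; exact le_trans hZ (le_max_left _ _)
  have hZZ₂ : Z ≤ Z₂ := by rw [hZ₂]; exact le_max_left _ _
  have hZZ₂' : Z' ≤ Z₂ := by rw [hZ₂]; exact le_max_right _ _
  refine ⟨max Z₂ (Z₂ * y₁), fun N hN A A' hA hA' hcross => ?_⟩
  have hN1 : Z₂ ≤ N := le_trans (le_max_left _ _) hN
  have hN2 : Z₂ * y₁ ≤ N := le_trans (le_max_right _ _) hN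
  have hN0 : 0 < N := by linarith
  obtain ⟨φ, hφ⟩ : ∃ φ, φ = fc ν V E N := ⟨_, rfl⟩
  obtain ⟨φ', hφ'⟩ : ∃ φ', φ' = fc ν V E' N := ⟨_, rfl⟩
  have hφlow : m / 2 * N ≤ φ := by rw [hφ]; exact (hmZ N (by linarith)).1
  have hφlow' : m' / 2 * N ≤ φ' := by rw [hφ']; exact (hmZ' N (by linarith)).1
  have hφpos : 0 < φ := lt_of_lt_of_le (by positivity) hφlow
  have hφpos' : 0 < φ' := lt_of_lt_of_le (by positivity) hφlow'
  -- the union bound
  obtain ⟨U, hU⟩ : ∃ U : Finset P, U = ((hS.fin N).toFinset.biUnion (fun θ => θ.support)) \ V :=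
    ⟨_, rfl⟩
  have hprod : (A.ncard : ℝ) * A'.ncard ≤ ∑ q ∈ U, fc ν V E (N / ν q) * fc ν V E' (N / ν q) := by
    have h1 := pr_union_bound U
      (fun q => Fc ν (insert q V) (insert q E) N ×ˢ Fc ν (insert q V) (insert q E') N)
      (fun q _ => (pr_finFc hS _ _ N).prod (pr_finFc hS _ _ N)) (A ×ˢ A') (by
        rintro ⟨θ, θ'⟩ ⟨hθ, hθ'⟩
        simp only at hθ hθ'
        have h2 := hcross θ hθ θ' hθ'
        rw [Finset.not_disjoint_iff] at h2
        obtain ⟨q, hq, hq'⟩ := h2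
        have hqV : q ∉ V := by
          intro hqV
          have h3 : q ∈ E := by
            rw [← (hA hθ).2]; exact Finset.mem_inter.mpr ⟨hq, hqV⟩
          have h4 : q ∈ E' := by
            rw [← (hA' hθ').2]; exact Finset.mem_inter.mpr ⟨hq', hqV⟩
          exact Finset.disjoint_left.mp hEE' h3 h4
        refine ⟨q, ?_, ?_⟩
        · rw [hU, Finset.mem_sdiff, Finset.mem_biUnion]
          exact ⟨⟨θ, (hS.fin N).mem_toFinset.mpr (hA hθ).1, hq⟩, hqV⟩
        · exact ⟨pr_Fc_insert ν V E q N (hA hθ) hq, pr_Fc_insert ν V E' q N (hA' hθ') hq'⟩)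
    rw [Set.ncard_prod] at h1
    push_cast at h1
    refine le_trans h1 (le_of_eq ?_)
    apply Finset.sum_congr rfl
    intro q hq
    have hqV : q ∉ V := by
      rw [hU, Finset.mem_sdiff] at hq; exact hq.2
    rw [Set.ncard_prod]
    push_cast
    have h5 := hsh P ν ρ hS V E q N hE hqV
    have h6 := hsh P ν ρ hS V E' q N hE' hqV
    unfold fc at h5 h6 ⊢
    rw [h5, h6]
  -- the bound for the sum
  have hbound : ∑ q ∈ U, fc ν V E (N / ν q) * fc ν V E' (N / ν q) ≤ δ ^ 2 * (φ * φ') := by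
    rw [← Finset.sum_filter_add_sum_filter_not U (fun q => (ν q : ℝ) * Z₂ ≤ N)]
    have hA1 : ∑ q ∈ U.filter (fun q => (ν q : ℝ) * Z₂ ≤ N),
        fc ν V E (N / ν q) * fc ν V E' (N / ν q) ≤ δ ^ 2 / 2 * (φ * φ') := by
      calc ∑ q ∈ U.filter (fun q => (ν q : ℝ) * Z₂ ≤ N),
          fc ν V E (N / ν q) * fc ν V E' (N / ν q)
          ≤ ∑ q ∈ U.filter (fun q => (ν q : ℝ) * Z₂ ≤ N),
            16 * (φ * φ') * (1 / ((ν q : ℝ) * Real.sqrt (ν q))) := by
            apply Finset.sum_le_sum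
            intro q hq
            have hq2 := (Finset.mem_filter.mp hq).2
            have h2 := hνpos q
            have hν0 : (0 : ℝ) < ν q := by linarith
            have hb1 := pr_bd_small hS hm hZ hmZ (N := N) (by linarith) q
              (le_trans (mul_le_mul_of_nonneg_left hZZ₂ hν0.le) hq2)
            have hb2 := pr_bd_small hS hm' hZ' hmZ' (N := N) (by linarith) q
              (le_trans (mul_le_mul_of_nonneg_left hZZ₂' hν0.le) hq2)
            rw [← hφ] at hb1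
            rw [← hφ'] at hb2
            calc fc ν V E (N / ν q) * fc ν V E' (N / ν q)
                ≤ (4 * φ / ν q) * (4 * φ' / ν q) :=
                  mul_le_mul hb1 hb2 (pr_fc_nonneg _ _ _ _) (by positivity)
              _ = 16 * (φ * φ') * (1 / ((ν q : ℝ) * ν q)) := by field_simp; ring
              _ ≤ _ := mul_le_mul_of_nonneg_left (hsq q) (by positivity)
        _ = 16 * (φ * φ') * ∑ q ∈ U.filter (fun q => (ν q : ℝ) * Z₂ ≤ N),
            (1 / ((ν q : ℝ) * Real.sqrt (ν q))) := by rw [Finset.mul_sum]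
        _ ≤ 16 * (φ * φ') * (δ ^ 2 / 32) := by
            apply mul_le_mul_of_nonneg_left _ (by positivity)
            apply hy
            intro p hp
            have hp1 := (Finset.mem_filter.mp hp).1
            rw [hU, Finset.mem_sdiff] at hp1
            by_contra hcon
            exact hp1.2 (hV p (by omega))
        _ = δ ^ 2 / 2 * (φ * φ') := by ring
    have hA2 : ∑ q ∈ U.filter (fun q => ¬ (ν q : ℝ) * Z₂ ≤ N),
        fc ν V E (N / ν q) * fc ν V E' (N / ν q) ≤ δ ^ 2 / 2 * (φ * φ') := by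
      calc ∑ q ∈ U.filter (fun q => ¬ (ν q : ℝ) * Z₂ ≤ N),
          fc ν V E (N / ν q) * fc ν V E' (N / ν q)
          ≤ ∑ q ∈ U.filter (fun q => ¬ (ν q : ℝ) * Z₂ ≤ N),
            (c₂ ^ 2 * N ^ 2) * (1 / ((ν q : ℝ) * Real.sqrt (ν q))) := by
            apply Finset.sum_le_sum
            intro q hq
            have h2 := hνpos q
            have hν0 : (0 : ℝ) < ν q := by linarith
            have hb1 := pr_bd_all hS hub V E hN0.le q
            have hb2 := pr_bd_all hS hub V E' hN0.le q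
            calc fc ν V E (N / ν q) * fc ν V E' (N / ν q)
                ≤ (c₂ * N / ν q) * (c₂ * N / ν q) :=
                  mul_le_mul hb1 hb2 (pr_fc_nonneg _ _ _ _) (by positivity)
              _ = (c₂ ^ 2 * N ^ 2) * (1 / ((ν q : ℝ) * ν q)) := by field_simp
              _ ≤ _ := mul_le_mul_of_nonneg_left (hsq q) (by positivity)
        _ = (c₂ ^ 2 * N ^ 2) * ∑ q ∈ U.filter (fun q => ¬ (ν q : ℝ) * Z₂ ≤ N),
            (1 / ((ν q : ℝ) * Real.sqrt (ν q))) := by rw [Finset.mul_sum]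
        _ ≤ (c₂ ^ 2 * N ^ 2) * (δ ^ 2 * (m * m') / (8 * c₂ ^ 2)) := by
            apply mul_le_mul_of_nonneg_left _ (by positivity)
            apply hy₁
            intro p hp
            have hp1 := (Finset.mem_filter.mp hp).2
            by_contra hcon
            have h9 : (ν p : ℝ) ≤ y₁ := by exact_mod_cast (by omega : ν p ≤ y₁)
            apply hp1
            calc (ν p : ℝ) * Z₂ ≤ y₁ * Z₂ := mul_le_mul_of_nonneg_right h9 (by linarith)
              _ ≤ N := by linarith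
        _ = δ ^ 2 / 2 * ((m / 2 * N) * (m' / 2 * N)) := by field_simp; ring
        _ ≤ δ ^ 2 / 2 * (φ * φ') := by
            apply mul_le_mul_of_nonneg_left _ (by positivity)
            exact mul_le_mul hφlow hφlow' (by positivity) hφpos.le
    linarith
  -- conclusion
  have hle : (A.ncard : ℝ) ≤ φ := by
    rw [hφ]; unfold fc
    exact_mod_cast Set.ncard_le_ncard hA (pr_finFc hS V E N)
  have hle' : (A'.ncard : ℝ) ≤ φ' := by
    rw [hφ']; unfold fc
    exact_mod_cast Set.ncard_le_ncard hA' (pr_finFc hS V E' N)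
  rw [← hφ, ← hφ']
  obtain ⟨a, ha⟩ : ∃ a, a = (A.ncard : ℝ) / φ := ⟨_, rfl⟩
  obtain ⟨a', ha'⟩ : ∃ a', a' = (A'.ncard : ℝ) / φ' := ⟨_, rfl⟩
  rw [← ha, ← ha']
  have ha1 : a ≤ 1 := by rw [ha]; exact (div_le_one hφpos).mpr hle
  have ha1' : a' ≤ 1 := by rw [ha']; exact (div_le_one hφpos').mpr hle'
  have ha0 : 0 ≤ a := by rw [ha]; positivity
  have ha0' : 0 ≤ a' := by rw [ha']; positivity
  have hprod2 : a * a' ≤ δ ^ 2 := by
    rw [ha, ha', div_mul_div_comm, div_le_iff₀ (by positivity)]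
    linarith
  by_cases h : a ≤ δ
  · linarith
  · push Not at h
    have : a' ≤ δ := by
      by_contra h'
      push Not at h'
      nlinarith
    linarith

theorem pairGap (hc : StmCheb) (_hs : StmSumm) (hsh : StmShift) (hd : StmDens) : StmPairGap := by
  intro P _ ν ρ hS δ hδ H
  obtain ⟨c₁, c₂, hc₁, hc₂, -, hub⟩ := hc P ν ρ hS
  have hνpos : ∀ p, (2 : ℝ) ≤ ν p := fun p => by exact_mod_cast hS.two_le p
  obtain ⟨K, hK⟩ : ∃ K, K = |H| + 1 := ⟨_, rfl⟩
  have hK1 : 1 ≤ K := by rw [hK]; linarith [abs_nonneg H]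
  have hHK : H ≤ K := by rw [hK]; linarith [le_abs_self H]
  obtain ⟨y, hy⟩ := exists_nat_gt ((8 * K / δ) ^ 2)
  refine ⟨y, fun V hV E hE => ?_⟩
  obtain ⟨m, Z, hm, hZ, hmZ⟩ := pr_two_sided hS hd V E hE
  obtain ⟨η, hη⟩ : ∃ η, η = δ * m / (4 * c₂ * K) := ⟨_, rfl⟩
  have hη0 : 0 < η := by rw [hη]; positivity
  refine ⟨max Z (Z / η ^ 2), fun N hN A Q hA hQH hEQ hAQ => ?_⟩
  have hN1 : Z ≤ N := le_trans (le_max_left _ _) hN
  have hN2 : Z / η ^ 2 ≤ N := le_trans (le_max_right _ _) hN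
  have hN0 : 0 < N := by linarith
  obtain ⟨φ, hφ⟩ : ∃ φ, φ = fc ν V E N := ⟨_, rfl⟩
  have hφlow : m / 2 * N ≤ φ := by rw [hφ]; exact (hmZ N (by linarith)).1
  have hφpos : 0 < φ := lt_of_lt_of_le (by positivity) hφlow
  have hcard : (A.ncard : ℝ) ≤ ∑ q ∈ Q \ V, fc ν V E (N / ν q) := by
    have h1 := pr_union_bound (Q \ V) (fun q => Fc ν (insert q V) (insert q E) N)
      (fun q _ => pr_finFc hS _ _ N) A (by
        intro θ hθ
        have h2 := hAQ θ hθ
        rw [Finset.not_disjoint_iff] at h2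
        obtain ⟨q, hq, hqQ⟩ := h2
        have hqV : q ∉ V := by
          intro hqV
          have h3 : q ∈ E := by
            rw [← (hA hθ).2]; exact Finset.mem_inter.mpr ⟨hq, hqV⟩
          exact Finset.disjoint_left.mp hEQ h3 hqQ
        exact ⟨q, Finset.mem_sdiff.mpr ⟨hqQ, hqV⟩, pr_Fc_insert ν V E q N (hA hθ) hq⟩)
    refine le_trans h1 (le_of_eq ?_)
    apply Finset.sum_congr rfl
    intro q hq
    have hqV : q ∉ V := (Finset.mem_sdiff.mp hq).2
    have h5 := hsh P ν ρ hS V E q N hE hqV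
    unfold fc at h5 ⊢
    rw [h5]
  have hterm : ∀ q ∈ Q \ V, fc ν V E (N / ν q) ≤ δ / K * φ * (1 / Real.sqrt (ν q)) := by
    intro q hq
    have hqV : q ∉ V := (Finset.mem_sdiff.mp hq).2
    have h2 := hνpos q
    have hν0 : (0 : ℝ) < ν q := by linarith
    have hs0 : 0 < Real.sqrt (ν q) := Real.sqrt_pos.mpr hν0
    have hss : Real.sqrt (ν q) * Real.sqrt (ν q) = ν q := Real.mul_self_sqrt hν0.le
    by_cases hcase : (ν q : ℝ) * Z ≤ N
    · have hb := pr_bd_small hS hm hZ hmZ (N := N) hN1 q hcase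
      rw [← hφ] at hb
      have hyq : (8 * K / δ) ^ 2 ≤ ν q := by
        have : y < ν q := by
          by_contra hcon
          exact hqV (hV q (by omega))
        have : (y : ℝ) < ν q := by exact_mod_cast this
        linarith
      have h3 : 8 * K / δ ≤ Real.sqrt (ν q) := Real.le_sqrt_of_sq_le hyq
      calc fc ν V E (N / ν q) ≤ 4 * φ / ν q := hb
        _ = 4 * φ * (1 / Real.sqrt (ν q)) * (1 / Real.sqrt (ν q)) := by
            rw [← hss]; field_simp; rw [Real.sqrt_sq hs0.le]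
        _ ≤ 4 * φ * (1 / (8 * K / δ)) * (1 / Real.sqrt (ν q)) := by
            apply mul_le_mul_of_nonneg_right _ (by positivity)
            apply mul_le_mul_of_nonneg_left _ (by positivity)
            exact one_div_le_one_div_of_le (by positivity) h3
        _ = δ / (2 * K) * φ * (1 / Real.sqrt (ν q)) := by field_simp; ring
        _ ≤ δ / K * φ * (1 / Real.sqrt (ν q)) := by
            apply mul_le_mul_of_nonneg_right _ (by positivity)
            apply mul_le_mul_of_nonneg_right _ hφpos.le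
            apply div_le_div_of_nonneg_left hδ.le (by positivity) (by linarith)
    · push Not at hcase
      have hb := pr_bd_all hS hub V E hN0.le q
      have h3 : 1 / η ^ 2 ≤ ν q := by
        have h4 : Z / η ^ 2 < ν q * Z := lt_of_le_of_lt hN2 hcase
        have h5 : Z * (1 / η ^ 2) < Z * ν q := by
          calc Z * (1 / η ^ 2) = Z / η ^ 2 := by ring
            _ < ν q * Z := h4
            _ = Z * ν q := by ring
        exact (lt_of_mul_lt_mul_left h5 (by linarith)).le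
      have h4 : 1 / η ≤ Real.sqrt (ν q) := by
        apply Real.le_sqrt_of_sq_le
        have h6 : (1 / η) ^ 2 = 1 / η ^ 2 := by field_simp
        rw [h6]
        exact h3
      calc fc ν V E (N / ν q) ≤ c₂ * N / ν q := hb
        _ = c₂ * N * (1 / Real.sqrt (ν q)) * (1 / Real.sqrt (ν q)) := by
            rw [← hss]; field_simp; rw [Real.sqrt_sq hs0.le]
        _ ≤ c₂ * N * (1 / (1 / η)) * (1 / Real.sqrt (ν q)) := by
            apply mul_le_mul_of_nonneg_right _ (by positivity)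
            apply mul_le_mul_of_nonneg_left _ (by positivity)
            exact one_div_le_one_div_of_le (by positivity) h4
        _ = δ / (2 * K) * (m / 2 * N) * (1 / Real.sqrt (ν q)) := by rw [hη]; field_simp; ring
        _ ≤ δ / (2 * K) * φ * (1 / Real.sqrt (ν q)) := by
            apply mul_le_mul_of_nonneg_right _ (by positivity)
            exact mul_le_mul_of_nonneg_left hφlow (by positivity)
        _ ≤ δ / K * φ * (1 / Real.sqrt (ν q)) := by
            apply mul_le_mul_of_nonneg_right _ (by positivity)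
            apply mul_le_mul_of_nonneg_right _ hφpos.le
            apply div_le_div_of_nonneg_left hδ.le (by positivity) (by linarith)
  rw [← hφ, div_le_iff₀ hφpos]
  have hsumle : ∑ q ∈ Q \ V, (1 / Real.sqrt (ν q)) ≤ K := by
    refine le_trans (Finset.sum_le_sum_of_subset_of_nonneg Finset.sdiff_subset ?_)
      (le_trans hQH hHK)
    intro q _ _
    positivity
  calc (A.ncard : ℝ) ≤ ∑ q ∈ Q \ V, fc ν V E (N / ν q) := hcard
    _ ≤ ∑ q ∈ Q \ V, δ / K * φ * (1 / Real.sqrt (ν q)) := Finset.sum_le_sum hterm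
    _ = δ / K * φ * ∑ q ∈ Q \ V, (1 / Real.sqrt (ν q)) := by rw [Finset.mul_sum]
    _ ≤ δ / K * φ * K := mul_le_mul_of_nonneg_left hsumle (by positivity)
    _ = δ * φ := by field_simp

end

end R130.CF
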