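import Pool.Agent.R130.CF.Defs

/-! CF-SIEVE: Rankin trick lower bound for the number of elements coprime to `V`. -/

open Filter Topology

namespace R130.CF

namespace Sv

variable {P : Type} [DecidableEq P]

/-- Euler product bound for finite sets. -/
theorem sum_le_prod (t : P → ℝ) (ht0 : ∀ q, 0 ≤ t q) (ht1 : ∀ q, t q < 1) (V : Finset P) :
    ∀ S : Finset (P →₀ ℕ), (∀ d ∈ S, d.support ⊆ V) →
      ∑ d ∈ S, d.prod (fun q a => t q ^ a) ≤ ∏ q ∈ V, (1 - t q)⁻¹ := by
  classical
  have hg0 : ∀ d : P →₀ ℕ, 0 ≤ d.prod (fun q a => t q ^ a) := fun d =>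
    Finset.prod_nonneg (fun q _ => pow_nonneg (ht0 q) _)
  induction V using Finset.induction_on with
  | empty =>
    intro S hS
    have hsub : S ⊆ {0} := by
      intro d hd
      have := hS d hd
      rw [Finset.subset_empty, Finsupp.support_eq_empty] at this
      simp [this]
    calc ∑ d ∈ S, d.prod (fun q a => t q ^ a)
        ≤ ∑ d ∈ ({0} : Finset (P →₀ ℕ)), d.prod (fun q a => t q ^ a) :=
          Finset.sum_le_sum_of_subset_of_nonneg hsub (fun d _ _ => hg0 d)
      _ = 1 := by simp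
      _ ≤ ∏ q ∈ (∅ : Finset P), (1 - t q)⁻¹ := by simp
  | insert q V hq ih =>
    intro S hS
    have hB : 0 ≤ ∏ q ∈ V, (1 - t q)⁻¹ :=
      Finset.prod_nonneg (fun q _ => inv_nonneg.2 (by linarith [ht1 q]))
    have key : ∀ a : ℕ, ∑ d ∈ S.filter (fun d => d q = a), d.prod (fun q a => t q ^ a) ≤
        t q ^ a * ∏ q ∈ V, (1 - t q)⁻¹ := by
      intro a
      have h1 : ∑ d ∈ S.filter (fun d => d q = a), d.prod (fun q a => t q ^ a) =
          ∑ d ∈ S.filter (fun d => d q = a),
            t q ^ a * (d.erase q).prod (fun q a => t q ^ a) := by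
        apply Finset.sum_congr rfl
        intro d hd
        have hda := (Finset.mem_filter.1 hd).2
        rw [← Finsupp.mul_prod_erase' d q (fun q a => t q ^ a) (fun i => pow_zero _), hda]
      rw [h1, ← Finset.mul_sum]
      apply mul_le_mul_of_nonneg_left _ (pow_nonneg (ht0 q) _)
      have hinj : Set.InjOn (fun d : P →₀ ℕ => d.erase q)
          (S.filter (fun d => d q = a) : Finset (P →₀ ℕ)) := by
        intro d hd e he hde
        have hd' := (Finset.mem_filter.1 hd).2
        have he' := (Finset.mem_filter.1 he).2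
        ext p
        by_cases hp : p = q
        · rw [hp, hd', he']
        · have := DFunLike.congr_fun hde p
          simp only [Finsupp.erase_ne hp] at this
          exact this
      have h2 : ∑ d ∈ S.filter (fun d => d q = a), (d.erase q).prod (fun q a => t q ^ a) =
          ∑ e ∈ (S.filter (fun d => d q = a)).image (fun d : P →₀ ℕ => d.erase q),
            e.prod (fun q a => t q ^ a) := by
        rw [Finset.sum_image hinj]
      rw [h2]
      apply ih
      intro e he
      obtain ⟨d, hd, rfl⟩ := Finset.mem_image.1 he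
      have hdS := hS d (Finset.mem_filter.1 hd).1
      intro p hp
      rw [Finsupp.support_erase, Finset.mem_erase] at hp
      rcases Finset.mem_insert.1 (hdS hp.2) with h | h
      · exact absurd h hp.1
      · exact h
    have hsplit : ∑ d ∈ S, d.prod (fun q a => t q ^ a) =
        ∑ a ∈ S.image (fun d => d q),
          ∑ d ∈ S.filter (fun d => d q = a), d.prod (fun q a => t q ^ a) :=
      (Finset.sum_fiberwise_of_maps_to (fun d hd => Finset.mem_image_of_mem _ hd) _).symm
    rw [hsplit, Finset.prod_insert hq]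
    calc ∑ a ∈ S.image (fun d => d q),
          ∑ d ∈ S.filter (fun d => d q = a), d.prod (fun q a => t q ^ a)
        ≤ ∑ a ∈ S.image (fun d => d q), t q ^ a * ∏ q ∈ V, (1 - t q)⁻¹ :=
          Finset.sum_le_sum (fun a _ => key a)
      _ = (∑ a ∈ S.image (fun d => d q), t q ^ a) * ∏ q ∈ V, (1 - t q)⁻¹ := by
          rw [Finset.sum_mul]
      _ ≤ (1 - t q)⁻¹ * ∏ q ∈ V, (1 - t q)⁻¹ := by
          apply mul_le_mul_of_nonneg_right _ hB
          rw [← tsum_geometric_of_lt_one (ht0 q) (ht1 q)]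
          exact (summable_geometric_of_lt_one (ht0 q) (ht1 q)).sum_le_tsum _
            (fun a _ => pow_nonneg (ht0 q) _)

omit [DecidableEq P] in
theorem nrm_pos {ν : P → ℕ} (h2 : ∀ p, 2 ≤ ν p) (θ : P →₀ ℕ) : 1 ≤ nrm ν θ := by
  unfold nrm Finsupp.prod
  exact Finset.one_le_prod' (fun p _ => Nat.one_le_pow _ _ (by have := h2 p; omega))

omit [DecidableEq P] in
theorem nrm_add (ν : P → ℕ) (a b : P →₀ ℕ) : nrm ν (a + b) = nrm ν a * nrm ν b := by
  unfold nrm
  exact Finsupp.prod_add_index' (fun _ => pow_zero _) (fun _ _ _ => pow_add _ _ _)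

omit [DecidableEq P] in
theorem inv_sqrt_nrm (ν : P → ℕ) (d : P →₀ ℕ) :
    1 / Real.sqrt (nrm ν d : ℝ) = d.prod (fun q a => (1 / Real.sqrt (ν q : ℝ)) ^ a) := by
  unfold nrm Finsupp.prod
  push_cast
  rw [Real.sqrt_prod _ (fun i _ => by positivity), one_div, ← Finset.prod_inv_distrib]
  apply Finset.prod_congr rfl
  intro q _
  have h : Real.sqrt ((ν q : ℝ) ^ d q) = Real.sqrt (ν q : ℝ) ^ d q := by
    rw [Real.sqrt_eq_iff_eq_sq (by positivity) (by positivity), ← pow_mul, mul_comm, pow_mul,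
      Real.sq_sqrt (by positivity)]
  rw [one_div, inv_pow, h]

theorem nrm_split (ν : P → ℕ) (V : Finset P) (θ : P →₀ ℕ) :
    nrm ν (θ.filter (fun p => p ∈ V)) * nrm ν (θ.filter (fun p => p ∉ V)) = nrm ν θ := by
  rw [← nrm_add, Finsupp.filter_add_filter_not]

theorem fc_mono (ν : P → ℕ) (ρ : ℝ) (h : Sys ν ρ) (V E : Finset P) {x y : ℝ} (hxy : x ≤ y) :
    fc ν V E x ≤ fc ν V E y := by
  unfold fc
  have hfin : (Fc ν V E y).Finite := (h.fin y).subset (fun θ hθ => hθ.1)
  have hsub : Fc ν V E x ⊆ Fc ν V E y := fun θ hθ => ⟨le_trans hθ.1 hxy, hθ.2⟩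
  exact_mod_cast Set.ncard_le_ncard hsub hfin

theorem fc_le_cnt (ν : P → ℕ) (ρ : ℝ) (h : Sys ν ρ) (V E : Finset P) (x : ℝ) :
    fc ν V E x ≤ cnt ν x := by
  unfold fc cnt
  have hsub : Fc ν V E x ⊆ Th ν x := fun θ hθ => hθ.1
  exact_mod_cast Set.ncard_le_ncard hsub (h.fin x)

theorem cnt_le_sum (ν : P → ℕ) (ρ : ℝ) (h : Sys ν ρ) (V : Finset P) (x : ℝ)
    (S : Finset (P →₀ ℕ)) (hS : ∀ d, d ∈ S ↔ (nrm ν d : ℝ) ≤ x ∧ d.support ⊆ V) :
    cnt ν x ≤ ∑ d ∈ S, fc ν V ∅ (x / nrm ν d) := by
  classical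
  have hfin := h.fin x
  have hmap : ∀ θ ∈ hfin.toFinset, θ.filter (fun p => p ∈ V) ∈ S := by
    intro θ hθ
    rw [Set.Finite.mem_toFinset] at hθ
    have hθ' : (nrm ν θ : ℝ) ≤ x := hθ
    rw [hS]
    constructor
    · have h1 := nrm_split ν V θ
      have h2 := nrm_pos h.two_le (θ.filter (fun p => p ∉ V))
      have h3 : nrm ν (θ.filter (fun p => p ∈ V)) ≤ nrm ν θ := by
        rw [← h1]; exact Nat.le_mul_of_pos_right _ (by omega)
      exact le_trans (by exact_mod_cast h3) hθ'
    · intro p hp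
      rw [Finsupp.support_filter, Finset.mem_filter] at hp
      exact hp.2
  have hcard : cnt ν x = ((hfin.toFinset).card : ℝ) := by
    unfold cnt
    rw [Set.ncard_eq_toFinset_card _ hfin]
  rw [hcard, Finset.card_eq_sum_card_fiberwise hmap]
  push_cast
  apply Finset.sum_le_sum
  intro d hd
  unfold fc
  have hfin2 : (Fc ν V ∅ (x / nrm ν d)).Finite :=
    (h.fin _).subset (fun θ hθ => hθ.1)
  rw [Set.ncard_eq_toFinset_card _ hfin2]
  norm_cast
  apply Finset.card_le_card_of_injOn (fun θ => θ.filter (fun p => p ∉ V))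
  · intro θ hθ
    have hθ1 := Finset.mem_filter.1 hθ
    rw [Set.Finite.mem_toFinset] at hθ1
    have hθ' : (nrm ν θ : ℝ) ≤ x := hθ1.1
    rw [Finset.mem_coe, Set.Finite.mem_toFinset]
    constructor
    · show (nrm ν (θ.filter (fun p => p ∉ V)) : ℝ) ≤ x / nrm ν d
      have hdpos : (0 : ℝ) < nrm ν d := by
        exact_mod_cast lt_of_lt_of_le one_pos (nrm_pos h.two_le d)
      rw [le_div_iff₀ hdpos]
      have h1 := nrm_split ν V θ
      rw [hθ1.2] at h1
      rw [← h1] at hθ'
      push_cast at hθ'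
      linarith
    · rw [Finset.eq_empty_iff_forall_notMem]
      intro p hp
      rw [Finset.mem_inter, Finsupp.support_filter, Finset.mem_filter] at hp
      exact hp.1.2 hp.2
  · intro θ hθ θ' hθ' heq
    have hθ1 := (Finset.mem_filter.1 hθ).2
    have hθ2 := (Finset.mem_filter.1 hθ').2
    simp only at heq
    rw [← Finsupp.filter_add_filter_not θ (fun p => p ∈ V),
      ← Finsupp.filter_add_filter_not θ' (fun p => p ∈ V), hθ1, hθ2, heq]

theorem one_sub_inv_le_exp {t : ℝ} (h0 : 0 ≤ t) (h1 : t ≤ 3 / 4) :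
    (1 - t)⁻¹ ≤ Real.exp (4 * t) := by
  rw [inv_le_iff_one_le_mul₀ (by linarith)]
  have h := Real.add_one_le_exp (4 * t)
  nlinarith

end Sv

open Sv in
theorem sieve (hc : StmCheb) : StmSieve := by
  intro P _ ν ρ h
  classical
  obtain ⟨c₁, c₂, hc1, hc2, hlow, hup⟩ := hc P ν ρ h
  set D0 : ℝ := max 1 ((2 * c₂ / c₁) ^ 2) with hD0
  have hD01 : 1 ≤ D0 := le_max_left _ _
  have hD0pos : 0 < D0 := by linarith
  refine ⟨c₁ / (2 * c₂ * D0), 8, by positivity, by norm_num, ?_⟩
  intro V x hx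
  have hx0 : 0 < x := by linarith
  set t : P → ℝ := fun q => 1 / Real.sqrt (ν q : ℝ) with ht
  have ht0 : ∀ q, 0 ≤ t q := fun q => by positivity
  have ht34 : ∀ q, t q ≤ 3 / 4 := by
    intro q
    have hq : (2 : ℝ) ≤ ν q := by exact_mod_cast h.two_le q
    have h1 : (4 / 3 : ℝ) ≤ Real.sqrt (ν q) := by
      apply Real.le_sqrt_of_sq_le
      norm_num
      linarith
    simp only [ht]
    rw [div_le_iff₀ (by linarith)]
    linarith
  have hEuler : ∀ S : Finset (P →₀ ℕ), (∀ d ∈ S, d.support ⊆ V) →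
      ∑ d ∈ S, 1 / Real.sqrt (nrm ν d : ℝ) ≤ Real.exp (4 * hw ν V) := by
    intro S hS
    calc ∑ d ∈ S, 1 / Real.sqrt (nrm ν d : ℝ)
        = ∑ d ∈ S, d.prod (fun q a => t q ^ a) :=
          Finset.sum_congr rfl (fun d _ => inv_sqrt_nrm ν d)
      _ ≤ ∏ q ∈ V, (1 - t q)⁻¹ :=
          sum_le_prod t ht0 (fun q => lt_of_le_of_lt (ht34 q) (by norm_num)) V S hS
      _ ≤ ∏ q ∈ V, Real.exp (4 * t q) := by
          apply Finset.prod_le_prod
          · intro q _
            exact inv_nonneg.2 (by linarith [ht34 q])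
          · intro q _
            exact one_sub_inv_le_exp (ht0 q) (ht34 q)
      _ = Real.exp (4 * hw ν V) := by
          rw [← Real.exp_sum]
          congr 1
          unfold hw
          rw [Finset.mul_sum]
  set D : ℝ := D0 * Real.exp (8 * hw ν V) with hD
  have hDpos : 0 < D := by positivity
  -- the finite set of `d`
  have hSfin : {d : P →₀ ℕ | (nrm ν d : ℝ) ≤ x ∧ d.support ⊆ V}.Finite :=
    (h.fin x).subset (fun d hd => hd.1)
  set S : Finset (P →₀ ℕ) := hSfin.toFinset with hSdef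
  have hS : ∀ d, d ∈ S ↔ (nrm ν d : ℝ) ≤ x ∧ d.support ⊆ V := by
    intro d
    rw [hSdef, Set.Finite.mem_toFinset]
    rfl
  have h1 := cnt_le_sum ν ρ h V x S hS
  have h0 : c₁ * x ≤ ∑ d ∈ S, fc ν V ∅ (x / nrm ν d) := le_trans (hlow x hx) h1
  have hfc0 : 0 ≤ fc ν V ∅ x := by unfold fc; positivity
  have hsum : ∑ d ∈ S, fc ν V ∅ (x / nrm ν d) ≤
      c₂ * D * fc ν V ∅ x + c₂ * x * (1 / Real.sqrt D) * Real.exp (4 * hw ν V) := by
    rw [← Finset.sum_filter_add_sum_filter_not S (fun d => (nrm ν d : ℝ) ≤ D)]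
    apply add_le_add
    · calc ∑ d ∈ S.filter (fun d => (nrm ν d : ℝ) ≤ D), fc ν V ∅ (x / nrm ν d)
          ≤ ∑ d ∈ S.filter (fun d => (nrm ν d : ℝ) ≤ D), fc ν V ∅ x := by
            apply Finset.sum_le_sum
            intro d _
            apply fc_mono ν ρ h
            have hd1 : (1 : ℝ) ≤ nrm ν d := by exact_mod_cast nrm_pos h.two_le d
            exact div_le_self hx0.le hd1
        _ = ((S.filter (fun d => (nrm ν d : ℝ) ≤ D)).card : ℝ) * fc ν V ∅ x := by
            rw [Finset.sum_const, nsmul_eq_mul]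
        _ ≤ c₂ * D * fc ν V ∅ x := by
            apply mul_le_mul_of_nonneg_right _ hfc0
            refine le_trans ?_ (hup D hDpos.le)
            unfold cnt
            rw [Set.ncard_eq_toFinset_card _ (h.fin D)]
            norm_cast
            apply Finset.card_le_card
            intro d hd
            rw [Set.Finite.mem_toFinset]
            exact (Finset.mem_filter.1 hd).2
    · calc ∑ d ∈ S.filter (fun d => ¬ (nrm ν d : ℝ) ≤ D), fc ν V ∅ (x / nrm ν d)
          ≤ ∑ d ∈ S.filter (fun d => ¬ (nrm ν d : ℝ) ≤ D),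
              c₂ * x * (1 / Real.sqrt D) * (1 / Real.sqrt (nrm ν d : ℝ)) := by
            apply Finset.sum_le_sum
            intro d hd
            have hdD : D < nrm ν d := not_le.1 (Finset.mem_filter.1 hd).2
            have hd0 : (0 : ℝ) < nrm ν d := lt_trans hDpos hdD
            refine le_trans (fc_le_cnt ν ρ h V ∅ _) ?_
            refine le_trans (hup _ (by positivity)) ?_
            have hsq : Real.sqrt (nrm ν d : ℝ) * Real.sqrt (nrm ν d : ℝ) = nrm ν d :=
              Real.mul_self_sqrt hd0.le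
            have hsD : Real.sqrt D ≤ Real.sqrt (nrm ν d : ℝ) := Real.sqrt_le_sqrt hdD.le
            have hsDpos : 0 < Real.sqrt D := Real.sqrt_pos.2 hDpos
            have hsdpos : 0 < Real.sqrt (nrm ν d : ℝ) := Real.sqrt_pos.2 hd0
            have e1 : c₂ * (x / (nrm ν d : ℝ)) =
                c₂ * x * (1 / Real.sqrt (nrm ν d : ℝ)) * (1 / Real.sqrt (nrm ν d : ℝ)) := by
              rw [← hsq]
              field_simp
              rw [Real.sqrt_sq hsdpos.le]
            rw [e1]
            apply mul_le_mul_of_nonneg_right _ (by positivity)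
            apply mul_le_mul_of_nonneg_left _ (by positivity)
            exact one_div_le_one_div_of_le hsDpos hsD
        _ = c₂ * x * (1 / Real.sqrt D) *
              ∑ d ∈ S.filter (fun d => ¬ (nrm ν d : ℝ) ≤ D), 1 / Real.sqrt (nrm ν d : ℝ) := by
            rw [Finset.mul_sum]
        _ ≤ c₂ * x * (1 / Real.sqrt D) * Real.exp (4 * hw ν V) := by
            apply mul_le_mul_of_nonneg_left _ (by positivity)
            apply hEuler
            intro d hd
            exact ((hS d).1 (Finset.mem_filter.1 hd).1).2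
  have hsqrtD : Real.sqrt D = Real.sqrt D0 * Real.exp (4 * hw ν V) := by
    rw [hD, Real.sqrt_mul hD0pos.le]
    congr 1
    rw [show (8 * hw ν V : ℝ) = 4 * hw ν V + 4 * hw ν V by ring, Real.exp_add]
    exact Real.sqrt_mul_self (Real.exp_pos _).le
  have hsD0 : 2 * c₂ / c₁ ≤ Real.sqrt D0 := by
    apply Real.le_sqrt_of_sq_le
    exact le_max_right _ _
  have hsD0pos : 0 < Real.sqrt D0 := Real.sqrt_pos.2 hD0pos
  have hlast : c₂ * x * (1 / Real.sqrt D) * Real.exp (4 * hw ν V) ≤ c₁ * x / 2 := by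
    rw [hsqrtD]
    have hE := Real.exp_pos (4 * hw ν V)
    have e : c₂ * x * (1 / (Real.sqrt D0 * Real.exp (4 * hw ν V))) * Real.exp (4 * hw ν V) =
        c₂ * x / Real.sqrt D0 := by
      field_simp
    rw [e, div_le_iff₀ hsD0pos]
    have h3 : 2 * c₂ ≤ c₁ * Real.sqrt D0 := by
      rw [div_le_iff₀ hc1] at hsD0
      linarith
    nlinarith
  have hfinal : c₁ * x / 2 ≤ c₂ * D * fc ν V ∅ x := by linarith
  rw [Real.exp_neg]
  have hE8 := Real.exp_pos (8 * hw ν V)
  rw [← div_eq_mul_inv, div_le_iff₀ hE8, div_mul_eq_mul_div, div_le_iff₀ (by positivity)]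
  rw [hD] at hfinal
  nlinarith

end R130.CF
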