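import Pool.Agent.R130.CF.MainThm
import Pool.Agent.R130.CF.Cheb
import Pool.Agent.R130.CF.Dens
import Pool.Agent.R130.CF.Comb
import Pool.Agent.R130.CF.Sieve
import Pool.Agent.R130.CF.Mom
import Pool.Agent.R130.CF.Pair
import Pool.Agent.R130.CF.Coup
import Pool.Agent.R130.CF.NF

/-!
# MP_f07b9f : the abstract structure theorem
-/

namespace R130.CF

theorem main : StmMain :=
  mainThm shift dens (sieve cheb) (mom cheb summ dvd)
    (coup dens comb (pair cheb summ shift dens))
    (coupGap dens combGap (pair cheb summ shift dens) (pairGap cheb summ shift dens))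

end R130.CF
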