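import Pool.Agent.R130.CF.Defs

/-!
# MP_f07b9f : basic lemmas
-/

open Filter Topology

namespace R130.CF

variable {P : Type} [DecidableEq P] {ν : P → ℕ} {ρ : ℝ}

theorem nrm_add (ν : P → ℕ) (a b : P →₀ ℕ) : nrm ν (a + b) = nrm ν a * nrm ν b := by
  unfold nrm
  exact Finsupp.prod_add_index' (by simp) (by intro p m n; exact pow_add _ _ _)

theorem nrm_zero (ν : P → ℕ) : nrm ν (0 : P →₀ ℕ) = 1 := by
  simp [nrm]

theorem nrm_single (ν : P → ℕ) (q : P) (n : ℕ) : nrm ν (Finsupp.single q n) = ν q ^ n := by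
  unfold nrm
  exact Finsupp.prod_single_index (by simp)

theorem nrm_pos (h2 : ∀ p, 2 ≤ ν p) (θ : P →₀ ℕ) : 0 < nrm ν θ := by
  unfold nrm Finsupp.prod
  exact Finset.prod_pos fun p _ => pow_pos (by have := h2 p; omega) _

/-- the elements of `A` of type `S` -/
def ty (T : Finset P) (A : Set (P →₀ ℕ)) (S : Finset P) : Set (P →₀ ℕ) :=
  {θ ∈ A | θ.support ∩ T = S}

theorem ty_subset (T : Finset P) (A : Set (P →₀ ℕ)) (S : Finset P) : ty T A S ⊆ A :=
  fun _ h => h.1

/-- partition of a finite set into types -/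
theorem ncard_eq_sum_ty (T : Finset P) (A : Set (P →₀ ℕ)) (hA : A.Finite) :
    A.ncard = ∑ S ∈ T.powerset, (ty T A S).ncard := by
  classical
  obtain ⟨s, rfl⟩ : ∃ s : Finset (P →₀ ℕ), (s : Set (P →₀ ℕ)) = A := ⟨hA.toFinset, by simp⟩
  rw [Set.ncard_coe_finset]
  rw [Finset.card_eq_sum_card_fiberwise (f := fun θ : P →₀ ℕ => θ.support ∩ T) (t := T.powerset)]
  · refine Finset.sum_congr rfl fun S hS => ?_
    rw [← Set.ncard_coe_finset]
    congr 1
    ext θ
    simp [ty]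
  · intro θ hθ
    simp

end R130.CF
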