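import Pool.Agent.R130.CF.Basic

/-!
# MP_f07b9f : cardinalities of the types
-/

open Filter Topology

namespace R130.CF

variable {P : Type} [DecidableEq P] {ν : P → ℕ} {ρ : ℝ}

theorem fc_split (h : Sys ν ρ) (V E : Finset P) (q : P) (hq : q ∉ V) (hE : E ⊆ V) (x : ℝ) :
    fc ν V E x = fc ν (insert q V) E x + fc ν (insert q V) (insert q E) x := by
  classical
  unfold fc
  rw [← Nat.cast_add, Nat.cast_inj]
  have hqE : q ∉ E := fun hh => hq (hE hh)
  have h1 : Fc ν V E x = Fc ν (insert q V) E x ∪ Fc ν (insert q V) (insert q E) x := by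
    ext θ
    simp only [Fc, Set.mem_setOf_eq, Set.mem_union]
    constructor
    · rintro ⟨h1, h2⟩
      by_cases hqθ : q ∈ θ.support
      · right
        refine ⟨h1, ?_⟩
        rw [Finset.inter_insert_of_mem hqθ, h2]
      · left
        refine ⟨h1, ?_⟩
        rw [Finset.inter_insert_of_notMem hqθ, h2]
    · rintro (⟨h1, h2⟩ | ⟨h1, h2⟩)
      · refine ⟨h1, ?_⟩
        have hqθ : q ∉ θ.support := by
          intro hh
          apply hqE
          rw [← h2]
          exact Finset.mem_inter.mpr ⟨hh, Finset.mem_insert_self _ _⟩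
        rwa [Finset.inter_insert_of_notMem hqθ] at h2
      · refine ⟨h1, ?_⟩
        have hqθ : q ∈ θ.support := by
          have : q ∈ θ.support ∩ insert q V := by
            rw [h2]
            exact Finset.mem_insert_self _ _
          exact (Finset.mem_inter.mp this).1
        rw [Finset.inter_insert_of_mem hqθ] at h2
        have h3 := congrArg (fun s => Finset.erase s q) h2
        rw [Finset.erase_insert (by simp [hq]), Finset.erase_insert hqE] at h3
        exact h3
  rw [h1]
  apply Set.ncard_union_eq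
  · rw [Set.disjoint_left]
    rintro θ ⟨_, h2⟩ ⟨_, h3⟩
    rw [h2] at h3
    exact hqE (h3 ▸ Finset.mem_insert_self _ _)
  · exact (h.fin x).subset fun _ hx => hx.1
  · exact (h.fin x).subset fun _ hx => hx.1

theorem fc_of_lt_one (h : Sys ν ρ) (V E : Finset P) {x : ℝ} (hx : x < 1) : fc ν V E x = 0 := by
  unfold fc
  have : Fc ν V E x = ∅ := by
    rw [Set.eq_empty_iff_forall_notMem]
    intro θ hθ
    have h1 : (nrm ν θ : ℝ) ≤ x := hθ.1
    have h2 : (1 : ℝ) ≤ (nrm ν θ : ℝ) := by exact_mod_cast nrm_pos h.two_le θ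
    linarith
  rw [this]
  simp

/-- recursion for primes of norm 2 -/
theorem fc_rec (hsh : StmShift) (h : Sys ν ρ) (T S : Finset P) (q : P) (hS : S ⊆ T) (hq : q ∈ S)
    (hq2 : ν q = 2) (x : ℝ) :
    fc ν T S x = fc ν T (S.erase q) (x / 2) + fc ν T S (x / 2) := by
  have h1 := hsh P ν ρ h (T.erase q) (S.erase q) q x (Finset.erase_subset_erase q hS)
    (Finset.notMem_erase _ _)
  rw [Finset.insert_erase (hS hq), Finset.insert_erase hq] at h1
  have h2 := fc_split h (T.erase q) (S.erase q) q (Finset.notMem_erase _ _)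
    (Finset.erase_subset_erase q hS) (x / ν q)
  rw [Finset.insert_erase (hS hq), Finset.insert_erase hq] at h2
  rw [h1, h2, hq2]
  norm_num

/-- the number of elements of type `S` -/
theorem fc_formula (hsh : StmShift) (h : Sys ν ρ) (T : Finset P) (hT : ∀ p ∈ T, ν p = 2) (M : ℕ) :
    ∀ (x : ℝ), x < 2 ^ M → ∀ S : Finset P, S ⊆ T → S.Nonempty →
      fc ν T S x = ∑ m ∈ Finset.range M, (m.choose (S.card - 1) : ℝ) * fc ν T ∅ (x / 2 ^ (m + 1)) := by
  induction M with
  | zero =>
    intro x hx S _ _
    rw [fc_of_lt_one h T S (by simpa using hx)]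
    simp
  | succ M ih =>
    intro x hx S hS hne
    obtain ⟨q, hq⟩ := hne
    have hx2 : x / 2 < 2 ^ M := by
      rw [pow_succ] at hx
      linarith
    rw [fc_rec hsh h T S q hS hq (hT q (hS hq)) x, ih (x / 2) hx2 S hS ⟨q, hq⟩,
      Finset.sum_range_succ']
    have e1 : ∀ m : ℕ, x / 2 / 2 ^ (m + 1) = x / 2 ^ (m + 1 + 1) := by
      intro m
      rw [pow_succ 2 (m + 1)]
      field_simp
    rcases (Finset.card_pos.mpr ⟨q, hq⟩ : 0 < S.card) with hpos
    by_cases hone : S.card = 1
    · -- S = {q}
      have hSq : S.erase q = ∅ := by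
        rw [← Finset.card_eq_zero, Finset.card_erase_of_mem hq]
        omega
      rw [hSq, hone]
      simp only [Nat.sub_self, Nat.choose_zero_right, Nat.cast_one, one_mul, zero_add, pow_one]
      rw [add_comm]
      congr 1
      refine Finset.sum_congr rfl fun m _ => ?_
      rw [e1]
    · have hcard : (S.erase q).card = S.card - 1 := Finset.card_erase_of_mem hq
      have hne' : (S.erase q).Nonempty := by
        rw [← Finset.card_pos, hcard]
        omega
      rw [ih (x / 2) hx2 (S.erase q) ((Finset.erase_subset _ _).trans hS) hne', hcard]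
      obtain ⟨r, hr⟩ : ∃ r, S.card - 1 = r + 1 := ⟨S.card - 2, by omega⟩
      rw [hr]
      have z : ((0 : ℕ).choose (r + 1) : ℝ) = 0 := by simp
      rw [z, zero_mul, add_zero, ← Finset.sum_add_distrib]
      refine Finset.sum_congr rfl fun m _ => ?_
      rw [e1, Nat.choose_succ_succ, Nat.add_sub_cancel]
      push_cast
      ring

end R130.CF
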