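import Pool.Agent.R130.CF.Main

/-!
# MP_f07b9f : the structure of the extremal sets (core argument for fixed `N`)
-/

open Filter Topology

namespace R130.CF

variable {P : Type} [DecidableEq P] {ν : P → ℕ} {ρ : ℝ}

theorem copFree_fam (T : Finset P) (F : Set (Finset P)) (hF : MaxInt T F) (N : ℝ) :
    CopFree {θ ∈ Th ν N | θ.support ∩ T ∈ F} := by
  intro θ hθ θ' hθ' _ hd
  have h := hF.2.2 _ hθ.2 _ hθ'.2
  apply h
  exact Disjoint.mono Finset.inter_subset_left Finset.inter_subset_left hd

set_option linter.unusedVariables false in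
/-- core argument -/
theorem core (h : Sys ν ρ) (hsh : StmShift) (T : Finset P) (hT : ∀ p, p ∈ T ↔ ν p = 2)
    (A : Set (P →₀ ℕ)) (N : ℝ) (hN : 2 ^ T.card ≤ N)
    (hext : IsExt ν N A) (hint : Inter A)
    {β ε Hs c C Cl : ℝ} (hβ : 0 < β) (hHs : 0 ≤ Hs) (hc : 0 < c) (hC : 0 < C) (hCl : 0 < Cl)
    (hε : 0 < ε) (hε2 : (2 ^ T.card + 2) * ε < β * Real.exp (-(12 * Hs)))
    (hε3 : (2 * (2 ^ T.card + 1) + 1) * ε < β / 2)
    (hlow : (2 ^ T.card * β - 2 * ε) * N ≤ 2 * (A.ncard : ℝ))
    (hcoup : ∀ S S', S ⊆ T → S' ⊆ T → Disjoint S S' →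
      ((ty T A S).ncard : ℝ) + ((ty T A S').ncard : ℝ) ≤ (β + ε) * N)
    (hgap : ∀ S S', S ⊆ T → S' ⊆ T → Disjoint S S' →
      ∀ Q : Finset P, Disjoint Q T → hw ν Q ≤ 2 * Hs →
      (∀ θ ∈ A, (θ.support ∩ T = S ∨ θ.support ∩ T = S') → ¬ Disjoint θ.support Q) →
      ((ty T A S).ncard : ℝ) + ((ty T A S').ncard : ℝ) ≤
        (β * (1 - Real.exp (-(6 * (2 * Hs)))) + ε) * N)
    (hmom : ∀ H : ℝ, (({θ ∈ Th ν N | H ≤ hw ν (θ.support \ T)}).ncard : ℝ) ≤
      Cl * Real.exp (-((C + 1) * H)) * N)
    (hsv : ∀ (V : Finset P) (x : ℝ), 1 ≤ x → c * x * Real.exp (-(C * hw ν V)) ≤ fc ν V ∅ x)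
    (hH1 : Cl * Real.exp (-((C + 1) * Hs)) ≤ β / 4)
    (hH2 : Cl * 2 ^ T.card * Real.exp (C * hw ν T) < c * Real.exp Hs) :
    ∃ F : Set (Finset P), MaxInt T F ∧ A = {θ ∈ Th ν N | θ.support ∩ T ∈ F} := by
  classical
  have hN0 : 0 < N := lt_of_lt_of_le (by positivity) hN
  have hAfin : A.Finite := (h.fin N).subset hext.1
  have hThfin : (Th ν N).Finite := h.fin N
  set X : Finset P → ℝ := fun S => ((ty T A S).ncard : ℝ) with hX
  have hX0 : ∀ S, 0 ≤ X S := fun S => Nat.cast_nonneg _
  -- total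
  have htot : (A.ncard : ℝ) = ∑ S ∈ T.powerset, X S := by
    rw [ncard_eq_sum_ty T A hAfin]
    push_cast
    rfl
  have hcompl : ∑ S ∈ T.powerset, X (T \ S) = ∑ S ∈ T.powerset, X S := by
    refine Finset.sum_nbij' (fun S => T \ S) (fun S => T \ S) ?_ ?_ ?_ ?_ ?_
    · intro S _
      simp
    · intro S _
      simp
    · intro S hS
      simp only [Finset.mem_powerset] at hS
      simp [Finset.inter_eq_right.mpr hS]
    · intro S hS
      simp only [Finset.mem_powerset] at hS
      simp [Finset.inter_eq_right.mpr hS]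
    · intro S _
      rfl
  have htot2 : 2 * (A.ncard : ℝ) = ∑ S ∈ T.powerset, (X S + X (T \ S)) := by
    rw [Finset.sum_add_distrib, hcompl, htot]
    ring
  have hYup : ∀ S, S ⊆ T → X S + X (T \ S) ≤ (β + ε) * N := fun S hS =>
    hcoup S (T \ S) hS Finset.sdiff_subset Finset.disjoint_sdiff
  -- each pair is large
  have hYlow : ∀ S, S ⊆ T → (β - (2 ^ T.card + 1) * ε) * N ≤ X S + X (T \ S) := by
    intro S hS
    have h1 : ∑ S' ∈ T.powerset.erase S, (X S' + X (T \ S')) ≤
        ((T.powerset.erase S).card : ℝ) * ((β + ε) * N) := by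
      have := Finset.sum_le_card_nsmul (T.powerset.erase S) (fun S' => X S' + X (T \ S'))
        ((β + ε) * N) (fun S' hS' => hYup S' (Finset.mem_powerset.mp (Finset.mem_erase.mp hS').2))
      rwa [nsmul_eq_mul] at this
    have h2 : ∑ S' ∈ T.powerset, (X S' + X (T \ S')) = (X S + X (T \ S)) +
        ∑ S' ∈ T.powerset.erase S, (X S' + X (T \ S')) :=
      (Finset.add_sum_erase _ _ (Finset.mem_powerset.mpr hS)).symm
    have h3 : ((T.powerset.erase S).card : ℝ) = 2 ^ T.card - 1 := by
      rw [Finset.card_erase_of_mem (Finset.mem_powerset.mpr hS), Finset.card_powerset]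
      rw [Nat.cast_sub Nat.one_le_two_pow]
      push_cast
      ring
    rw [h3] at h1
    nlinarith
  -- the family
  set F : Set (Finset P) := {S | S ⊆ T ∧ ∃ θ ∈ A, θ.support ∩ T = S ∧
    hw ν (θ.support \ T) ≤ Hs} with hF
  -- sets outside the family are small
  have hsmall : ∀ S, S ⊆ T → S ∉ F → X S ≤ β / 4 * N := by
    intro S hS hSF
    have h1 : ty T A S ⊆ {θ ∈ Th ν N | Hs ≤ hw ν (θ.support \ T)} := by
      intro θ hθ
      refine ⟨hext.1 hθ.1, ?_⟩
      by_contra hlt
      push Not at hlt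
      exact hSF ⟨hS, θ, hθ.1, hθ.2, hlt.le⟩
    have h2 : X S ≤ (({θ ∈ Th ν N | Hs ≤ hw ν (θ.support \ T)}).ncard : ℝ) := by
      exact Nat.cast_le.mpr (Set.ncard_le_ncard h1 (hThfin.subset fun _ hx => hx.1))
    refine h2.trans ((hmom Hs).trans ?_)
    exact mul_le_mul_of_nonneg_right hH1 hN0.le
  have hexp1 : Real.exp (-(12 * Hs)) ≤ 1 := by
    apply Real.exp_le_one_iff.mpr
    linarith
  -- not both
  have hnotboth : ∀ S, S ⊆ T → S ∈ F → T \ S ∉ F := by
    intro S hS hSF hSF'
    obtain ⟨_, θ, hθA, hθT, hθH⟩ := hSF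
    obtain ⟨_, θ', hθA', hθT', hθH'⟩ := hSF'
    have hg := hgap S (T \ S) hS Finset.sdiff_subset Finset.disjoint_sdiff
      ((θ.support \ T) ∪ (θ'.support \ T)) (by
        rw [Finset.disjoint_union_left]
        exact ⟨Finset.sdiff_disjoint, Finset.sdiff_disjoint⟩)
      ((hw_union_le ν _ _).trans (by linarith)) (by
        intro φ hφ hφT hd
        rw [Finset.disjoint_union_right] at hd
        rcases hφT with hφT | hφT
        · -- φ of type S, compare with θ'
          apply hint φ hφ θ' hθA'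
          rw [Finset.disjoint_left]
          intro p hp hp'
          by_cases hpT : p ∈ T
          · have a1 : p ∈ S := by
              rw [← hφT]
              exact Finset.mem_inter.mpr ⟨hp, hpT⟩
            have a2 : p ∈ T \ S := by
              rw [← hθT']
              exact Finset.mem_inter.mpr ⟨hp', hpT⟩
            exact (Finset.mem_sdiff.mp a2).2 a1
          · exact Finset.disjoint_left.mp hd.2 hp (Finset.mem_sdiff.mpr ⟨hp', hpT⟩)
        · apply hint φ hφ θ hθA
          rw [Finset.disjoint_left]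
          intro p hp hp'
          by_cases hpT : p ∈ T
          · have a1 : p ∈ T \ S := by
              rw [← hφT]
              exact Finset.mem_inter.mpr ⟨hp, hpT⟩
            have a2 : p ∈ S := by
              rw [← hθT]
              exact Finset.mem_inter.mpr ⟨hp', hpT⟩
            exact (Finset.mem_sdiff.mp a1).2 a2
          · exact Finset.disjoint_left.mp hd.1 hp (Finset.mem_sdiff.mpr ⟨hp', hpT⟩))
    have h1 := hYlow S hS
    have h2 : (β - (2 ^ T.card + 1) * ε) * N ≤
        (β * (1 - Real.exp (-(6 * (2 * Hs)))) + ε) * N := h1.trans hg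
    have h3 := le_of_mul_le_mul_right h2 hN0
    have e1 : (6 * (2 * Hs)) = 12 * Hs := by ring
    rw [e1] at h3
    nlinarith
  -- at least one
  have hone : ∀ S, S ⊆ T → S ∉ F → T \ S ∈ F := by
    intro S hS hSF
    by_contra hSF'
    have h1 := hsmall S hS hSF
    have h2 := hsmall (T \ S) Finset.sdiff_subset hSF'
    have h3 := hYlow S hS
    have h4 : (β - (2 ^ T.card + 1) * ε) * N ≤ (β / 2) * N := by linarith
    have h5 := le_of_mul_le_mul_right h4 hN0
    have h6 : (0 : ℝ) < 2 ^ T.card := by positivity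
    nlinarith
  have hlarge : ∀ S ∈ F, (3 / 4 * β - (2 ^ T.card + 1) * ε) * N ≤ X S := by
    intro S hSF
    have h1 := hsmall (T \ S) Finset.sdiff_subset (hnotboth S hSF.1 hSF)
    have h2 := hYlow S hSF.1
    linarith
  have hF3 : ∀ S ∈ F, ∀ S' ∈ F, ¬ Disjoint S S' := by
    intro S hS S' hS' hd
    have h1 := hlarge S hS
    have h2 := hlarge S' hS'
    have h3 := hcoup S S' hS.1 hS'.1 hd
    have h4 : (2 * (3 / 4 * β - (2 ^ T.card + 1) * ε)) * N ≤ (β + ε) * N := by
      have : X S + X S' ≤ (β + ε) * N := h3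
      linarith
    have h5 := le_of_mul_le_mul_right h4 hN0
    linarith
  have hMax : MaxInt T F := by
    refine ⟨fun S hS => hS.1, fun S hS => ⟨hnotboth S hS, fun hn => ?_⟩, hF3⟩
    by_contra hSF
    exact hn (hone S hS hSF)
  -- the comparison
  set AF : Set (P →₀ ℕ) := {θ ∈ Th ν N | θ.support ∩ T ∈ F} with hAF
  have hAFsub : AF ⊆ Th ν N := fun _ hx => hx.1
  have hAFfin : AF.Finite := hThfin.subset hAFsub
  have hle : AF.ncard ≤ A.ncard := hext.2.2 AF hAFsub (copFree_fam T F hMax N)
  have hcomp : ∀ S ∈ F, (X S + X (T \ S) ≤ ((ty T (Th ν N) S).ncard : ℝ)) ∧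
      (X (T \ S) ≠ 0 → X S + X (T \ S) < ((ty T (Th ν N) S).ncard : ℝ)) := by
    intro S hSF
    have hsub : ty T A S ⊆ ty T (Th ν N) S := fun θ hθ => ⟨hext.1 hθ.1, hθ.2⟩
    have hTyfin : (ty T (Th ν N) S).Finite := hThfin.subset (ty_subset _ _ _)
    by_cases hz : X (T \ S) = 0
    · refine ⟨?_, fun hne => absurd hz hne⟩
      rw [hz, add_zero]
      exact Nat.cast_le.mpr (Set.ncard_le_ncard hsub hTyfin)
    · have hne : (ty T A (T \ S)).Nonempty := by
        by_contra hemp
        rw [Set.not_nonempty_iff_eq_empty] at hemp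
        apply hz
        show ((ty T A (T \ S)).ncard : ℝ) = 0
        rw [hemp]
        simp
      have hfin' : (ty T A (T \ S)).Finite := hAfin.subset (ty_subset _ _ _)
      obtain ⟨θ', hθ', hmin⟩ := Set.exists_min_image (ty T A (T \ S))
        (fun θ => hw ν (θ.support \ T)) hfin' hne
      set h' : ℝ := hw ν (θ'.support \ T) with hh'
      have hHs' : Hs < h' := by
        by_contra hle'
        push Not at hle'
        exact hnotboth S hSF.1 hSF ⟨Finset.sdiff_subset, θ', hθ'.1, hθ'.2, hle'⟩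
      have hup : X (T \ S) ≤ Cl * Real.exp (-((C + 1) * h')) * N := by
        refine le_trans ?_ (hmom h')
        have : ty T A (T \ S) ⊆ {θ ∈ Th ν N | h' ≤ hw ν (θ.support \ T)} := by
          intro θ hθ
          exact ⟨hext.1 hθ.1, hmin θ hθ⟩
        exact Nat.cast_le.mpr (Set.ncard_le_ncard this (hThfin.subset fun _ hx => hx.1))
      have hlo := coprime_lower hsh h hc hC hsv T S (fun p hp => (hT p).mp hp) hSF.1 N hN
        θ'.support (by rw [hθ'.2])
      have hnum : Cl * Real.exp (-((C + 1) * h')) * N <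
          c / 2 ^ T.card * N * Real.exp (-(C * (hw ν T + h'))) := by
        have e1 : Real.exp (-((C + 1) * h')) = Real.exp (-(C * h')) * Real.exp (-h') := by
          rw [← Real.exp_add]; congr 1; ring
        have e2 : Real.exp (-(C * (hw ν T + h'))) =
            Real.exp (-(C * h')) * Real.exp (-(C * hw ν T)) := by
          rw [← Real.exp_add]; congr 1; ring
        rw [e1, e2]
        have k1 : Cl * Real.exp (-h') < c / 2 ^ T.card * Real.exp (-(C * hw ν T)) := by
          have m1 : Real.exp (-h') < Real.exp (-Hs) := Real.exp_lt_exp.mpr (by linarith)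
          have m2 : Cl * Real.exp (-Hs) < c / 2 ^ T.card * Real.exp (-(C * hw ν T)) := by
            have p2 : (0 : ℝ) < 2 ^ T.card := by positivity
            have n1 : 0 < Real.exp (-Hs) := Real.exp_pos _
            have n2 : 0 < Real.exp (-(C * hw ν T)) := Real.exp_pos _
            have n3 : Real.exp Hs * Real.exp (-Hs) = 1 := by
              rw [← Real.exp_add]; simp
            have n4 : Real.exp (C * hw ν T) * Real.exp (-(C * hw ν T)) = 1 := by
              rw [← Real.exp_add]; simp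
            rw [div_mul_eq_mul_div, lt_div_iff₀ p2]
            have := mul_lt_mul_of_pos_right hH2 (mul_pos n1 n2)
            calc Cl * Real.exp (-Hs) * 2 ^ T.card
                = Cl * 2 ^ T.card * (Real.exp (C * hw ν T) * Real.exp (-(C * hw ν T))) *
                    Real.exp (-Hs) := by rw [n4]; ring
              _ = Cl * 2 ^ T.card * Real.exp (C * hw ν T) *
                    (Real.exp (-Hs) * Real.exp (-(C * hw ν T))) := by ring
              _ < c * Real.exp Hs * (Real.exp (-Hs) * Real.exp (-(C * hw ν T))) := this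
              _ = c * (Real.exp Hs * Real.exp (-Hs)) * Real.exp (-(C * hw ν T)) := by ring
              _ = c * Real.exp (-(C * hw ν T)) := by rw [n3]; ring
          nlinarith
        have k2 : 0 < Real.exp (-(C * h')) * N := mul_pos (Real.exp_pos _) hN0
        nlinarith [mul_lt_mul_of_pos_right k1 k2]
      -- disjointness
      have hdisj : Disjoint (ty T A S) (Fc ν (T ∪ θ'.support) S N) := by
        rw [Set.disjoint_left]
        intro φ hφ hφ'
        apply hint φ hφ.1 θ' hθ'.1
        rw [Finset.disjoint_left]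
        intro p hp hp'
        have b1 : p ∈ S := by
          rw [← hφ'.2]
          exact Finset.mem_inter.mpr ⟨hp, Finset.mem_union_right _ hp'⟩
        have b2 : p ∈ T \ S := by
          rw [← hθ'.2]
          exact Finset.mem_inter.mpr ⟨hp', hSF.1 b1⟩
        exact (Finset.mem_sdiff.mp b2).2 b1
      have hsub2 : Fc ν (T ∪ θ'.support) S N ⊆ ty T (Th ν N) S := by
        intro φ hφ
        refine ⟨hφ.1, ?_⟩
        have e := hφ.2
        ext p
        rw [Finset.mem_inter]
        constructor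
        · rintro ⟨a1, a2⟩
          rw [← e]
          exact Finset.mem_inter.mpr ⟨a1, Finset.mem_union_left _ a2⟩
        · intro a1
          refine ⟨?_, hSF.1 a1⟩
          rw [← e] at a1
          exact (Finset.mem_inter.mp a1).1
      have hadd : (ty T A S).ncard + (Fc ν (T ∪ θ'.support) S N).ncard ≤
          (ty T (Th ν N) S).ncard := by
        rw [← Set.ncard_union_eq hdisj (hAfin.subset (ty_subset _ _ _)) (hTyfin.subset hsub2)]
        exact Set.ncard_le_ncard (Set.union_subset hsub hsub2) hTyfin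
      have hadd' : X S + fc ν (T ∪ θ'.support) S N ≤ ((ty T (Th ν N) S).ncard : ℝ) := by
        have hc' : (((ty T A S).ncard + (Fc ν (T ∪ θ'.support) S N).ncard : ℕ) : ℝ) ≤
          ((ty T (Th ν N) S).ncard : ℝ) := Nat.cast_le.mpr hadd
        rw [Nat.cast_add] at hc'
        exact hc'
      have hlt : X S + X (T \ S) < ((ty T (Th ν N) S).ncard : ℝ) := by
        have := lt_of_le_of_lt hup (lt_of_lt_of_le hnum hlo)
        linarith
      exact ⟨hlt.le, fun _ => hlt⟩
  -- sums over F
  set Ff : Finset (Finset P) := T.powerset.filter (fun S => S ∈ F) with hFf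
  have hmemF : ∀ S, S ∈ Ff ↔ S ∈ F := by
    intro S
    rw [hFf, Finset.mem_filter, Finset.mem_powerset]
    exact ⟨fun hx => hx.2, fun hx => ⟨hx.1, hx⟩⟩
  have hsplit : ∑ S ∈ T.powerset, X S = ∑ S ∈ Ff, (X S + X (T \ S)) := by
    rw [Finset.sum_add_distrib, ← Finset.sum_filter_add_sum_filter_not T.powerset
      (fun S => S ∈ F) X]
    congr 1
    symm
    refine Finset.sum_nbij' (fun S => T \ S) (fun S => T \ S) ?_ ?_ ?_ ?_ ?_
    · intro S hS
      rw [hmemF] at hS
      simp only [Finset.mem_filter, Finset.mem_powerset]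
      exact ⟨Finset.sdiff_subset, hnotboth S hS.1 hS⟩
    · intro S hS
      simp only [Finset.mem_filter, Finset.mem_powerset] at hS
      rw [hmemF]
      exact hone S hS.1 hS.2
    · intro S hS
      rw [hmemF] at hS
      simp [Finset.inter_eq_right.mpr hS.1]
    · intro S hS
      simp only [Finset.mem_filter, Finset.mem_powerset] at hS
      simp [Finset.inter_eq_right.mpr hS.1]
    · intro S _
      rfl
  have hAFsum : (AF.ncard : ℝ) = ∑ S ∈ Ff, ((ty T (Th ν N) S).ncard : ℝ) := by
    rw [ncard_eq_sum_ty T AF hAFfin]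
    push_cast
    rw [← Finset.sum_filter_add_sum_filter_not T.powerset (fun S => S ∈ F)]
    have z : ∑ S ∈ T.powerset.filter (fun S => ¬ S ∈ F), ((ty T AF S).ncard : ℝ) = 0 := by
      refine Finset.sum_eq_zero fun S hS => ?_
      simp only [Finset.mem_filter, Finset.mem_powerset] at hS
      have : ty T AF S = ∅ := by
        rw [Set.eq_empty_iff_forall_notMem]
        intro θ hθ
        exact hS.2 (hθ.2 ▸ hθ.1.2)
      rw [this]
      simp
    rw [z, add_zero]
    refine Finset.sum_congr rfl fun S hS => ?_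
    congr 2
    ext θ
    constructor
    · intro hθ
      exact ⟨hθ.1.1, hθ.2⟩
    · intro hθ
      refine ⟨⟨hθ.1, ?_⟩, hθ.2⟩
      rw [hθ.2]
      exact (hmemF S).mp hS
  have hAle : (A.ncard : ℝ) = ∑ S ∈ Ff, (X S + X (T \ S)) := by rw [htot, hsplit]
  have heq : ∀ S ∈ Ff, X S + X (T \ S) = ((ty T (Th ν N) S).ncard : ℝ) := by
    have hle' : ∑ S ∈ Ff, ((ty T (Th ν N) S).ncard : ℝ) ≤ ∑ S ∈ Ff, (X S + X (T \ S)) := by
      rw [← hAFsum, ← hAle]
      exact_mod_cast hle
    have := (Finset.sum_eq_sum_iff_of_le (fun S hS => (hcomp S ((hmemF S).mp hS)).1)).mp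
      (le_antisymm (Finset.sum_le_sum fun S hS => (hcomp S ((hmemF S).mp hS)).1) hle')
    exact this
  have hzero : ∀ S ∈ F, X (T \ S) = 0 := by
    intro S hS
    by_contra hne
    exact absurd (heq S ((hmemF S).mpr hS)) (ne_of_lt ((hcomp S hS).2 hne))
  refine ⟨F, hMax, ?_⟩
  apply Set.Subset.antisymm
  · intro θ hθ
    refine ⟨hext.1 hθ, ?_⟩
    by_contra hn
    have hS : θ.support ∩ T ⊆ T := Finset.inter_subset_right
    have h1 := hone _ hS hn
    have h2 := hzero _ h1
    have h3 : T \ (T \ (θ.support ∩ T)) = θ.support ∩ T := by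
      rw [Finset.sdiff_sdiff_eq_self hS]
    rw [h3] at h2
    have h4 : (ty T A (θ.support ∩ T)).ncard = 0 := by
      have h2' : ((ty T A (θ.support ∩ T)).ncard : ℝ) = 0 := h2
      exact_mod_cast h2'
    rw [Set.ncard_eq_zero (hAfin.subset (ty_subset _ _ _))] at h4
    have : θ ∈ ty T A (θ.support ∩ T) := ⟨hθ, rfl⟩
    rw [h4] at this
    exact this
  · intro θ hθ
    set S := θ.support ∩ T with hS
    have hSF : S ∈ F := hθ.2
    have h1 := heq S ((hmemF S).mpr hSF)
    rw [hzero S hSF, add_zero] at h1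
    have h2 : (ty T A S).ncard = (ty T (Th ν N) S).ncard := by
      have h1' : ((ty T A S).ncard : ℝ) = ((ty T (Th ν N) S).ncard : ℝ) := h1
      exact_mod_cast h1'
    have h3 : ty T A S = ty T (Th ν N) S := by
      apply Set.eq_of_subset_of_ncard_le
      · intro φ hφ
        exact ⟨hext.1 hφ.1, hφ.2⟩
      · exact h2.ge
      · exact hThfin.subset (ty_subset _ _ _)
    have h4 : θ ∈ ty T (Th ν N) S := ⟨hθ.1, rfl⟩
    rw [← h3] at h4
    exact h4.1

end R130.CF
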