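import Mathlib

/-!
# MP_f07b9f : coprime-free sets of ideals with several primes of norm 2

Abstract setting: a set `P` of primes with norms `ν : P → ℕ`, `2 ≤ ν p`; an ideal is a
finitely supported multiplicity function `θ : P →₀ ℕ`, its norm is `∏ p, ν p ^ θ p`.
The statements of the independent pieces are the `Prop`s `Stm…` below.
-/

open Filter Topology

namespace R130.CF

noncomputable section

variable {P : Type} [DecidableEq P]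

/-- the norm of `θ` -/
def nrm (ν : P → ℕ) (θ : P →₀ ℕ) : ℕ := θ.prod (fun p a => ν p ^ a)

/-- all `θ` of norm at most `x` -/
def Th (ν : P → ℕ) (x : ℝ) : Set (P →₀ ℕ) := {θ | (nrm ν θ : ℝ) ≤ x}

/-- the number of `θ` of norm at most `x` -/
def cnt (ν : P → ℕ) (x : ℝ) : ℝ := ((Th ν x).ncard : ℝ)

/-- the set of `θ ∈ Th ν x` whose support meets `V` exactly in `E` -/
def Fc (ν : P → ℕ) (V E : Finset P) (x : ℝ) : Set (P →₀ ℕ) := {θ ∈ Th ν x | θ.support ∩ V = E}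

/-- the number of `θ` of norm at most `x` whose support meets `V` exactly in `E` -/
def fc (ν : P → ℕ) (V E : Finset P) (x : ℝ) : ℝ := ((Fc ν V E x).ncard : ℝ)

/-- an arithmetic semigroup with density `ρ` -/
structure Sys (ν : P → ℕ) (ρ : ℝ) : Prop where
  two_le : ∀ p, 2 ≤ ν p
  fin : ∀ x : ℝ, (Th ν x).Finite
  pos : 0 < ρ
  lim : Tendsto (fun x : ℝ => cnt ν x / x) atTop (𝓝 ρ)

/-- `h(Q) = ∑_{q ∈ Q} ν(q)^{-1/2}` -/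
def hw (ν : P → ℕ) (Q : Finset P) : ℝ := ∑ q ∈ Q, 1 / Real.sqrt (ν q)

/-- product weight of the subset `D` of `W` -/
def wt (p : P → ℝ) (W D : Finset P) : ℝ := (∏ q ∈ D, p q) * ∏ q ∈ W \ D, (1 - p q)

/-- pairwise (including an element with itself) non-coprime -/
def Inter (A : Set (P →₀ ℕ)) : Prop :=
  ∀ θ ∈ A, ∀ θ' ∈ A, ¬ Disjoint θ.support θ'.support

/-- coprime-free: no two distinct members are coprime -/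
def CopFree (A : Set (P →₀ ℕ)) : Prop :=
  ∀ θ ∈ A, ∀ θ' ∈ A, θ ≠ θ' → ¬ Disjoint θ.support θ'.support

/-- extremal coprime-free subsets of `Th ν N` -/
def IsExt (ν : P → ℕ) (N : ℝ) (A : Set (P →₀ ℕ)) : Prop :=
  A ⊆ Th ν N ∧ CopFree A ∧ ∀ B ⊆ Th ν N, CopFree B → B.ncard ≤ A.ncard

/-- maximal intersecting family of subsets of `T` -/
def MaxInt (T : Finset P) (F : Set (Finset P)) : Prop :=
  (∀ S ∈ F, S ⊆ T) ∧ (∀ S, S ⊆ T → (S ∈ F ↔ T \ S ∉ F)) ∧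
    ∀ S ∈ F, ∀ S' ∈ F, ¬ Disjoint S S'

/-! ## Statements of the pieces -/

/-- CF-CHEB (a): two-sided Chebyshev bound -/
def StmCheb : Prop := ∀ (P : Type) [DecidableEq P] (ν : P → ℕ) (ρ : ℝ), Sys ν ρ →
  ∃ c₁ c₂ : ℝ, 0 < c₁ ∧ 0 < c₂ ∧ (∀ x : ℝ, 1 ≤ x → c₁ * x ≤ cnt ν x) ∧
    ∀ x : ℝ, 0 ≤ x → cnt ν x ≤ c₂ * x

/-- CF-CHEB (b): `∑_p ν(p)^{-3/2}` converges -/
def StmSumm : Prop := ∀ (P : Type) [DecidableEq P] (ν : P → ℕ) (ρ : ℝ), Sys ν ρ →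
  Summable (fun p : P => 1 / ((ν p : ℝ) * Real.sqrt (ν p)))

/-- CF-DENS (a): multiples of a prime outside `V` -/
def StmShift : Prop := ∀ (P : Type) [DecidableEq P] (ν : P → ℕ) (ρ : ℝ), Sys ν ρ →
  ∀ (V E : Finset P) (q : P) (x : ℝ), E ⊆ V → q ∉ V →
    fc ν (insert q V) (insert q E) x = fc ν V E (x / ν q)

/-- CF-DENS (b): density of `Fc` -/
def StmDens : Prop := ∀ (P : Type) [DecidableEq P] (ν : P → ℕ) (ρ : ℝ), Sys ν ρ →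
  ∀ V E : Finset P, E ⊆ V →
    Tendsto (fun x : ℝ => fc ν V E x / x) atTop (𝓝 (ρ * wt (fun p => 1 / (ν p : ℝ)) V E))

/-- CF-DENS (c): number of multiples of `∏_{p ∈ E} p` -/
def StmDvd : Prop := ∀ (P : Type) [DecidableEq P] (ν : P → ℕ) (ρ : ℝ), Sys ν ρ →
  ∀ (E : Finset P) (x : ℝ),
    (({θ ∈ Th ν x | E ⊆ θ.support}).ncard : ℝ) = cnt ν (x / ((∏ p ∈ E, ν p : ℕ) : ℝ))

/-- CF-COMB (a) -/
def StmComb : Prop := ∀ (P : Type) [DecidableEq P] (W : Finset P) (p : P → ℝ),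
  (∀ q ∈ W, 0 ≤ p q) → (∀ q ∈ W, p q ≤ 1 / 2) → ∀ (a b : Finset P → ℝ) (C : ℝ),
  (∀ D D', D ⊆ W → D' ⊆ W → Disjoint D D' → a D + b D' ≤ C) →
  ∑ D ∈ W.powerset, wt p W D * a D + ∑ D ∈ W.powerset, wt p W D * b D ≤ C

/-- CF-COMB (b) -/
def StmCombGap : Prop := ∀ (P : Type) [DecidableEq P] (W : Finset P) (p : P → ℝ),
  (∀ q ∈ W, 0 ≤ p q) → (∀ q ∈ W, p q ≤ 1 / 2) → ∀ (a b : Finset P → ℝ) (C : ℝ) (Q : Finset P),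
  (∀ D D', D ⊆ W → D' ⊆ W → Disjoint D D' → a D + b D' ≤ C) →
  (∀ D D', D ⊆ W → D' ⊆ W → Disjoint D D' → Disjoint D Q → Disjoint D' Q →
    a D + b D' ≤ C - 1) →
  ∑ D ∈ W.powerset, wt p W D * a D + ∑ D ∈ W.powerset, wt p W D * b D ≤
    C - ∏ q ∈ W ∩ Q, (1 - 2 * p q)

/-- CF-SIEVE: lower bound for the number of `θ` coprime to `V`, uniform in `V` -/
def StmSieve : Prop := ∀ (P : Type) [DecidableEq P] (ν : P → ℕ) (ρ : ℝ), Sys ν ρ →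
  ∃ c C : ℝ, 0 < c ∧ 0 < C ∧ ∀ (V : Finset P) (x : ℝ), 1 ≤ x →
    c * x * Real.exp (-(C * hw ν V)) ≤ fc ν V ∅ x

/-- CF-MOM: exponential moment bound -/
def StmMom : Prop := ∀ (P : Type) [DecidableEq P] (ν : P → ℕ) (ρ : ℝ), Sys ν ρ →
  ∀ (T : Finset P) (l : ℝ), 0 ≤ l → ∃ C : ℝ, 0 < C ∧ ∀ (x H : ℝ), 0 ≤ x →
    (({θ ∈ Th ν x | H ≤ hw ν (θ.support \ T)}).ncard : ℝ) ≤ C * Real.exp (-(l * H)) * x

/-- CF-PAIR (a) -/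
def StmPair : Prop := ∀ (P : Type) [DecidableEq P] (ν : P → ℕ) (ρ : ℝ), Sys ν ρ →
  ∀ δ : ℝ, 0 < δ → ∃ y : ℕ, ∀ V : Finset P, (∀ p, ν p ≤ y → p ∈ V) →
    ∀ E E', E ⊆ V → E' ⊆ V → Disjoint E E' → ∃ N₁ : ℝ, ∀ N : ℝ, N₁ ≤ N →
      ∀ A A' : Set (P →₀ ℕ), A ⊆ Fc ν V E N → A' ⊆ Fc ν V E' N →
        (∀ θ ∈ A, ∀ θ' ∈ A', ¬ Disjoint θ.support θ'.support) →
        (A.ncard : ℝ) / fc ν V E N + (A'.ncard : ℝ) / fc ν V E' N ≤ 1 + δ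

/-- CF-PAIR (b) -/
def StmPairGap : Prop := ∀ (P : Type) [DecidableEq P] (ν : P → ℕ) (ρ : ℝ), Sys ν ρ →
  ∀ δ : ℝ, 0 < δ → ∀ H : ℝ, ∃ y : ℕ, ∀ V : Finset P, (∀ p, ν p ≤ y → p ∈ V) →
    ∀ E, E ⊆ V → ∃ N₁ : ℝ, ∀ N : ℝ, N₁ ≤ N →
      ∀ (A : Set (P →₀ ℕ)) (Q : Finset P), A ⊆ Fc ν V E N → hw ν Q ≤ H → Disjoint E Q →
        (∀ θ ∈ A, ¬ Disjoint θ.support Q) →
        (A.ncard : ℝ) / fc ν V E N ≤ δ

/-- CF-COUP (a) -/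
def StmCoup : Prop := ∀ (P : Type) [DecidableEq P] (ν : P → ℕ) (ρ : ℝ), Sys ν ρ →
  ∀ T : Finset P, (∀ p, p ∈ T ↔ ν p = 2) → ∀ ε : ℝ, 0 < ε → ∃ N₂ : ℝ, ∀ N : ℝ, N₂ ≤ N →
    ∀ A : Set (P →₀ ℕ), A ⊆ Th ν N → Inter A → ∀ S S', S ⊆ T → S' ⊆ T → Disjoint S S' →
      (({θ ∈ A | θ.support ∩ T = S}).ncard : ℝ) + (({θ ∈ A | θ.support ∩ T = S'}).ncard : ℝ) ≤
        (ρ / 2 ^ T.card + ε) * N

/-- CF-COUP (b) -/
def StmCoupGap : Prop := ∀ (P : Type) [DecidableEq P] (ν : P → ℕ) (ρ : ℝ), Sys ν ρ →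
  ∀ T : Finset P, (∀ p, p ∈ T ↔ ν p = 2) → ∀ ε : ℝ, 0 < ε → ∀ H : ℝ, ∃ N₂ : ℝ, ∀ N : ℝ, N₂ ≤ N →
    ∀ A : Set (P →₀ ℕ), A ⊆ Th ν N → Inter A → ∀ S S', S ⊆ T → S' ⊆ T → Disjoint S S' →
      ∀ Q : Finset P, Disjoint Q T → hw ν Q ≤ H →
      (∀ θ ∈ A, (θ.support ∩ T = S ∨ θ.support ∩ T = S') → ¬ Disjoint θ.support Q) →
      (({θ ∈ A | θ.support ∩ T = S}).ncard : ℝ) + (({θ ∈ A | θ.support ∩ T = S'}).ncard : ℝ) ≤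
        (ρ / 2 ^ T.card * (1 - Real.exp (-(6 * H))) + ε) * N

/-- CF-MAIN: structure of the extremal sets -/
def StmMain : Prop := ∀ (P : Type) [DecidableEq P] (ν : P → ℕ) (ρ : ℝ), Sys ν ρ →
  ∀ T : Finset P, (∀ p, p ∈ T ↔ ν p = 2) → T.Nonempty → ∃ N₁ : ℝ, ∀ N : ℝ, N₁ ≤ N →
    ∀ A : Set (P →₀ ℕ), IsExt ν N A → ∃ F : Set (Finset P), MaxInt T F ∧
      A = {θ ∈ Th ν N | θ.support ∩ T ∈ F}

end

end R130.CF
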