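import Pool.Agent.R130.CF.MainThm
import Pool.Agent.R130.CF.Card
import Pool.Agent.R130.CF.NF

/-!
# MP_f07b9f : coprime-free sets of ideals, definitions and transfer to multiplicity functions
-/

open NumberField IsDedekindDomain Filter Topology

namespace R130.CF.Ideals

noncomputable section

variable (K : Type) [Field K] [NumberField K]

/-- `Θ(N₀)`: the nonzero integral ideals of absolute norm at most `N₀` -/
def Theta (N₀ : ℕ) : Set (Ideal (𝓞 K)) := {θ | θ ≠ ⊥ ∧ Ideal.absNorm θ ≤ N₀}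

/-- two ideals are coprime: no prime ideal divides both -/
def AreCoprime (θ₁ θ₂ : Ideal (𝓞 K)) : Prop :=
  ∀ 𝔭 : Ideal (𝓞 K), 𝔭.IsPrime → ¬ (𝔭 ∣ θ₁ ∧ 𝔭 ∣ θ₂)

/-- coprime-free: no two distinct members are coprime -/
def CoprimeFree (A : Set (Ideal (𝓞 K))) : Prop :=
  ∀ θ₁ ∈ A, ∀ θ₂ ∈ A, θ₁ ≠ θ₂ → ¬ AreCoprime K θ₁ θ₂

/-- `A` is an extremal coprime-free subset of `Θ(N₀)` -/
def Extremal (N₀ : ℕ) (A : Set (Ideal (𝓞 K))) : Prop :=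
  A ⊆ Theta K N₀ ∧ CoprimeFree K A ∧ ∀ B ⊆ Theta K N₀, CoprimeFree K B → B.ncard ≤ A.ncard

/-- the prime ideals of norm `2` -/
def P2 : Set (Ideal (𝓞 K)) := {𝔭 | 𝔭.IsPrime ∧ Ideal.absNorm 𝔭 = 2}

/-- the set of prime ideals of norm `2` dividing `θ` -/
def tr (θ : Ideal (𝓞 K)) : Set (Ideal (𝓞 K)) := {𝔭 ∈ P2 K | 𝔭 ∣ θ}

/-- `F` is a maximal intersecting family of sets of prime ideals of norm `2`: any two members
meet, and exactly one of `S` and its complement belongs to `F`, for every `S ⊆ P2` -/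
def MaxIntersecting (F : Set (Set (Ideal (𝓞 K)))) : Prop :=
  (∀ S ∈ F, S ⊆ P2 K) ∧ (∀ S, S ⊆ P2 K → (S ∈ F ↔ P2 K \ S ∉ F)) ∧
    ∀ S ∈ F, ∀ S' ∈ F, (S ∩ S').Nonempty

/-- the ideals in `Θ(N₀)` whose set of divisors among the primes of norm `2` belongs to `F` -/
def Fam (N₀ : ℕ) (F : Set (Set (Ideal (𝓞 K)))) : Set (Ideal (𝓞 K)) :=
  {θ ∈ Theta K N₀ | tr K θ ∈ F}

/-- the number of ideals of norm at most `n` divisible by no prime ideal of norm `2` -/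
def B (n : ℕ) : ℕ := ({θ ∈ Theta K n | tr K θ = ∅}).ncard

/-- `T s N₀ = ∑_{m ≥ 1} C(m-1, s-1) B(N₀ / 2^m)` -/
def T (s N₀ : ℕ) : ℕ := ∑ m ∈ Finset.range N₀, m.choose (s - 1) * B K (N₀ / 2 ^ (m + 1))

/-! ## transfer -/

/-- data of the transfer -/
structure Tr (e : (HeightOneSpectrum (𝓞 K) →₀ ℕ) → Ideal (𝓞 K)) : Prop where
  inj : Function.Injective e
  rg : ∀ I : Ideal (𝓞 K), I ≠ ⊥ ↔ I ∈ Set.range e
  nm : ∀ θ, Ideal.absNorm (e θ) = nrm (nuK K) θ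
  dv : ∀ θ (v : HeightOneSpectrum (𝓞 K)), v.asIdeal ∣ e θ ↔ v ∈ θ.support

variable {K}

variable {e : (HeightOneSpectrum (𝓞 K) →₀ ℕ) → Ideal (𝓞 K)}

theorem Tr.mem_Theta (h : Tr K e) (N₀ : ℕ) (θ : HeightOneSpectrum (𝓞 K) →₀ ℕ) :
    e θ ∈ Theta K N₀ ↔ θ ∈ Th (nuK K) (N₀ : ℝ) := by
  unfold Theta Th
  simp only [Set.mem_setOf_eq, h.nm, Nat.cast_le]
  exact ⟨fun hh => hh.2, fun hh => ⟨(h.rg _).mpr ⟨θ, rfl⟩, hh⟩⟩

theorem Tr.coprime_iff (h : Tr K e) (θ θ' : HeightOneSpectrum (𝓞 K) →₀ ℕ) :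
    AreCoprime K (e θ) (e θ') ↔ Disjoint θ.support θ'.support := by
  constructor
  · intro hc
    rw [Finset.disjoint_left]
    intro v hv hv'
    exact hc v.asIdeal v.isPrime ⟨(h.dv θ v).mpr hv, (h.dv θ' v).mpr hv'⟩
  · intro hd 𝔭 hp ⟨h1, h2⟩
    have hne : 𝔭 ≠ ⊥ := by
      rintro rfl
      have : e θ ≠ ⊥ := (h.rg _).mpr ⟨θ, rfl⟩
      exact this (zero_dvd_iff.mp h1)
    let v : HeightOneSpectrum (𝓞 K) := ⟨𝔭, hp, hne⟩
    exact Finset.disjoint_left.mp hd ((h.dv θ v).mp h1) ((h.dv θ' v).mp h2)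

theorem Tr.eq_image (h : Tr K e) {N₀ : ℕ} {A : Set (Ideal (𝓞 K))} (hA : A ⊆ Theta K N₀) :
    A = e '' (e ⁻¹' A) := by
  apply Set.Subset.antisymm
  · intro I hI
    obtain ⟨θ, rfl⟩ := (h.rg I).mp (hA hI).1
    exact ⟨θ, hI, rfl⟩
  · rintro _ ⟨θ, hθ, rfl⟩
    exact hθ

theorem Tr.ncard_preimage (h : Tr K e) {N₀ : ℕ} {A : Set (Ideal (𝓞 K))} (hA : A ⊆ Theta K N₀) :
    (e ⁻¹' A).ncard = A.ncard := by
  conv_rhs => rw [h.eq_image hA]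
  exact (Set.ncard_image_of_injective _ h.inj).symm

theorem Tr.copFree_iff (h : Tr K e) {N₀ : ℕ} {A : Set (Ideal (𝓞 K))} (hA : A ⊆ Theta K N₀) :
    CoprimeFree K A ↔ CopFree (e ⁻¹' A) := by
  constructor
  · intro hc θ hθ θ' hθ' hne hd
    exact hc (e θ) hθ (e θ') hθ' (fun hh => hne (h.inj hh)) ((h.coprime_iff θ θ').mpr hd)
  · intro hc I hI I' hI' hne hcp
    obtain ⟨θ, rfl⟩ := (h.rg I).mp (hA hI).1
    obtain ⟨θ', rfl⟩ := (h.rg I').mp (hA hI').1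
    exact hc θ hI θ' hI' (fun hh => hne (by rw [hh])) ((h.coprime_iff θ θ').mp hcp)

theorem Tr.isExt (h : Tr K e) {N₀ : ℕ} {A : Set (Ideal (𝓞 K))} (hA : Extremal K N₀ A) :
    IsExt (nuK K) (N₀ : ℝ) (e ⁻¹' A) := by
  refine ⟨fun θ hθ => (h.mem_Theta N₀ θ).mp (hA.1 hθ), (h.copFree_iff hA.1).mp hA.2.1, ?_⟩
  intro B hB hBc
  have hB' : e '' B ⊆ Theta K N₀ := by
    rintro _ ⟨θ, hθ, rfl⟩
    exact (h.mem_Theta N₀ θ).mpr (hB hθ)
  have hpre : e ⁻¹' (e '' B) = B := Set.preimage_image_eq _ h.inj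
  have h1 := hA.2.2 (e '' B) hB' ((h.copFree_iff hB').mpr (by rw [hpre]; exact hBc))
  rw [Set.ncard_image_of_injective _ h.inj] at h1
  rw [h.ncard_preimage hA.1]
  exact h1

/-- the finite set of primes of norm 2 -/
theorem finite_two {ρ : ℝ} (h : Sys (nuK K) ρ) : {v : HeightOneSpectrum (𝓞 K) | nuK K v = 2}.Finite := by
  classical
  have hinj : Function.Injective (fun v : HeightOneSpectrum (𝓞 K) => (Finsupp.single v 1 :
      HeightOneSpectrum (𝓞 K) →₀ ℕ)) := by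
    intro v w hvw
    exact Finsupp.single_left_injective one_ne_zero hvw
  refine ((h.fin 2).preimage hinj.injOn).subset ?_
  intro v hv
  simp only [Set.mem_preimage, Th, Set.mem_setOf_eq]
  rw [nrm_single, pow_one]
  have : nuK K v = 2 := hv
  rw [this]
  norm_num

/-- trace of `e θ` -/
theorem Tr.tr_eq (h : Tr K e) (Tf : Finset (HeightOneSpectrum (𝓞 K)))
    (hTf : ∀ v, v ∈ Tf ↔ nuK K v = 2) (θ : HeightOneSpectrum (𝓞 K) →₀ ℕ) :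
    tr K (e θ) = (fun v : HeightOneSpectrum (𝓞 K) => v.asIdeal) ''
      {v | v ∈ θ.support ∧ v ∈ Tf} := by
  ext 𝔭
  constructor
  · rintro ⟨⟨hp, hn⟩, hd⟩
    have hne : 𝔭 ≠ ⊥ := by
      rintro rfl
      simp at hn
    refine ⟨⟨𝔭, hp, hne⟩, ⟨?_, ?_⟩, rfl⟩
    · exact (h.dv θ ⟨𝔭, hp, hne⟩).mp hd
    · exact (hTf _).mpr hn
  · rintro ⟨v, ⟨hv, hvT⟩, rfl⟩
    exact ⟨⟨v.isPrime, (hTf v).mp hvT⟩, (h.dv θ v).mpr hv⟩

theorem P2_eq (Tf : Finset (HeightOneSpectrum (𝓞 K)))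
    (hTf : ∀ v, v ∈ Tf ↔ nuK K v = 2) :
    P2 K = (fun v : HeightOneSpectrum (𝓞 K) => v.asIdeal) '' (Tf : Set _) := by
  ext 𝔭
  constructor
  · rintro ⟨hp, hn⟩
    have hne : 𝔭 ≠ ⊥ := by
      rintro rfl
      simp at hn
    exact ⟨⟨𝔭, hp, hne⟩, (hTf _).mpr hn, rfl⟩
  · rintro ⟨v, hv, rfl⟩
    exact ⟨v.isPrime, (hTf v).mp hv⟩

theorem asIdeal_injective : Function.Injective
    (fun v : HeightOneSpectrum (𝓞 K) => v.asIdeal) := by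
  intro v w h
  exact HeightOneSpectrum.ext h

end

end R130.CF.Ideals
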