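import Pool.Agent.R130.CF.Basic

/-!
# MP_f07b9f : the structure of the extremal sets (assembly)
-/

open Filter Topology

namespace R130.CF

variable {P : Type} [DecidableEq P] {ν : P → ℕ} {ρ : ℝ}

theorem fc_shiftS (hsh : StmShift) (h : Sys ν ρ) (V : Finset P) (S : Finset P) (hS : S ⊆ V)
    (hS2 : ∀ p ∈ S, ν p = 2) (x : ℝ) :
    fc ν V S x = fc ν (V \ S) ∅ (x / 2 ^ S.card) := by
  classical
  induction S using Finset.induction_on generalizing V x with
  | empty => simp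
  | insert q S hq ih =>
    have hqV : q ∈ V := hS (Finset.mem_insert_self _ _)
    have h1 := hsh P ν ρ h (V.erase q) S q x (by
      intro p hp
      rw [Finset.mem_erase]
      exact ⟨fun e => hq (e ▸ hp), hS (Finset.mem_insert_of_mem hp)⟩) (Finset.notMem_erase _ _)
    rw [Finset.insert_erase hqV] at h1
    have h2 := ih (V.erase q) (by
      intro p hp
      rw [Finset.mem_erase]
      exact ⟨fun e => hq (e ▸ hp), hS (Finset.mem_insert_of_mem hp)⟩)
      (fun p hp => hS2 p (Finset.mem_insert_of_mem hp)) (x / ν q)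
    rw [h1, h2, Finset.card_insert_of_notMem hq, hS2 q (Finset.mem_insert_self _ _)]
    have e1 : V.erase q \ S = V \ insert q S := by
      ext p
      simp only [Finset.mem_sdiff, Finset.mem_erase, Finset.mem_insert]
      tauto
    rw [e1, pow_succ]
    congr 1
    push_cast
    field_simp

theorem wt_two (T S : Finset P) (hS : S ⊆ T) (hT : ∀ p ∈ T, ν p = 2) :
    wt (fun p => 1 / (ν p : ℝ)) T S = (1 / 2) ^ T.card := by
  unfold wt
  have h1 : ∏ q ∈ S, (1 / (ν q : ℝ)) = (1 / 2) ^ S.card := by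
    rw [← Finset.prod_const]
    refine Finset.prod_congr rfl fun q hq => ?_
    rw [hT q (hS hq)]
    norm_num
  have h2 : ∏ q ∈ T \ S, (1 - 1 / (ν q : ℝ)) = (1 / 2) ^ (T \ S).card := by
    rw [← Finset.prod_const]
    refine Finset.prod_congr rfl fun q hq => ?_
    rw [hT q (Finset.mem_sdiff.mp hq).1]
    norm_num
  rw [h1, h2, ← pow_add]
  congr 1
  have := Finset.card_sdiff_add_card_eq_card hS
  omega

theorem hw_nonneg (ν : P → ℕ) (Q : Finset P) : 0 ≤ hw ν Q :=
  Finset.sum_nonneg fun q _ => by positivity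

theorem hw_union_le (ν : P → ℕ) (Q Q' : Finset P) : hw ν (Q ∪ Q') ≤ hw ν Q + hw ν Q' := by
  unfold hw
  have h := Finset.sum_union_inter (s₁ := Q) (s₂ := Q') (f := fun q => 1 / Real.sqrt (ν q : ℝ))
  have h2 : 0 ≤ ∑ q ∈ Q ∩ Q', 1 / Real.sqrt (ν q : ℝ) := Finset.sum_nonneg fun q _ => by positivity
  linarith

theorem hw_mono (ν : P → ℕ) {Q Q' : Finset P} (h : Q ⊆ Q') : hw ν Q ≤ hw ν Q' :=
  Finset.sum_le_sum_of_subset_of_nonneg h fun q _ _ => by positivity

/-- the lower bound for the number of elements of type `S` coprime to `θ'` -/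
theorem coprime_lower (hsh : StmShift) (h : Sys ν ρ) {c C : ℝ} (hc : 0 < c) (hC : 0 < C)
    (hsv : ∀ (V : Finset P) (x : ℝ), 1 ≤ x → c * x * Real.exp (-(C * hw ν V)) ≤ fc ν V ∅ x)
    (T S : Finset P) (hT : ∀ p ∈ T, ν p = 2) (hS : S ⊆ T) (N : ℝ) (hN : 2 ^ T.card ≤ N)
    (Q : Finset P) (hQ : Q ∩ T ⊆ T \ S) :
    c / 2 ^ T.card * N * Real.exp (-(C * (hw ν T + hw ν (Q \ T)))) ≤ fc ν (T ∪ Q) S N := by
  have hST : S.card ≤ T.card := Finset.card_le_card hS
  have hpow : (2 : ℝ) ^ S.card ≤ 2 ^ T.card := pow_le_pow_right₀ (by norm_num) hST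
  have hp0 : (0 : ℝ) < 2 ^ S.card := by positivity
  have hp1 : (0 : ℝ) < 2 ^ T.card := by positivity
  have hN0 : 0 < N := lt_of_lt_of_le hp1 hN
  have hN1 : 1 ≤ N / 2 ^ S.card := by
    rw [le_div_iff₀ hp0]
    linarith
  rw [fc_shiftS hsh h (T ∪ Q) S (hS.trans Finset.subset_union_left) (fun p hp => hT p (hS hp)) N]
  refine le_trans ?_ (hsv _ _ hN1)
  have h1 : hw ν ((T ∪ Q) \ S) ≤ hw ν T + hw ν (Q \ T) := by
    refine le_trans (hw_mono ν (Q' := T ∪ (Q \ T)) ?_) (hw_union_le ν T (Q \ T))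
    intro p hp
    simp only [Finset.mem_sdiff, Finset.mem_union] at hp ⊢
    tauto
  have h2 : Real.exp (-(C * (hw ν T + hw ν (Q \ T)))) ≤ Real.exp (-(C * hw ν ((T ∪ Q) \ S))) := by
    apply Real.exp_le_exp.mpr
    nlinarith
  have h3 : c / 2 ^ T.card * N ≤ c * (N / 2 ^ S.card) := by
    have : N / 2 ^ T.card ≤ N / 2 ^ S.card := by
      apply div_le_div_of_nonneg_left hN0.le hp0 hpow
    calc c / 2 ^ T.card * N = c * (N / 2 ^ T.card) := by ring
      _ ≤ c * (N / 2 ^ S.card) := by nlinarith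
  calc c / 2 ^ T.card * N * Real.exp (-(C * (hw ν T + hw ν (Q \ T))))
      ≤ c * (N / 2 ^ S.card) * Real.exp (-(C * (hw ν T + hw ν (Q \ T)))) :=
        mul_le_mul_of_nonneg_right h3 (Real.exp_pos _).le
    _ ≤ _ := by
        apply mul_le_mul_of_nonneg_left h2
        positivity

end R130.CF
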