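import Pool.Agent.R130.CF.Core

/-!
# MP_f07b9f : the structure of the extremal sets, from the pieces
-/

open Filter Topology

namespace R130.CF

theorem mainThm (hsh : StmShift) (hd : StmDens) (hsv : StmSieve) (hm : StmMom)
    (hcp : StmCoup) (hcg : StmCoupGap) : StmMain := by
  intro P _ ν ρ h T hT hne
  classical
  obtain ⟨η, hη⟩ := hne
  have hρ := h.pos
  set k := T.card with hk
  have hp2 : (0 : ℝ) < 2 ^ k := by positivity
  set β : ℝ := ρ / 2 ^ k with hβd
  have hβ : 0 < β := by positivity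
  have hβk : 2 ^ k * β = ρ := by rw [hβd]; field_simp
  obtain ⟨c, C, hc, hC, hsv'⟩ := hsv P ν ρ h
  obtain ⟨Cl, hCl, hm'⟩ := hm P ν ρ h T (C + 1) (by linarith)
  -- choice of Hs
  set M : ℝ := max (4 * Cl / β) (Cl * 2 ^ k * Real.exp (C * hw ν T) / c) with hM
  have hM0 : 0 < M := lt_of_lt_of_le (by positivity) (le_max_left _ _)
  set Hs : ℝ := Real.log (M + 1) with hHsd
  have hexpHs : Real.exp Hs = M + 1 := Real.exp_log (by linarith)
  have hHs : 0 ≤ Hs := Real.log_nonneg (by linarith)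
  have hH1 : Cl * Real.exp (-((C + 1) * Hs)) ≤ β / 4 := by
    have e1 : Real.exp (-((C + 1) * Hs)) ≤ Real.exp (-Hs) := by
      apply Real.exp_le_exp.mpr
      nlinarith
    have e2 : Real.exp (-Hs) = 1 / (M + 1) := by
      rw [Real.exp_neg, hexpHs, one_div]
    have e3 : 4 * Cl / β ≤ M := le_max_left _ _
    rw [div_le_iff₀ hβ] at e3
    calc Cl * Real.exp (-((C + 1) * Hs)) ≤ Cl * (1 / (M + 1)) := by
          rw [← e2]
          exact mul_le_mul_of_nonneg_left e1 hCl.le
      _ ≤ β / 4 := by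
          rw [mul_one_div, div_le_iff₀ (by linarith)]
          nlinarith
  have hH2 : Cl * 2 ^ k * Real.exp (C * hw ν T) < c * Real.exp Hs := by
    have e3 : Cl * 2 ^ k * Real.exp (C * hw ν T) / c ≤ M := le_max_right _ _
    rw [div_le_iff₀ hc] at e3
    rw [hexpHs]
    nlinarith
  -- choice of ε
  set e12 : ℝ := Real.exp (-(12 * Hs)) with he12
  have he0 : 0 < e12 := Real.exp_pos _
  have he1 : e12 ≤ 1 := by
    apply Real.exp_le_one_iff.mpr
    linarith
  have h2k : (1 : ℝ) ≤ 2 ^ k := one_le_pow₀ (by norm_num)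
  set ε : ℝ := β * e12 / (8 * (2 ^ k + 1)) with hεd
  have hε : 0 < ε := by positivity
  have hεeq : (2 ^ k + 1) * ε = β * e12 / 8 := by
    rw [hεd]
    field_simp
  have hβe : β * e12 ≤ β := by nlinarith
  have hβe0 : 0 < β * e12 := mul_pos hβ he0
  have hε2 : (2 ^ k + 2) * ε < β * e12 := by nlinarith
  have hε3 : (2 * (2 ^ k + 1) + 1) * ε < β / 2 := by nlinarith
  have hερ : ε ≤ ρ / 8 := by
    have : β ≤ ρ := by
      rw [hβd]
      exact div_le_self hρ.le h2k
    nlinarith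
  obtain ⟨N₂, hN₂⟩ := hcp P ν ρ h T hT ε hε
  obtain ⟨N₃, hN₃⟩ := hcg P ν ρ h T hT ε hε (2 * Hs)
  -- density of the multiples of η
  have hη2 : ν η = 2 := (hT η).mp hη
  have hdens := hd P ν ρ h {η} {η} (Finset.Subset.refl _)
  have hwt : wt (fun p => 1 / (ν p : ℝ)) {η} {η} = 1 / 2 := by
    simp [wt, hη2]
  rw [hwt] at hdens
  have hev : ∀ᶠ x : ℝ in atTop, ρ * (1 / 2) - ε < fc ν {η} {η} x / x :=
    hdens.eventually (lt_mem_nhds (by linarith))
  obtain ⟨N₄, hN₄⟩ := Filter.eventually_atTop.mp hev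
  refine ⟨max (max N₂ N₃) (max N₄ (max (2 ^ k) (8 / ρ))), fun N hN A hA => ?_⟩
  have hNN2 : N₂ ≤ N := le_trans (le_trans (le_max_left _ _) (le_max_left _ _)) hN
  have hNN3 : N₃ ≤ N := le_trans (le_trans (le_max_right _ _) (le_max_left _ _)) hN
  have hNN4 : N₄ ≤ N := le_trans (le_trans (le_max_left _ _) (le_max_right _ _)) hN
  have hNk : 2 ^ k ≤ N :=
    le_trans (le_trans (le_trans (le_max_left _ _) (le_max_right _ _)) (le_max_right _ _)) hN
  have hN8 : 8 / ρ ≤ N :=
    le_trans (le_trans (le_trans (le_max_right _ _) (le_max_right _ _)) (le_max_right _ _)) hN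
  have hN0 : 0 < N := lt_of_lt_of_le hp2 hNk
  have hThfin : (Th ν N).Finite := h.fin N
  -- |A| is large
  have hEle : fc ν {η} {η} N ≤ (A.ncard : ℝ) := by
    apply Nat.cast_le.mpr
    apply hA.2.2 _ (fun _ hx => hx.1)
    intro θ hθ θ' hθ' _ hdis
    have a1 : η ∈ θ.support := by
      have : η ∈ θ.support ∩ {η} := by rw [hθ.2]; exact Finset.mem_singleton_self _
      exact (Finset.mem_inter.mp this).1
    have a2 : η ∈ θ'.support := by
      have : η ∈ θ'.support ∩ {η} := by rw [hθ'.2]; exact Finset.mem_singleton_self _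
      exact (Finset.mem_inter.mp this).1
    exact Finset.disjoint_left.mp hdis a1 a2
  have hElow : (ρ / 2 - ε) * N ≤ fc ν {η} {η} N := by
    have := hN₄ N hNN4
    rw [lt_div_iff₀ hN0] at this
    linarith
  have hAlow : (ρ / 2 - ε) * N ≤ (A.ncard : ℝ) := hElow.trans hEle
  have hlow : (2 ^ k * β - 2 * ε) * N ≤ 2 * (A.ncard : ℝ) := by
    rw [hβk]
    linarith
  have hA2 : (2 : ℝ) ≤ (A.ncard : ℝ) := by
    refine le_trans ?_ hAlow
    rw [div_le_iff₀ hρ] at hN8
    nlinarith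
  have h0 : (0 : P →₀ ℕ) ∉ A := by
    intro h0
    have hsub : A ⊆ {0} := by
      intro θ hθ
      by_contra hne
      have hne' : (0 : P →₀ ℕ) ≠ θ := fun e => hne (by rw [← e]; rfl)
      apply hA.2.1 0 h0 θ hθ hne'
      simp
    have h1 : A.ncard ≤ 1 := by
      have := Set.ncard_le_ncard hsub (Set.finite_singleton _)
      simpa using this
    have h2 : (A.ncard : ℝ) ≤ 1 := by exact_mod_cast h1
    linarith
  have hint : Inter A := by
    intro θ hθ θ' hθ'
    by_cases heq : θ = θ'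
    · subst heq
      intro hdis
      rw [Finset.disjoint_self_iff_empty, Finsupp.support_eq_empty] at hdis
      exact h0 (hdis ▸ hθ)
    · exact hA.2.1 θ hθ θ' hθ' heq
  exact core h hsh T hT A N hNk hA hint hβ hHs hc hC hCl hε hε2 hε3 hlow
    (fun S S' hS hS' hdis => hN₂ N hNN2 A hA.1 hint S S' hS hS' hdis)
    (fun S S' hS hS' hdis Q hQ hQH hQA => by
      have := hN₃ N hNN3 A hA.1 hint S S' hS hS' hdis Q hQ hQH hQA
      exact this)
    (fun H => hm' N H hN0.le) hsv' hH1 hH2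

end R130.CF
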