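import Pool.Agent.R130.CF.Defs

/-!
# MP_f07b9f : definitions for ideals of a number field
-/

open Filter Topology NumberField IsDedekindDomain

namespace R130.CF

noncomputable section

/-- the norms of the prime ideals of `𝓞 K` -/
def nuK (K : Type) [Field K] [NumberField K] (v : HeightOneSpectrum (𝓞 K)) : ℕ :=
  Ideal.absNorm v.asIdeal

/-- CF-NF (a): the ideals of a number field form an arithmetic semigroup with a density -/
def StmSysK : Prop := ∀ (K : Type) [Field K] [NumberField K], ∃ ρ : ℝ, Sys (nuK K) ρ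

/-- CF-NF (b): factorization of nonzero ideals -/
def StmFac : Prop := ∀ (K : Type) [Field K] [NumberField K],
  ∃ e : (HeightOneSpectrum (𝓞 K) →₀ ℕ) → Ideal (𝓞 K), Function.Injective e ∧
    (∀ I : Ideal (𝓞 K), I ≠ ⊥ ↔ I ∈ Set.range e) ∧
    (∀ θ, Ideal.absNorm (e θ) = nrm (nuK K) θ) ∧
    (∀ θ (v : HeightOneSpectrum (𝓞 K)), v.asIdeal ∣ e θ ↔ v ∈ θ.support)

end

end R130.CF
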