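import Pool.Agent.R130.CF.Ideals
import Pool.Agent.R130.CF.All

/-!
# MP_f07b9f : the structure theorem for ideals
-/

open NumberField IsDedekindDomain Filter Topology

namespace R130.CF.Ideals

noncomputable section

variable (K : Type) [Field K] [NumberField K]

theorem exists_tr : ∃ e : (HeightOneSpectrum (𝓞 K) →₀ ℕ) → Ideal (𝓞 K), Tr K e := by
  obtain ⟨e, h1, h2, h3, h4⟩ := fac K
  exact ⟨e, ⟨h1, h2, h3, h4⟩⟩

theorem exists_Tf : ∃ Tf : Finset (HeightOneSpectrum (𝓞 K)), ∀ v, v ∈ Tf ↔ nuK K v = 2 := by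
  obtain ⟨ρ, h⟩ := sysK K
  exact ⟨(finite_two h).toFinset, fun v => by simp⟩

variable {K}

theorem copFree_Fam (N₀ : ℕ) {F : Set (Set (Ideal (𝓞 K)))} (hF : MaxIntersecting K F) :
    CoprimeFree K (Fam K N₀ F) := by
  intro θ hθ θ' hθ' _ hc
  obtain ⟨𝔭, h1, h2⟩ := hF.2.2 _ hθ.2 _ hθ'.2
  exact hc 𝔭 h1.1.1 ⟨h1.2, h2.2⟩

theorem Theta_finite (N₀ : ℕ) : (Theta K N₀).Finite := by
  obtain ⟨e, he⟩ := exists_tr K
  obtain ⟨ρ, h⟩ := sysK K
  have : Theta K N₀ = e '' (e ⁻¹' (Theta K N₀)) := he.eq_image (Set.Subset.refl _)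
  rw [this]
  apply Set.Finite.image
  refine (h.fin N₀).subset ?_
  intro θ hθ
  exact (he.mem_Theta N₀ θ).mp hθ

/-- existence of extremal sets -/
theorem exists_extremal (N₀ : ℕ) : ∃ A, Extremal K N₀ A := by
  classical
  set 𝒮 : Set (Set (Ideal (𝓞 K))) := {A | A ⊆ Theta K N₀ ∧ CoprimeFree K A} with h𝒮
  have hfin : 𝒮.Finite := (Theta_finite (K := K) N₀).finite_subsets.subset fun A hA => hA.1
  have hne : 𝒮.Nonempty := ⟨∅, Set.empty_subset _, fun _ h => absurd h (Set.notMem_empty _)⟩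
  obtain ⟨A, hA, hmax⟩ := Set.exists_max_image 𝒮 (fun A => A.ncard) hfin hne
  exact ⟨A, hA.1, hA.2, fun B hB hBc => hmax B ⟨hB, hBc⟩⟩

/-- every extremal set comes from a maximal intersecting family -/
theorem extremal_structure (h : (P2 K).Nonempty) : ∃ N₁ : ℕ, ∀ N₀ : ℕ, N₁ ≤ N₀ →
    ∀ A, Extremal K N₀ A → ∃ F, MaxIntersecting K F ∧ A = Fam K N₀ F := by
  classical
  obtain ⟨e, he⟩ := exists_tr K
  obtain ⟨ρ, hsys⟩ := sysK K
  obtain ⟨Tf, hTf⟩ := exists_Tf K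
  have hP2 := P2_eq Tf hTf
  have hne : Tf.Nonempty := by
    obtain ⟨𝔭, h𝔭⟩ := h
    rw [hP2] at h𝔭
    obtain ⟨v, hv, _⟩ := h𝔭
    exact ⟨v, hv⟩
  obtain ⟨N₁, hN₁⟩ := main _ _ ρ hsys Tf hTf hne
  obtain ⟨M, hM⟩ := exists_nat_ge N₁
  refine ⟨M, fun N₀ hN₀ A hA => ?_⟩
  have hN' : N₁ ≤ (N₀ : ℝ) := hM.trans (by exact_mod_cast hN₀)
  obtain ⟨F, hF, hAF⟩ := hN₁ N₀ hN' _ (he.isExt hA)
  set j : Finset (HeightOneSpectrum (𝓞 K)) → Set (Ideal (𝓞 K)) :=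
    fun s => (fun v : HeightOneSpectrum (𝓞 K) => v.asIdeal) '' (s : Set _) with hj
  have hjinj : Function.Injective j := by
    intro s s' hss
    have := (Set.image_injective.mpr asIdeal_injective) hss
    exact_mod_cast this
  have htr : ∀ θ, tr K (e θ) = j (θ.support ∩ Tf) := by
    intro θ
    rw [he.tr_eq Tf hTf]
    congr 1
    ext v
    simp
  have hsurj : ∀ S, S ⊆ P2 K → ∃ s, s ⊆ Tf ∧ j s = S := by
    intro S hS
    refine ⟨Tf.filter (fun v => v.asIdeal ∈ S), Finset.filter_subset _ _, ?_⟩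
    ext 𝔭
    constructor
    · rintro ⟨v, hv, rfl⟩
      exact (Finset.mem_filter.mp (Finset.mem_coe.mp hv)).2
    · intro h𝔭
      have := hS h𝔭
      rw [hP2] at this
      obtain ⟨v, hv, rfl⟩ := this
      exact ⟨v, Finset.mem_coe.mpr (Finset.mem_filter.mpr ⟨Finset.mem_coe.mp hv, h𝔭⟩), rfl⟩
  have hjsub : ∀ s, s ⊆ Tf → j s ⊆ P2 K := by
    intro s hs
    rw [hP2]
    exact Set.image_mono (by exact_mod_cast hs)
  have hjsd : ∀ s, s ⊆ Tf → P2 K \ j s = j (Tf \ s) := by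
    intro s hs
    rw [hP2, hj]
    simp only [Finset.coe_sdiff]
    exact (Set.image_diff asIdeal_injective _ _).symm
  refine ⟨j '' F, ⟨?_, ?_, ?_⟩, ?_⟩
  · rintro _ ⟨s, hs, rfl⟩
    exact hjsub s (hF.1 s hs)
  · intro S hS
    obtain ⟨s, hs, rfl⟩ := hsurj S hS
    rw [hjsd s hs, hjinj.mem_set_image, hjinj.mem_set_image]
    exact hF.2.1 s hs
  · rintro _ ⟨s, hs, rfl⟩ _ ⟨s', hs', rfl⟩
    have := hF.2.2 s hs s' hs'
    rw [Finset.not_disjoint_iff] at this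
    obtain ⟨v, hv, hv'⟩ := this
    exact ⟨v.asIdeal, ⟨v, hv, rfl⟩, ⟨v, hv', rfl⟩⟩
  · apply Set.Subset.antisymm
    · intro I hI
      refine ⟨hA.1 hI, ?_⟩
      obtain ⟨θ, rfl⟩ := (he.rg I).mp (hA.1 hI).1
      have h1 : θ ∈ e ⁻¹' A := hI
      rw [hAF] at h1
      rw [htr θ]
      exact ⟨_, h1.2, rfl⟩
    · rintro I ⟨hI, hI2⟩
      obtain ⟨θ, rfl⟩ := (he.rg I).mp hI.1
      rw [htr θ, hjinj.mem_set_image] at hI2
      have h1 : θ ∈ e ⁻¹' A := by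
        rw [hAF]
        exact ⟨(he.mem_Theta N₀ θ).mp hI, hI2⟩
      exact h1

/-- the full characterization of the extremal sets -/
theorem extremal_iff (h : (P2 K).Nonempty) : ∃ N₁ : ℕ, ∀ N₀ : ℕ, N₁ ≤ N₀ →
    ∀ A, Extremal K N₀ A ↔ ∃ F, MaxIntersecting K F ∧ A = Fam K N₀ F ∧
      ∀ F', MaxIntersecting K F' → (Fam K N₀ F').ncard ≤ (Fam K N₀ F).ncard := by
  obtain ⟨N₁, hN₁⟩ := extremal_structure h
  refine ⟨N₁, fun N₀ hN₀ A => ⟨fun hA => ?_, ?_⟩⟩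
  · obtain ⟨F, hF, rfl⟩ := hN₁ N₀ hN₀ A hA
    exact ⟨F, hF, rfl, fun F' hF' => hA.2.2 _ (fun _ hx => hx.1) (copFree_Fam N₀ hF')⟩
  · rintro ⟨F, hF, rfl, hmax⟩
    refine ⟨fun _ hx => hx.1, copFree_Fam N₀ hF, fun C hC hCc => ?_⟩
    obtain ⟨A', hA'⟩ := exists_extremal (K := K) N₀
    obtain ⟨F', hF', rfl⟩ := hN₁ N₀ hN₀ A' hA'
    exact (hA'.2.2 C hC hCc).trans (hmax F' hF')

/-- the number of ideals of `Θ(N₀)` with given set `S ≠ ∅` of divisors among the primes of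
norm 2 -/
theorem ncard_type (N₀ : ℕ) (S : Set (Ideal (𝓞 K))) (hS : S ⊆ P2 K) (hne : S.Nonempty) :
    ({θ ∈ Theta K N₀ | tr K θ = S}).ncard = T K S.ncard N₀ := by
  classical
  obtain ⟨e, he⟩ := exists_tr K
  obtain ⟨ρ, hsys⟩ := sysK K
  obtain ⟨Tf, hTf⟩ := exists_Tf K
  have hP2 := P2_eq Tf hTf
  set j : Finset (HeightOneSpectrum (𝓞 K)) → Set (Ideal (𝓞 K)) :=
    fun s => (fun v : HeightOneSpectrum (𝓞 K) => v.asIdeal) '' (s : Set _) with hj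
  have hjinj : Function.Injective j := by
    intro s s' hss
    have := (Set.image_injective.mpr asIdeal_injective) hss
    exact_mod_cast this
  have htr : ∀ θ, tr K (e θ) = j (θ.support ∩ Tf) := by
    intro θ
    rw [he.tr_eq Tf hTf]
    congr 1
    ext v
    simp
  have hgen : ∀ (n : ℕ) (x : ℝ), (∀ m : ℕ, (m : ℝ) ≤ x ↔ m ≤ n) → ∀ s, s ⊆ Tf →
      (({θ ∈ Theta K n | tr K θ = j s}).ncard : ℝ) = fc (nuK K) Tf s x := by
    intro n x hnx s hs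
    unfold fc
    congr 1
    rw [← he.ncard_preimage (N₀ := n) (fun _ hx => hx.1)]
    congr 1
    ext θ
    simp only [Set.mem_preimage]
    constructor
    · rintro ⟨h1, h2⟩
      rw [htr θ] at h2
      refine ⟨?_, hjinj h2⟩
      have h3 := (he.mem_Theta n θ).mp h1
      have h4 : nrm (nuK K) θ ≤ n := by
        have : (nrm (nuK K) θ : ℝ) ≤ n := h3
        exact_mod_cast this
      exact (hnx _).mpr h4
    · rintro ⟨h1, h2⟩
      refine ⟨?_, by rw [htr θ, h2]⟩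
      rw [he.mem_Theta]
      have h4 : nrm (nuK K) θ ≤ n := (hnx _).mp h1
      have : (nrm (nuK K) θ : ℝ) ≤ n := by exact_mod_cast h4
      exact this
  obtain ⟨s, hs, rfl⟩ : ∃ s, s ⊆ Tf ∧ j s = S := by
    refine ⟨Tf.filter (fun v => v.asIdeal ∈ S), Finset.filter_subset _ _, ?_⟩
    ext 𝔭
    constructor
    · rintro ⟨v, hv, rfl⟩
      exact (Finset.mem_filter.mp (Finset.mem_coe.mp hv)).2
    · intro h𝔭
      have := hS h𝔭
      rw [hP2] at this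
      obtain ⟨v, hv, rfl⟩ := this
      exact ⟨v, Finset.mem_coe.mpr (Finset.mem_filter.mpr ⟨Finset.mem_coe.mp hv, h𝔭⟩), rfl⟩
  have hcard : (j s).ncard = s.card := by
    rw [hj]
    simp only
    rw [Set.ncard_image_of_injective _ asIdeal_injective, Set.ncard_coe_finset]
  have hsne : s.Nonempty := by
    obtain ⟨𝔭, v, hv, _⟩ := hne
    exact ⟨v, hv⟩
  have h1 := hgen N₀ N₀ (fun m => Nat.cast_le) s hs
  have h2 := fc_formula shift hsys Tf (fun p hp => (hTf p).mp hp) N₀ (N₀ : ℝ)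
    (by exact_mod_cast Nat.lt_two_pow_self) s hs hsne
  have h3 : ∀ m : ℕ, fc (nuK K) Tf ∅ ((N₀ : ℝ) / 2 ^ (m + 1)) = (B K (N₀ / 2 ^ (m + 1)) : ℝ) := by
    intro m
    rw [← hgen (N₀ / 2 ^ (m + 1)) ((N₀ : ℝ) / 2 ^ (m + 1)) ?_ ∅ (Finset.empty_subset _)]
    · unfold B
      simp [hj]
    · intro a
      rw [Nat.le_div_iff_mul_le (by positivity), le_div_iff₀ (by positivity)]
      exact_mod_cast Iff.rfl
  have h4 : (({θ ∈ Theta K N₀ | tr K θ = j s}).ncard : ℝ) = (T K (j s).ncard N₀ : ℝ) := by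
    rw [h1, h2, hcard]
    unfold T
    push_cast
    refine Finset.sum_congr rfl fun m _ => ?_
    rw [h3]
  exact_mod_cast h4

end

end R130.CF.Ideals
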