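import Pool.Agent.R130.CF.Struct

/-!
# MP_f07b9f : exactly three primes of norm 2
-/

open NumberField IsDedekindDomain Filter Topology

namespace R130.CF.Ideals

noncomputable section

variable (K : Type) [Field K] [NumberField K]

/-- `E(N₀, η)`: the ideals in `Θ(N₀)` divisible by `η` -/
def E (N₀ : ℕ) (η : Ideal (𝓞 K)) : Set (Ideal (𝓞 K)) := {θ ∈ Theta K N₀ | η ∣ θ}

/-- the ideals in `Θ(N₀)` divisible by at least two of the prime ideals of norm `2` -/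
def TwoOf (N₀ : ℕ) : Set (Ideal (𝓞 K)) := {θ ∈ Theta K N₀ | 2 ≤ (tr K θ).ncard}

variable {K}

/-- the family of all sets containing `η` -/
theorem maxInt_dict {η : Ideal (𝓞 K)} (hη : η ∈ P2 K) :
    MaxIntersecting K {S | S ⊆ P2 K ∧ η ∈ S} := by
  refine ⟨fun S hS => hS.1, fun S hS => ?_, fun S hS S' hS' => ⟨η, hS.2, hS'.2⟩⟩
  constructor
  · rintro ⟨_, h2⟩ ⟨_, h3⟩
    exact h3.2 h2
  · intro h
    refine ⟨hS, ?_⟩
    by_contra hn
    exact h ⟨Set.diff_subset, hη, hn⟩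

theorem fam_dict {η : Ideal (𝓞 K)} (hη : η ∈ P2 K) (N₀ : ℕ) :
    Fam K N₀ {S | S ⊆ P2 K ∧ η ∈ S} = E K N₀ η := by
  ext θ
  constructor
  · rintro ⟨h1, _, h3⟩
    exact ⟨h1, h3.2⟩
  · rintro ⟨h1, h2⟩
    exact ⟨h1, fun _ hx => hx.1, hη, h2⟩

/-- a maximal intersecting family containing a singleton is the family of all sets containing
its element -/
theorem eq_dict {F : Set (Set (Ideal (𝓞 K)))} (hF : MaxIntersecting K F) {η : Ideal (𝓞 K)}
    (hη : {η} ∈ F) : F = {S | S ⊆ P2 K ∧ η ∈ S} := by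
  have key : ∀ S ∈ F, η ∈ S := by
    intro S hS
    obtain ⟨x, hx, hx'⟩ := hF.2.2 _ hη S hS
    rw [Set.mem_singleton_iff] at hx
    exact hx ▸ hx'
  ext S
  constructor
  · intro hS
    exact ⟨hF.1 S hS, key S hS⟩
  · rintro ⟨h1, h2⟩
    rw [hF.2.1 S h1]
    intro h3
    exact (key _ h3).2 h2

variable {η₁ η₂ η₃ : Ideal (𝓞 K)}

theorem ncard_le_one_cases (h12 : η₁ ≠ η₂) (h13 : η₁ ≠ η₃) (h23 : η₂ ≠ η₃)
    (hP : P2 K = {η₁, η₂, η₃}) {S : Set (Ideal (𝓞 K))} (hS : S ⊆ P2 K) :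
    2 ≤ S.ncard ↔ ¬ 2 ≤ (P2 K \ S).ncard := by
  have hfin : (P2 K).Finite := by
    rw [hP]
    exact Set.toFinite _
  have h3 : (P2 K).ncard = 3 := by
    rw [hP, Set.ncard_eq_toFinset_card']
    simp [h12, h13, h23]
  have h4 := Set.ncard_sdiff_add_ncard_of_subset hS hfin
  omega

theorem maxInt_maj (h12 : η₁ ≠ η₂) (h13 : η₁ ≠ η₃) (h23 : η₂ ≠ η₃)
    (hP : P2 K = {η₁, η₂, η₃}) :
    MaxIntersecting K {S | S ⊆ P2 K ∧ 2 ≤ S.ncard} := by
  have hfin : (P2 K).Finite := by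
    rw [hP]
    exact Set.toFinite _
  have h3 : (P2 K).ncard = 3 := by
    rw [hP, Set.ncard_eq_toFinset_card']
    simp [h12, h13, h23]
  refine ⟨fun S hS => hS.1, fun S hS => ?_, ?_⟩
  · have := ncard_le_one_cases h12 h13 h23 hP hS
    constructor
    · rintro ⟨_, h2⟩ ⟨_, h3⟩
      exact this.mp h2 h3
    · intro h
      refine ⟨hS, this.mpr fun hh => h ⟨Set.diff_subset, hh⟩⟩
  · rintro S ⟨hS, hc⟩ S' ⟨hS', hc'⟩
    by_contra hemp
    rw [Set.not_nonempty_iff_eq_empty, ← Set.disjoint_iff_inter_eq_empty] at hemp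
    have h5 := Set.ncard_union_eq hemp (hfin.subset hS) (hfin.subset hS')
    have h6 := Set.ncard_le_ncard (Set.union_subset hS hS') hfin
    omega

theorem fam_maj (N₀ : ℕ) :
    Fam K N₀ {S | S ⊆ P2 K ∧ 2 ≤ S.ncard} = TwoOf K N₀ := by
  ext θ
  constructor
  · rintro ⟨h1, _, h3⟩
    exact ⟨h1, h3⟩
  · rintro ⟨h1, h2⟩
    exact ⟨h1, fun _ hx => hx.1, h2⟩

/-- classification of the maximal intersecting families for three primes -/
theorem classify (h12 : η₁ ≠ η₂) (h13 : η₁ ≠ η₃) (h23 : η₂ ≠ η₃)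
    (hP : P2 K = {η₁, η₂, η₃}) {F : Set (Set (Ideal (𝓞 K)))} (hF : MaxIntersecting K F) :
    (∃ η ∈ P2 K, F = {S | S ⊆ P2 K ∧ η ∈ S}) ∨ F = {S | S ⊆ P2 K ∧ 2 ≤ S.ncard} := by
  have hfin : (P2 K).Finite := by
    rw [hP]
    exact Set.toFinite _
  by_cases hs : ∃ η, {η} ∈ F
  · obtain ⟨η, hη⟩ := hs
    left
    exact ⟨η, hF.1 _ hη rfl, eq_dict hF hη⟩
  · right
    have key : ∀ S ∈ F, 2 ≤ S.ncard := by
      intro S hS
      by_contra hlt
      have hSfin : S.Finite := hfin.subset (hF.1 S hS)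
      have h1 : S.ncard = 0 ∨ S.ncard = 1 := by omega
      rcases h1 with h1 | h1
      · rw [Set.ncard_eq_zero hSfin] at h1
        have := hF.2.2 S hS S hS
        rw [h1] at this
        simp at this
      · rw [Set.ncard_eq_one] at h1
        obtain ⟨η, rfl⟩ := h1
        exact hs ⟨η, hS⟩
    ext S
    constructor
    · intro hS
      exact ⟨hF.1 S hS, key S hS⟩
    · rintro ⟨h1, h2⟩
      rw [hF.2.1 S h1]
      intro h3
      exact (ncard_le_one_cases h12 h13 h23 hP h1).mp h2 (key _ h3)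

/-- comparison of the two cardinalities -/
theorem compare (h12 : η₁ ≠ η₂) (h13 : η₁ ≠ η₃) (h23 : η₂ ≠ η₃)
    (hP : P2 K = {η₁, η₂, η₃}) (N₀ : ℕ) {η : Ideal (𝓞 K)} (hη : η ∈ P2 K) :
    (E K N₀ η).ncard + T K 2 N₀ = (TwoOf K N₀).ncard + T K 1 N₀ := by
  classical
  have hfin : (P2 K).Finite := by
    rw [hP]
    exact Set.toFinite _
  have h3 : (P2 K).ncard = 3 := by
    rw [hP, Set.ncard_eq_toFinset_card']
    simp [h12, h13, h23]
  have hTf := Theta_finite (K := K) N₀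
  have hc1 : (P2 K \ {η}).ncard = 2 := by
    have := Set.ncard_sdiff_add_ncard_of_subset (Set.singleton_subset_iff.mpr hη) hfin
    rw [Set.ncard_singleton] at this
    omega
  have hn1 : (P2 K \ {η}).Nonempty := by
    rw [← Set.ncard_pos (hfin.subset Set.diff_subset)]
    omega
  have e1 := ncard_type N₀ {η} (Set.singleton_subset_iff.mpr hη) (Set.singleton_nonempty _)
  have e2 := ncard_type N₀ (P2 K \ {η}) Set.diff_subset hn1
  rw [Set.ncard_singleton] at e1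
  rw [hc1] at e2
  -- decompositions
  have d1 : E K N₀ η = (E K N₀ η ∩ TwoOf K N₀) ∪ {θ ∈ Theta K N₀ | tr K θ = {η}} := by
    ext θ
    constructor
    · rintro ⟨a1, a2⟩
      have hmem : η ∈ tr K θ := ⟨hη, a2⟩
      by_cases h2 : 2 ≤ (tr K θ).ncard
      · left
        exact ⟨⟨a1, a2⟩, a1, h2⟩
      · right
        refine ⟨a1, ?_⟩
        have hfin' : (tr K θ).Finite := hfin.subset fun _ hx => hx.1
        have hpos : 0 < (tr K θ).ncard := (Set.ncard_pos hfin').mpr ⟨η, hmem⟩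
        have h1 : (tr K θ).ncard = 1 := by omega
        rw [Set.ncard_eq_one] at h1
        obtain ⟨a, ha⟩ := h1
        rw [ha] at hmem ⊢
        rw [Set.mem_singleton_iff] at hmem
        rw [hmem]
    · rintro (⟨a1, _⟩ | ⟨a1, a2⟩)
      · exact a1
      · refine ⟨a1, ?_⟩
        have : η ∈ tr K θ := by rw [a2]; rfl
        exact this.2
  have d2 : TwoOf K N₀ = (E K N₀ η ∩ TwoOf K N₀) ∪ {θ ∈ Theta K N₀ | tr K θ = P2 K \ {η}} := by
    ext θ
    constructor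
    · rintro ⟨a1, a2⟩
      by_cases hmem : η ∣ θ
      · left
        exact ⟨⟨a1, hmem⟩, a1, a2⟩
      · right
        refine ⟨a1, ?_⟩
        have hsub : tr K θ ⊆ P2 K \ {η} := by
          rintro x ⟨hx1, hx2⟩
          refine ⟨hx1, ?_⟩
          rintro rfl
          exact hmem hx2
        exact Set.eq_of_subset_of_ncard_le hsub (by omega) (hfin.subset Set.diff_subset)
    · rintro (⟨_, a1⟩ | ⟨a1, a2⟩)
      · exact a1
      · refine ⟨a1, ?_⟩
        rw [a2]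
        omega
  have j1 : Disjoint (E K N₀ η ∩ TwoOf K N₀) {θ ∈ Theta K N₀ | tr K θ = {η}} := by
    rw [Set.disjoint_left]
    rintro θ ⟨_, _, a2⟩ ⟨_, a3⟩
    rw [a3, Set.ncard_singleton] at a2
    omega
  have j2 : Disjoint (E K N₀ η ∩ TwoOf K N₀) {θ ∈ Theta K N₀ | tr K θ = P2 K \ {η}} := by
    rw [Set.disjoint_left]
    rintro θ ⟨⟨_, a2⟩, _⟩ ⟨_, a3⟩
    have : η ∈ tr K θ := ⟨hη, a2⟩
    rw [a3] at this
    exact this.2 rfl
  have hf1 : (E K N₀ η ∩ TwoOf K N₀).Finite := hTf.subset fun _ hx => hx.1.1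
  have k1 : (E K N₀ η).ncard = (E K N₀ η ∩ TwoOf K N₀).ncard + T K 1 N₀ := by
    conv_lhs => rw [d1]
    rw [Set.ncard_union_eq j1 hf1 (hTf.subset fun _ hx => hx.1), e1]
  have k2 : (TwoOf K N₀).ncard = (E K N₀ η ∩ TwoOf K N₀).ncard + T K 2 N₀ := by
    conv_lhs => rw [d2]
    rw [Set.ncard_union_eq j2 hf1 (hTf.subset fun _ hx => hx.1), e2]
  omega

/-- the extremal sets for exactly three primes of norm two -/
theorem three (h12 : η₁ ≠ η₂) (h13 : η₁ ≠ η₃) (h23 : η₂ ≠ η₃)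
    (hP : P2 K = {η₁, η₂, η₃}) : ∃ N₁ : ℕ, ∀ N₀ : ℕ, N₁ ≤ N₀ → ∀ A,
    Extremal K N₀ A ↔
      ((T K 2 N₀ ≤ T K 1 N₀ ∧ (A = E K N₀ η₁ ∨ A = E K N₀ η₂ ∨ A = E K N₀ η₃)) ∨
        (T K 1 N₀ ≤ T K 2 N₀ ∧ A = TwoOf K N₀)) := by
  have hne : (P2 K).Nonempty := by
    rw [hP]
    exact ⟨η₁, by simp⟩
  have m1 : η₁ ∈ P2 K := by rw [hP]; simp
  have m2 : η₂ ∈ P2 K := by rw [hP]; simp
  have m3 : η₃ ∈ P2 K := by rw [hP]; simp
  obtain ⟨N₁, hN₁⟩ := extremal_iff hne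
  refine ⟨N₁, fun N₀ hN₀ A => ?_⟩
  rw [hN₁ N₀ hN₀ A]
  have hcmp := fun (η : Ideal (𝓞 K)) (hη : η ∈ P2 K) => compare h12 h13 h23 hP N₀ hη
  constructor
  · rintro ⟨F, hF, rfl, hmax⟩
    rcases classify h12 h13 h23 hP hF with ⟨η, hη, rfl⟩ | rfl
    · left
      rw [fam_dict hη]
      have h1 := hmax _ (maxInt_maj h12 h13 h23 hP)
      rw [fam_maj, fam_dict hη] at h1
      have h2 := hcmp η hη
      refine ⟨by omega, ?_⟩
      rw [hP] at hη
      rcases hη with rfl | rfl | rfl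
      · left; rfl
      · right; left; rfl
      · right; right; rfl
    · right
      rw [fam_maj]
      have h1 := hmax _ (maxInt_dict m1)
      rw [fam_maj, fam_dict m1] at h1
      have h2 := hcmp η₁ m1
      exact ⟨by omega, rfl⟩
  · have hall : ∀ F', MaxIntersecting K F' →
        (Fam K N₀ F').ncard = (E K N₀ η₁).ncard ∨ (Fam K N₀ F').ncard = (TwoOf K N₀).ncard := by
      intro F' hF'
      rcases classify h12 h13 h23 hP hF' with ⟨η, hη, rfl⟩ | rfl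
      · left
        rw [fam_dict hη]
        have h1 := hcmp η hη
        have h2 := hcmp η₁ m1
        omega
      · right
        rw [fam_maj]
    have hdict : ∀ η ∈ P2 K, T K 2 N₀ ≤ T K 1 N₀ → A = E K N₀ η →
        ∃ F, MaxIntersecting K F ∧ A = Fam K N₀ F ∧
          ∀ F', MaxIntersecting K F' → (Fam K N₀ F').ncard ≤ (Fam K N₀ F).ncard := by
      intro η hη hle hA
      refine ⟨_, maxInt_dict hη, by rw [fam_dict hη]; exact hA, fun F' hF' => ?_⟩
      rw [fam_dict hη]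
      have h1 := hcmp η hη
      have h2 := hcmp η₁ m1
      rcases hall F' hF' with h | h <;> omega
    rintro (⟨hle, rfl | rfl | rfl⟩ | ⟨hle, rfl⟩)
    · exact hdict η₁ m1 hle rfl
    · exact hdict η₂ m2 hle rfl
    · exact hdict η₃ m3 hle rfl
    · refine ⟨_, maxInt_maj h12 h13 h23 hP, (fam_maj N₀).symm, fun F' hF' => ?_⟩
      rw [fam_maj]
      have h2 := hcmp η₁ m1
      rcases hall F' hF' with h | h <;> omega

end

end R130.CF.Ideals
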